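import Pool.Agent.W_448nl_h15.NlN

/-!
# MP_448cb3_co, case B: the end of the long chain of a late component has exactly one pendant
-/

set_option autoImplicit false

namespace Pool.Agent.GaussPoset.Nl

set_option linter.unusedSectionVars false

open Finset Win Cp Wd Win.I2 Win.Ev

universe u

variable {P : Type u} [Fintype P] [PartialOrder P] [DecidableEq P] {r i j a n E k : ℕ}
variable {lo hi : ℕ → ℕ}

/-- the rows of the list are the rows of the word, the right end moves on the levels `≥ a + 1` -/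
def TailL (w : List Ltr) (los his : List ℕ) (E : ℕ) : Prop :=
  w.length + 1 = E ∧ (∀ k, k < E → los.getD k 0 = 0 ∧ his.getD k 0 = 0) ∧
    los.getD E 0 = 0 ∧ his.getD E 0 = 1 ∧ los.getD (E + 1) 0 = 0 ∧ his.getD (E + 1) 0 = 1 ∧
    ∀ m, m < w.length → ((w.getD m OO).1 = true → los.getD (E + m + 1) 0 = los.getD (E + m) 0 + 1) ∧
      ((w.getD m OO).1 = false → los.getD (E + m + 1) 0 = los.getD (E + m) 0) ∧
      ((w.getD m OO).2 = true → his.getD (E + m + 1) 0 = his.getD (E + m) 0 + 1) ∧
      ((w.getD m OO).2 = false → his.getD (E + m + 1) 0 = his.getD (E + m) 0) ∧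
      (1 ≤ m → (w.getD m OO).2 = true ∧ los.getD (E + m) 0 < his.getD (E + m) 0)

instance (w : List Ltr) (los his : List ℕ) (E : ℕ) : Decidable (TailL w los his E) := by
  unfold TailL; infer_instance

/-- everything the evaluator has to check -/
def TailV (w : List Ltr) (los his : List ℕ) (E : ℕ) : Prop :=
  TailL w los his E ∧ okP los his (2 * E) E (mk los his (2 * E) E) = true ∧
    lb0 (mk los his (2 * E) E) = true ∧ ev 1 (mk los his (2 * E) E) 0 E 0 0 0 = -1

set_option maxRecDepth 100000 in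
lemma tailV4 : TailV [OC, OO, OO] [0, 0, 0, 0, 0, 0, 0, 0] [0, 0, 0, 0, 1, 1, 2, 3] 4 := by
  refine ⟨by decide, ?_, ?_, ?_⟩ <;> decide +kernel

set_option maxRecDepth 100000 in
lemma tailV5 : TailV [OC, OO, CO, OO] [0, 0, 0, 0, 0, 0, 0, 0, 1, 1] [0, 0, 0, 0, 0, 1, 1, 2, 3, 4]
    5 := by
  refine ⟨by decide, ?_, ?_, ?_⟩ <;> decide +kernel

set_option maxRecDepth 100000 in
lemma tailV7 : TailV [OC, CO, CO, OO, CO, OO] [0, 0, 0, 0, 0, 0, 0, 0, 0, 1, 2, 2, 3, 3]
    [0, 0, 0, 0, 0, 0, 0, 1, 1, 2, 3, 4, 5, 6] 7 := by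
  refine ⟨by decide, ?_, ?_, ?_⟩ <;> decide +kernel

set_option maxRecDepth 100000 in
lemma tailV8 : TailV [OC, CO, CO, OO, CO, OO, OO]
    [0, 0, 0, 0, 0, 0, 0, 0, 0, 0, 1, 2, 2, 3, 3, 3]
    [0, 0, 0, 0, 0, 0, 0, 0, 1, 1, 2, 3, 4, 5, 6, 7] 8 := by
  refine ⟨by decide, ?_, ?_, ?_⟩ <;> decide +kernel

section comp

variable {t : Tops P} {e : ℕ → ℕ → P}

/-- the rows of a word -/
lemma tail_rows (C : Cp.Comp j (t : P) lo hi e) {w : List Ltr} {los his : List ℕ}
    (hw : word lo hi a (j - a) = w) (haj : a ≤ j) (h0 : lo a = 0 ∧ hi a = 1)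
    (T : TailL w los his E) :
    a + E = j + 1 ∧ ∀ m, m < E → lo (a + m) = los.getD (E + m) 0 ∧ hi (a + m) = his.getD (E + m) 0 := by
  obtain ⟨t1, t2, t3, t4, t5, t6, t7⟩ := T
  obtain ⟨w1, w2⟩ := Wd.word_spec hw
  have hE : a + E = j + 1 := by omega
  refine ⟨hE, ?_⟩
  intro m
  induction m with
  | zero =>
    intro _
    rw [Nat.add_zero, Nat.add_zero, t3, t4]
    exact h0
  | succ m ih =>
    intro hm
    obtain ⟨i1, i2⟩ := ih (by omega)
    obtain ⟨q1, q2⟩ := w2 m (by omega)
    have hmw : m < w.length := by omega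
    obtain ⟨g1, g2, g3, g4, -⟩ := t7 m hmw
    have hget : w.getD m OO = w[m] := by
      rw [List.getD_eq_getElem?_getD, List.getElem?_eq_getElem hmw, Option.getD_some]
    rw [hget] at g1 g2 g3 g4
    rw [List.getElem?_eq_getElem hmw] at q1 q2
    simp only [Option.map_some, Option.some.injEq] at q1 q2
    have s1 := C.lo_step (a + m) (by omega)
    have s2 := C.hi_step (a + m) (by omega)
    rw [← Nat.add_assoc, ← Nat.add_assoc]
    constructor
    · by_cases hb : w[m].1 = true
      · rw [g1 hb, ← i1]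
        rw [hb] at q1
        have := of_decide_eq_true q1.symm
        omega
      · rw [Bool.not_eq_true] at hb
        rw [g2 hb, ← i1]
        rw [hb] at q1
        have := of_decide_eq_false q1.symm
        omega
    · by_cases hb : w[m].2 = true
      · rw [g3 hb, ← i2]
        rw [hb] at q2
        have := of_decide_eq_true q2.symm
        omega
      · rw [Bool.not_eq_true] at hb
        rw [g4 hb, ← i2]
        rw [hb] at q2
        have := of_decide_eq_false q2.symm
        omega

/-- THE END OF THE LONG CHAIN, from the cleanness `(E,1)(a)` -/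
theorem NJ.pen_tail (h : NJ P r j) (C : Cp.Comp j (t : P) lo hi e) (haj : a + 1 ≤ j)
    (hz0 : ∀ k, k < a → lo k = 0 ∧ hi k = 0) (h0 : lo a = 0 ∧ hi a = 1) {w : List Ltr}
    {los his : List ℕ} (hw : word lo hi a (j - a) = w) (V : TailV w los his E) (hEa : E ≤ a)
    (h32 : E < 32) (hcl : Wd.Cln P a E) : (pen (e j (hi j))).card = 1 := by
  obtain ⟨T, hok, hlb, hev⟩ := V
  obtain ⟨hE, hv⟩ := tail_rows C hw (by omega) h0 T
  obtain ⟨t1, t2, t3, t4, t5, t6, t7⟩ := T
  have h1 := hv 1 (by omega)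
  rw [t5, t6] at h1
  refine NJ.pen_late h C haj hE hEa h32 hz0 h0 h1 ?_ ?_ t2 hv hok hlb hev hcl
  · intro k hk hkj
    obtain ⟨m, rfl⟩ : ∃ m, k = a + m := ⟨k - a, by omega⟩
    obtain ⟨-, -, g3, -, g5⟩ := t7 m (by omega)
    have e1 := hv m (by omega)
    have e2 := hv (m + 1) (by omega)
    rw [← Nat.add_assoc, ← Nat.add_assoc] at e2
    rw [e2.2, e1.2]
    exact g3 (g5 (by omega)).1
  · intro k hk hkj
    obtain ⟨m, rfl⟩ : ∃ m, k = a + m := ⟨k - a, by omega⟩
    obtain ⟨-, -, g3, -, g5⟩ := t7 m (by omega)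
    have e1 := hv m (by omega)
    rw [e1.1, e1.2]
    exact (g5 (by omega)).2

/-- the words of the late components with at least four sites, from `lateW` -/
lemma tail_len {w : List Ltr} (h3 : 3 ≤ a) (hw : w ∈ lateW a)
    (h4 : w = [OC, OO, OO] ∨ w = [OC, OO, CO, OO] ∨ w = [OC, CO, CO, OO, CO, OO] ∨
      w = [OC, CO, CO, OO, CO, OO, OO]) : w.length ≤ a := by
  rcases h4 with rfl | rfl | rfl | rfl
  · exact h3
  · rcases Nat.lt_or_ge 3 a with h | h
    · exact h
    · obtain rfl : a = 3 := by omega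
      exact absurd hw (by decide)
  · rcases Nat.lt_or_ge 5 a with h | h
    · exact h
    · obtain rfl | rfl | rfl : a = 3 ∨ a = 4 ∨ a = 5 := by omega
      · exact absurd hw (by decide)
      · exact absurd hw (by decide)
      · exact absurd hw (by decide)
  · rcases Nat.lt_or_ge 6 a with h | h
    · exact h
    · obtain rfl | rfl | rfl | rfl : a = 3 ∨ a = 4 ∨ a = 5 ∨ a = 6 := by omega
      · exact absurd hw (by decide)
      · exact absurd hw (by decide)
      · exact absurd hw (by decide)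
      · exact absurd hw (by decide)

/-- a component with one element on the levels `< a`, `3 ≤ a`, and two elements on level `a` is
late -/
lemma shape_late (S : Shape j lo hi) (h3 : 3 ≤ a) (haj : a ≤ j)
    (hz0 : ∀ k, k < a → lo k = 0 ∧ hi k = 0) (h0 : lo a = 0 ∧ hi a = 1) : LateD j a lo hi := by
  rcases S with hl | ⟨h1, -⟩ | ⟨-, hR⟩ | ⟨-, -, h2⟩ | ⟨-, hF⟩ | ⟨a', g0, g1, g2, g3, gN, g4⟩
  · have := hl a haj
    omega
  · have := hz0 1 (by omega)
    omega
  · have := hz0 2 (by omega)
    have := hR.hi 2 (by omega)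
    omega
  · have := hz0 2 (by omega)
    omega
  · obtain ⟨-, -, -, f2, -⟩ := hF
    have := hz0 2 (by omega)
    omega
  · obtain rfl : a' = a := by
      rcases Nat.lt_trichotomy a' a with h | h | h
      · have := hz0 a' h
        omega
      · exact h
      · have := g2 a h
        omega
    exact ⟨g0, g1, g2, g3, g4⟩

/-- THE INPUT `HTail`, from the values of the late components with three sites -/
theorem NJ.htail (h : NJ P r j) (C : Cp.Comp j (t : P) lo hi e) (S : Shape j lo hi)
    (h3 : 3 ≤ a) (haj : a ≤ j) (hz0 : ∀ k, k < a → lo k = 0 ∧ hi k = 0) (h0 : lo a = 0 ∧ hi a = 1)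
    (hw : word lo hi a (j - a) = [OC, OO, OO] ∨ word lo hi a (j - a) = [OC, OO, CO, OO] ∨
      word lo hi a (j - a) = [OC, CO, CO, OO, CO, OO] ∨
      word lo hi a (j - a) = [OC, CO, CO, OO, CO, OO, OO])
    (V4 : L3V P j 4) (V5 : j = 12 → L3V P j 5) (V8 : j = 15 → E7V P j 8) :
    j ≤ 2 * a ∧ (j + 1 ≤ 2 * a → (pen (e j (hi j))).card = 1) := by
  have hr := h.hr
  have D := shape_late S h3 haj hz0 h0
  have hl : (word lo hi a (j - a)).length = j - a := by
    unfold word
    rw [List.length_map, List.length_range]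
  have hmem : word lo hi a (j - a) ∈ lateW a := by
    rcases D.h4 with ⟨-, h4⟩ | h4
    · exfalso
      rw [h4] at hw
      unfold Qw at hw
      rcases hw with hw | hw | hw | hw <;> (rw [List.cons.injEq] at hw; exact absurd hw.1 (by decide))
    · exact h4
  have hlen := tail_len h3 hmem hw
  rw [hl] at hlen
  refine ⟨by omega, fun hj2 => ?_⟩
  rcases hw with hw | hw | hw | hw
  · rw [hw] at hl
    simp only [List.length_cons, List.length_nil] at hl
    refine NJ.pen_tail h C (by omega) hz0 h0 hw tailV4 (by omega) (by omega) ?_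
    exact NJ.cln45 (SO_holds P r) EV_holds h (Or.inl rfl) (by omega) (by omega) V4
  · rw [hw] at hl
    simp only [List.length_cons, List.length_nil] at hl
    refine NJ.pen_tail h C (by omega) hz0 h0 hw tailV5 (by omega) (by omega) ?_
    refine NJ.cln45 (SO_holds P r) EV_holds h (Or.inr rfl) (by omega) (by omega) ?_
    intro a' t' lo' hi' e' C' D' h1 h2 h4 m h5 h6
    have h7 := h4 rfl
    exact V5 (by omega) C' D' h1 h2 h4 m h5 h6
  · rw [hw] at hl
    simp only [List.length_cons, List.length_nil] at hl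
    refine NJ.pen_tail h C (by omega) hz0 h0 hw tailV7 (by omega) (by omega) ?_
    have := NJ.cln_seven h (by omega)
    rwa [show j - 6 = a by omega] at this
  · rw [hw] at hl
    simp only [List.length_cons, List.length_nil] at hl
    refine NJ.pen_tail h C (by omega) hz0 h0 hw tailV8 (by omega) (by omega) ?_
    exact NJ.cln_ge7 (SO_holds P r) EV_holds h (by omega) (by omega) (by omega)
      (fun h5 _ => V8 (by omega))

end comp

end Pool.Agent.GaussPoset.Nl
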