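import Pool.Agent.W_448ec_h63.EQ

/-!
# MP_448cb3_co: truncated shapes at the energies up to `2 (J - i) + 2`

The cleanness of truncated Young shapes and truncated staircases (files EB, ED, EE, EF), two energies
further.
-/

namespace Pool.Agent.GaussPoset.Nl

set_option linter.unusedSectionVars false

open Polynomial Finset OrderDual

universe u

/-- three segments -/
lemma three_sgm {F : Finset (ℕ × ℕ)} {a a' a'' c c' c'' l l' l'' : ℕ} (h1 : l ≤ a + 1)
    (h2 : l' ≤ a' + 1) (h3 : l'' ≤ a'' + 1) (e1 : c ≠ c') (e2 : c ≠ c'') (e3 : c' ≠ c'')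
    (hF : ∀ j, j < l → (a - j, c) ∈ F) (hF' : ∀ j, j < l' → (a' - j, c') ∈ F)
    (hF'' : ∀ j, j < l'' → (a'' - j, c'') ∈ F) : l + (l' + l'') ≤ F.card := by
  classical
  have hsub : sgm a c l ∪ (sgm a' c' l' ∪ sgm a'' c'' l'') ⊆ F := by
    intro p hp
    rw [mem_union, mem_union] at hp
    rcases hp with hp | hp | hp
    · obtain ⟨j, hj, rfl⟩ := mem_sgm hp
      exact hF j hj
    · obtain ⟨j, hj, rfl⟩ := mem_sgm hp
      exact hF' j hj
    · obtain ⟨j, hj, rfl⟩ := mem_sgm hp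
      exact hF'' j hj
  have h4 := card_le_card hsub
  rwa [card_union_of_disjoint (disjoint_union_right.2 ⟨sgm_disj e1, sgm_disj e2⟩),
    card_union_of_disjoint (sgm_disj e3), sgm_card h1, sgm_card h2, sgm_card h3] at h4

/-- four segments -/
lemma four_sgm {F : Finset (ℕ × ℕ)} {a a' a'' a3 c c' c'' c3 l l' l'' l3 : ℕ} (h1 : l ≤ a + 1)
    (h2 : l' ≤ a' + 1) (h3 : l'' ≤ a'' + 1) (h4 : l3 ≤ a3 + 1) (e1 : c ≠ c') (e2 : c ≠ c'')
    (e3 : c ≠ c3) (e4 : c' ≠ c'') (e5 : c' ≠ c3) (e6 : c'' ≠ c3)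
    (hF : ∀ j, j < l → (a - j, c) ∈ F) (hF' : ∀ j, j < l' → (a' - j, c') ∈ F)
    (hF'' : ∀ j, j < l'' → (a'' - j, c'') ∈ F) (hF3 : ∀ j, j < l3 → (a3 - j, c3) ∈ F) :
    l + (l' + (l'' + l3)) ≤ F.card := by
  classical
  have hsub : sgm a c l ∪ (sgm a' c' l' ∪ (sgm a'' c'' l'' ∪ sgm a3 c3 l3)) ⊆ F := by
    intro p hp
    rw [mem_union, mem_union, mem_union] at hp
    rcases hp with hp | hp | hp | hp
    · obtain ⟨j, hj, rfl⟩ := mem_sgm hp
      exact hF j hj
    · obtain ⟨j, hj, rfl⟩ := mem_sgm hp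
      exact hF' j hj
    · obtain ⟨j, hj, rfl⟩ := mem_sgm hp
      exact hF'' j hj
    · obtain ⟨j, hj, rfl⟩ := mem_sgm hp
      exact hF3 j hj
  have h5 := card_le_card hsub
  rwa [card_union_of_disjoint (disjoint_union_right.2 ⟨sgm_disj e1,
      disjoint_union_right.2 ⟨sgm_disj e2, sgm_disj e3⟩⟩),
    card_union_of_disjoint (disjoint_union_right.2 ⟨sgm_disj e4, sgm_disj e5⟩),
    card_union_of_disjoint (sgm_disj e6), sgm_card h1, sgm_card h2, sgm_card h3, sgm_card h4] at h5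

/-- the cone of an added cell -/
lemma cone_card2 {S : Finset (ℕ × ℕ)} {i k q J s c n : ℕ} (hS : ∀ s' c', s' < k → c' < q →
    (s', c') ∈ S) (hk : k ≤ i + 1) (hq : q ≤ i + 1) (hs : s < k) (hc : c < q) (hJ : J < s + c)
    (h3 : i + 3 ≤ J) (hn : n ≤ 2 * (J - i) + 2) :
    n < (S.filter (fun c' => c' ≤ (s, c) ∧ i < c'.1 + c'.2)).card := by
  classical
  have h4 := three_sgm (F := S.filter (fun c' => c' ≤ (s, c) ∧ i < c'.1 + c'.2)) (a := s) (a' := s)
    (a'' := s) (c := c) (c' := c - 1) (c'' := c - 2) (l := J - i + 1) (l' := J - i)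
    (l'' := J - i - 1) (by omega) (by omega) (by omega) (by omega) (by omega) (by omega)
    (fun j hj => mem_filter.2 ⟨hS _ _ (by omega) (by omega), ⟨Nat.sub_le _ _, le_rfl⟩,
      by simp only; omega⟩)
    (fun j hj => mem_filter.2 ⟨hS _ _ (by omega) (by omega), ⟨Nat.sub_le _ _, Nat.sub_le _ _⟩,
      by simp only; omega⟩)
    (fun j hj => mem_filter.2 ⟨hS _ _ (by omega) (by omega), ⟨Nat.sub_le _ _, Nat.sub_le _ _⟩,
      by simp only; omega⟩)
  omega

section young

variable {Q : Type u} [Fintype Q] [PartialOrder Q] [DecidableEq Q]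

/-- TRUNCATED YOUNG SHAPES -/
theorem young_trunc2 (co : Q → ℕ × ℕ) (hinj : Function.Injective co)
    (hle : ∀ x y : Q, x ≤ y ↔ co y ≤ co x) (hlow : ∀ x : Q, ∀ c ≤ co x, ∃ y, co y = c)
    {i k J : ℕ} (hk : k ≤ i + 1) (hiJ : i + 3 ≤ J)
    (hbase : ∀ s c, s < k → c ≤ i → s + c ≤ J → ∃ x, co x = (s, c)) {n : ℕ}
    (hn : n ≤ 2 * (J - i) + 2) : (1 + X : ℤ[X]) ^ k ∣ Z Q i n := by
  classical
  set S : Finset (ℕ × ℕ) := univ.image co ∪ (range k ×ˢ range (i + 1)) with hSdef
  have hmem : ∀ p, p ∈ S ↔ (∃ x, co x = p) ∨ (p.1 < k ∧ p.2 ≤ i) := by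
    intro p
    rw [hSdef, mem_union, mem_image, mem_product, mem_range, mem_range, Nat.lt_succ_iff]
    simp
  have hSlow : ∀ c ∈ S, ∀ c' ≤ c, c' ∈ S := by
    intro c hc c' hc'
    rw [hmem] at hc ⊢
    rcases hc with ⟨x, rfl⟩ | ⟨h1, h2⟩
    · exact Or.inl (hlow x c' hc')
    · have h3 : c'.1 ≤ c.1 := hc'.1
      have h4 : c'.2 ≤ c.2 := hc'.2
      exact Or.inr ⟨by omega, by omega⟩
  have hZ := Z_complete co hinj hle S (fun x => (hmem _).2 (Or.inl ⟨x, rfl⟩))
    (fun x c hc _ => hlow x c hc) (i := i) (n := n) (lev_cel hSlow) (by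
      rintro ⟨s, c⟩ hc hno
      have h1 : s < k ∧ c ≤ i := by
        rcases (hmem _).1 hc with ⟨x, hx⟩ | h
        · exact absurd hx (hno x)
        · exact h
      have h2 : J < s + c := by
        by_contra hcon
        obtain ⟨x, hx⟩ := hbase s c h1.1 h1.2 (by omega)
        exact hno x hx
      refine ⟨by simp only; omega, ?_⟩
      exact cone_card2 (S := S) (i := i) (k := k) (q := i + 1) (J := J) (fun s' c' h h' =>
        (hmem _).2 (Or.inr ⟨h, by simp only; omega⟩)) hk le_rfl h1.1 (by omega) h2 hiJ hn)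
  rw [hZ]
  refine dvd_Z_of_dvd_W ?_ n
  refine Yg.young_dvd_co cel cel_inj cel_le (fun x c hc => cel_surj (hSlow _ (cel_mem x) c hc)) hk
    (fun s hs => cel_surj ((hmem _).2 (Or.inr ⟨by simp only; omega, le_rfl⟩)))

/-- truncated rectangle -/
theorem rect_trunc2 (co : Q → ℕ × ℕ)
    (hinj : Function.Injective co) (hle : ∀ x y : Q, x ≤ y ↔ co y ≤ co x)
    (hlow : ∀ x : Q, ∀ c ≤ co x, ∃ y, co y = c) {i J p q : ℕ} (hp : p ≤ i + 1) (hq : q ≤ i + 1)
    (hr : i + 2 ≤ p + q) (hiJ : i + 3 ≤ J) (hsub : ∀ x, (co x).1 < p ∧ (co x).2 < q)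
    (hbase : ∀ s c, s < p → c < q → s + c ≤ J → ∃ x, co x = (s, c)) {n : ℕ}
    (hn : n ≤ 2 * (J - i) + 2) : (1 + X : ℤ[X]) ^ (p + q - 1 - i) ∣ Z Q i n := by
  classical
  have hZ := Z_complete co hinj hle (rec2 p q) (fun x => mem_rec2.2 (hsub x))
    (fun x c hc _ => hlow x c hc) (i := i) (n := n) (lev_cel rec2_low) (by
      rintro ⟨s, c⟩ hc hno
      have h1 := mem_rec2.1 hc
      simp only at h1
      have h2 : J < s + c := by
        by_contra hcon
        obtain ⟨x, hx⟩ := hbase s c h1.1 h1.2 (by omega)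
        exact hno x hx
      refine ⟨by simp only; omega, ?_⟩
      exact cone_card2 (S := rec2 p q) (i := i) (k := p) (q := q) (J := J) (fun s' c' h h' =>
        mem_rec2.2 ⟨h, h'⟩) hp hq h1.1 h1.2 h2 hiJ hn)
  rw [hZ]
  exact rect_full hp hq hr n

end young

/-- the exceptional cells of a staircase -/
def Exc (i J n s c : ℕ) : Prop :=
  (s = c ∧ s + c = J + 1 ∧ J ≤ i + 5) ∨ (c = s + 1 ∧ s + c = J + 1 ∧ J = i + 3 ∧ n = 8)

/-- the cone of an added cell of a staircase -/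
lemma cone_stair2 {S : Finset (ℕ × ℕ)} {i q J n s c : ℕ}
    (hS : ∀ s' c', s' ≤ c' → c' < q → (s', c') ∈ S) (hq : q ≤ i + 1) (hsc : s ≤ c) (hc : c < q)
    (hJ : J < s + c) (h3 : i + 3 ≤ J) (hn : n ≤ 2 * (J - i) + 2) (hex : ¬ Exc i J n s c) :
    n < (S.filter (fun c' => c' ≤ (s, c) ∧ i < c'.1 + c'.2)).card := by
  classical
  unfold Exc at hex
  have hmm : ∀ a b : ℕ, a ≤ s → b ≤ c → a ≤ b → i < a + b → (a, b) ∈
      S.filter (fun c' => c' ≤ (s, c) ∧ i < c'.1 + c'.2) := fun a b h1 h2 h4 h5 =>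
    mem_filter.2 ⟨hS _ _ h4 (by omega), ⟨h1, h2⟩, h5⟩
  rcases Nat.eq_or_lt_of_le hsc with hf | hf
  · subst hf
    have h4 := four_sgm (F := S.filter (fun c' => c' ≤ (s, s) ∧ i < c'.1 + c'.2)) (a := s)
      (a' := s - 1) (a'' := s - 2) (a3 := s - 3) (c := s) (c' := s - 1) (c'' := s - 2)
      (c3 := s - 3) (l := 2 * s - i) (l' := 2 * s - 2 - i) (l'' := 2 * s - 4 - i)
      (l3 := 2 * s - 6 - i) (by omega) (by omega) (by omega) (by omega) (by omega) (by omega)
      (by omega) (by omega) (by omega) (by omega)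
      (fun j hj => hmm _ _ (by omega) (by omega) (by omega) (by omega))
      (fun j hj => hmm _ _ (by omega) (by omega) (by omega) (by omega))
      (fun j hj => hmm _ _ (by omega) (by omega) (by omega) (by omega))
      (fun j hj => hmm _ _ (by omega) (by omega) (by omega) (by omega))
    omega
  · rcases Nat.eq_or_lt_of_le hf with hf2 | hf2
    · have h4 := four_sgm (F := S.filter (fun c' => c' ≤ (s, c) ∧ i < c'.1 + c'.2)) (a := s)
        (a' := s) (a'' := s - 1) (a3 := s - 2) (c := c) (c' := c - 1) (c'' := c - 2)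
        (c3 := c - 3) (l := s + c - i) (l' := s + c - 1 - i) (l'' := s + c - 3 - i)
        (l3 := s + c - 5 - i) (by omega) (by omega) (by omega) (by omega) (by omega) (by omega)
        (by omega) (by omega) (by omega) (by omega)
        (fun j hj => hmm _ _ (by omega) (by omega) (by omega) (by omega))
        (fun j hj => hmm _ _ (by omega) (by omega) (by omega) (by omega))
        (fun j hj => hmm _ _ (by omega) (by omega) (by omega) (by omega))
        (fun j hj => hmm _ _ (by omega) (by omega) (by omega) (by omega))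
      omega
    · have h4 := three_sgm (F := S.filter (fun c' => c' ≤ (s, c) ∧ i < c'.1 + c'.2)) (a := s)
        (a' := s) (a'' := s) (c := c) (c' := c - 1) (c'' := c - 2) (l := s + c - i)
        (l' := s + c - 1 - i) (l'' := s + c - 2 - i) (by omega) (by omega) (by omega) (by omega)
        (by omega) (by omega)
        (fun j hj => hmm _ _ (by omega) (by omega) (by omega) (by omega))
        (fun j hj => hmm _ _ (by omega) (by omega) (by omega) (by omega))
        (fun j hj => hmm _ _ (by omega) (by omega) (by omega) (by omega))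
      omega

/-- TRUNCATED STAIRCASES -/
theorem stair_trunc2 {Q : Type u} [Fintype Q] [PartialOrder Q] [DecidableEq Q] (co : Q → ℕ × ℕ)
    (hinj : Function.Injective co) (hge : ∀ x, (co x).1 ≤ (co x).2)
    (hle : ∀ x y : Q, x ≤ y ↔ co y ≤ co x)
    (hlow : ∀ x : Q, ∀ c ≤ co x, c.1 ≤ c.2 → ∃ y, co y = c) {i q J : ℕ} (hq : q ≤ i + 1)
    (hr : i + 2 ≤ 2 * q) (hiJ : i + 3 ≤ J) (hsub : q = i + 1 ∨ ∀ x, (co x).2 < q)
    (hbase : ∀ s c, s ≤ c → c < q → s + c ≤ J → ∃ x, co x = (s, c)) {n : ℕ}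
    (hn : n ≤ 2 * (J - i) + 2)
    (hex : ∀ s c, s ≤ c → c < q → (∀ x, co x ≠ (s, c)) → ¬ Exc i J n s c) :
    (1 + X : ℤ[X]) ^ (i / 2 + q - i) ∣ Z Q i n := by
  classical
  rcases hsub with hqi | hsub
  · set S : Finset (ℕ × ℕ) := univ.image co ∪ stc q with hSdef
    have hmem : ∀ p, p ∈ S ↔ (∃ x, co x = p) ∨ p ∈ stc q := by
      intro p
      rw [hSdef, mem_union, mem_image]
      simp
    have hSge : ∀ c ∈ S, c.1 ≤ c.2 := by
      intro c hc
      rcases (hmem c).1 hc with ⟨x, rfl⟩ | h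
      · exact hge x
      · exact stc_shift c h
    have hSlow : ∀ c ∈ S, ∀ c' ≤ c, c'.1 ≤ c'.2 → c' ∈ S := by
      intro c hc c' hc' hs
      rw [hmem] at hc ⊢
      rcases hc with ⟨x, rfl⟩ | h
      · exact Or.inl (hlow x c' hc' hs)
      · exact Or.inr (stc_low c h c' hc' hs)
    have hZ := Z_complete co hinj hle S (fun x => (hmem _).2 (Or.inl ⟨x, rfl⟩))
      (fun x c hc hcS => hlow x c hc (hSge c hcS)) (i := i) (n := n)
      (lev_cel_shift hSge hSlow) (by
        rintro ⟨s, c⟩ hc hno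
        have h1 : s ≤ c ∧ c < q := by
          rcases (hmem _).1 hc with ⟨x, hx⟩ | h
          · exact absurd hx (hno x)
          · exact mem_stc.1 h
        have h2 : J < s + c := by
          by_contra hcon
          obtain ⟨x, hx⟩ := hbase s c h1.1 h1.2 (by omega)
          exact hno x hx
        exact ⟨by simp only; omega, cone_stair2
          (fun s' c' h h' => (hmem _).2 (Or.inr (mem_stc.2 ⟨h, h'⟩))) hq h1.1 h1.2 h2 hiJ hn
          (hex s c h1.1 h1.2 hno)⟩)
    rw [hZ]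
    refine dvd_Z_of_dvd_W ?_ n
    have h1 := Yg.shift_dvd_cell (Q := CelS S) (i := i) cel cel_inj (fun x => hSge _ (cel_mem x))
      cel_le (fun x c hc hs => cel_surj (hSlow _ (cel_mem x) c hc hs))
      (cel_surj ((hmem _).2 (Or.inr (mem_stc.2 ⟨by simp only; omega, by simp only; omega⟩))))
    rwa [show i / 2 + q - i = i / 2 + 1 by omega]
  · have hZ := Z_complete co hinj hle (stc q) (fun x => mem_stc.2 ⟨hge x, hsub x⟩)
      (fun x c hc hcS => hlow x c hc (stc_shift c hcS)) (i := i) (n := n)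
      (lev_cel_shift stc_shift stc_low) (by
        rintro ⟨s, c⟩ hc hno
        have h1 := mem_stc.1 hc
        simp only at h1
        have h2 : J < s + c := by
          by_contra hcon
          obtain ⟨x, hx⟩ := hbase s c h1.1 h1.2 (by omega)
          exact hno x hx
        exact ⟨by simp only; omega, cone_stair2
          (fun s' c' h h' => mem_stc.2 ⟨h, h'⟩) hq h1.1 h1.2 h2 hiJ hn
          (hex s c h1.1 h1.2 hno)⟩)
    rw [hZ, show i / 2 + q - i = (2 * q - 2 - i) / 2 + 1 by omega]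
    exact stair_full hq hr n

end Pool.Agent.GaussPoset.Nl
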