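import Pool.Agent.W_448nl_h15.NlA

/-!
# MP_448cb3_co: early shapes, energies up to `2 (J - i) + 2`, distance at least six
-/

namespace Pool.Agent.GaussPoset.Nl

set_option linter.unusedSectionVars false

open Polynomial Finset OrderDual

universe u

variable {Q : Type u} [Fintype Q] [PartialOrder Q] [DecidableEq Q]
variable {t : Q} {T : ℕ × ℕ → Prop} {co : Q → ℕ × ℕ} {i J p q : ℕ}

/-- truncated rectangles are clean -/
theorem cln_rect2 (H : Tru t (fun _ => True) co i J p q) (hr : i + 2 ≤ p + q) {n0 : ℕ}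
    (hn0 : n0 ≤ 2 * (J - i) + 3) : Cln Q co i J p q (p + q - 1 - i) n0 := by
  classical
  intro D hD hRD hDi hDθ n hn
  obtain ⟨h1, h2, h3, h4, h5⟩ := H.sub_facts hD hRD hDθ
  have hiJ := H.hiJ
  have hp := H.hp
  have hq := H.hq
  by_cases hqi : q = i + 1
  · have e1 : p + q - 1 - i = p := by omega
    rw [e1]
    exact young_trunc2 (fun x : {x : Q // x ∉ D} => co (x : Q)) h2 h3
      (fun x c hc => h4 x c hc trivial) (J := J) H.hp (by omega)
      (fun s c hs hc hsc => h5 s c trivial hs (by omega) hsc) (by omega)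
  · by_cases hpi : p = i + 1
    · have e1 : p + q - 1 - i = q := by omega
      rw [e1]
      refine young_trunc2 (fun x : {x : Q // x ∉ D} => (co (x : Q)).swap) ?_ ?_ ?_ (J := J) H.hq
        (by omega) ?_ (by omega)
      · intro x y h
        exact h2 (Prod.swap_injective h)
      · intro x y
        rw [h3 x y]
        exact Prod.swap_le_swap.symm
      · intro x c hc
        obtain ⟨y, hy⟩ := h4 x c.swap ⟨hc.2, hc.1⟩ trivial
        exact ⟨y, by rw [hy, Prod.swap_swap]⟩
      · intro s c hs hc hsc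
        obtain ⟨y, hy⟩ := h5 c s trivial (by omega) hs (by omega)
        exact ⟨y, by rw [hy]; rfl⟩
    · have hsub : ∀ x : {x : Q // x ∉ D}, (co (x : Q)).1 < p ∧ (co (x : Q)).2 < q := fun x =>
        ⟨H.pcl.resolve_left hpi x (h1 x), H.qcl.resolve_left hqi x (h1 x)⟩
      exact rect_trunc2 (fun x : {x : Q // x ∉ D} => co (x : Q)) h2 h3
        (fun x c hc => h4 x c hc trivial) H.hp H.hq hr (by omega) hsub
        (fun s c hs hc hsc => h5 s c trivial hs hc hsc) (by omega)

/-- truncated staircases are clean, without the exceptional cells -/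
theorem cln_stair2 (H : Tru t (fun c => c.1 ≤ c.2) co i J (i + 1) q) (hr : i + 2 ≤ 2 * q)
    {n0 : ℕ} (hn0 : n0 ≤ 2 * (J - i) + 3)
    (hex : i + 6 ≤ J ∨ (i + 4 ≤ J ∧ 2 * (J / 2) = J) ∨ (J = i + 3 ∧ 2 * (J / 2) = J ∧ n0 ≤ 8)) :
    Cln Q co i J (i + 1) q (i / 2 + q - i) n0 := by
  classical
  intro D hD hRD hDi hDθ n hn
  obtain ⟨h1, h2, h3, h4, h5⟩ := H.sub_facts hD hRD hDθ
  have hiJ := H.hiJ
  have hq := H.hq
  refine stair_trunc2 (fun x : {x : Q // x ∉ D} => co (x : Q)) h2
    (fun x => H.chart.mem x (mem_loN.2 (h1 x))) h3 h4 H.hq hr H.hiJ ?_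
    (fun s c hsc hc hJ => h5 s c hsc (by omega) hc hJ) (by omega) ?_
  · rcases H.qcl with h | h
    · exact Or.inl h
    · exact Or.inr fun x => h x (h1 x)
  · intro s c hsc hc _ hE
    unfold Exc at hE
    omega

lemma sum_min_three (i : ℕ) :
    ∀ L : ℕ, ∑ k ∈ range (i + L + 3), min 3 (k - i) * 1 = 3 * L + 3 := by
  intro L
  induction L with
  | zero =>
    rw [Finset.sum_range_succ, Finset.sum_range_succ]
    have h1 : ∑ k ∈ range (i + 0 + 1), min 3 (k - i) * 1 = 0 := by
      refine Finset.sum_eq_zero fun k hk => ?_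
      rw [mem_range] at hk
      omega
    rw [h1]
    omega
  | succ L ih =>
    rw [show i + (L + 1) + 3 = (i + L + 3) + 1 by ring, Finset.sum_range_succ, ih]
    omega

/-- label at least three -/
lemma cost_three {h : Q → ℕ} {z : Q} (hz : lev z = J + 1) (hiJ : i + 3 ≤ J) (h3 : 3 ≤ h z) :
    2 * (J - i) + 3 ≤ cst i h z := by
  have h4 := cst_ge (h := h) (z := z) (i := i) (fun _ => 1) (fun k _ hk => one_le_nab hk)
  refine le_trans ?_ h4
  obtain ⟨L, hL⟩ : ∃ L, J = i + L + 1 := ⟨J - i - 1, by omega⟩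
  rw [hz, hL, show i + L + 1 + 1 + 1 = i + L + 3 by ring]
  have h5 := sum_min_three i L
  have h6 : ∑ k ∈ range (i + L + 3), min 3 (k - i) * 1 ≤
      ∑ k ∈ range (i + L + 3), min (h z) (k - i) * 1 := by
    refine Finset.sum_le_sum fun k _ => ?_
    have : min 3 (k - i) ≤ min (h z) (k - i) := min_le_min_right _ h3
    omega
  omega

/-- label at least two, two elements on the levels between -/
lemma cost_two2 {h : Q → ℕ} {z : Q} (hz : lev z = J + 1) (hiJ : i + 3 ≤ J) (h2 : 2 ≤ h z)
    (hn : ∀ k, i < k → k < J → 2 ≤ nab k z) : 2 * (J - i) + 3 ≤ cst i h z := by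
  have h4 := cst_ge (h := h) (z := z) (i := i) (fun k => if k < J then 2 else 1) (by
    intro k hk hk2
    split_ifs with hc
    · exact hn k hk hc
    · exact one_le_nab hk2)
  refine le_trans ?_ h4
  obtain ⟨L, hL⟩ : ∃ L, J = i + L + 2 := ⟨J - i - 2, by omega⟩
  rw [hz, Finset.sum_range_succ, Finset.sum_range_succ, if_neg (lt_irrefl _),
    if_neg (show ¬ J + 1 < J by omega)]
  have h5' : 2 * ∑ k ∈ range J, min 2 (k - i) * 1 ≤
      ∑ k ∈ range J, min (h z) (k - i) * (if k < J then 2 else 1) := by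
    rw [Finset.mul_sum]
    refine Finset.sum_le_sum fun k hk => ?_
    rw [mem_range] at hk
    rw [if_pos hk]
    have : min 2 (k - i) ≤ min (h z) (k - i) := min_le_min_right _ h2
    omega
  have h6 := sum_min_two i L
  rw [← hL] at h6
  rw [h6] at h5'
  have h7 : 2 ≤ min (h z) (J - i) := le_min h2 (by omega)
  have h8 : 2 ≤ min (h z) (J + 1 - i) := le_min h2 (by omega)
  omega

/-- RECTANGLES: labels at least two are expensive -/
lemma cost_label_rect (H : Tru t (fun _ => True) co i J p q) {z : Q} (hz : z ∈ bdR (hiN Q J))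
    (h2 : 2 ≤ hcan (hiN Q J) (thJ J p q co) z) :
    2 * (J - i) + 3 ≤ cst i (hcan (hiN Q J) (thJ J p q co)) z := by
  classical
  have hiJ := H.hiJ
  have hp := H.hp
  have hq := H.hq
  have hl := bd_lev' H hz
  rcases Nat.lt_or_ge (hcan (hiN Q J) (thJ J p q co) z) 3 with h3 | h3
  swap
  · exact cost_three hl hiJ h3
  obtain ⟨x, hxR, hzx, hx⟩ := hcan_spec (θ := thJ J p q co) hz
  have h0 : lev x ≤ J := by
    rw [mem_hiN] at hxR
    omega
  have hxJ : lev x = J := (bd_lev H.graded (by omega) h0 hzx).2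
  have hsc := H.chart.lev x (mem_loN.2 h0)
  rw [thJ_lo h0] at hx
  have h4 : thE p q co x = 1 := by omega
  unfold thE at h4
  have h5 : ((co x).1 = i + 1 ∧ (co x).2 ≤ i) ∨ ((co x).2 = i + 1 ∧ (co x).1 ≤ i) := by
    rcases H.pcl with h6 | h6
    · rcases H.qcl with h7 | h7
      · omega
      · have := h7 x h0
        omega
    · have := h6 x h0
      rcases H.qcl with h7 | h7
      · omega
      · have := h7 x h0
        omega
  refine cost_two2 hl hiJ h2 fun k hk hkJ => ?_
  refine le_trans ?_ (nab_mono hzx.le)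
  rcases h5 with h5 | h5
  · exact nab_two H h0 (a := k - (co x).2) (b := (co x).2) (a' := k - (co x).2 + 1)
      (b' := (co x).2 - 1) (by omega) (by omega) (by omega) (by omega) (by omega) (by omega)
      (by omega) trivial trivial
  · exact nab_two H h0 (a := (co x).1) (b := k - (co x).1) (a' := (co x).1 - 1)
      (b' := k - (co x).1 + 1) (by omega) (by omega) (by omega) (by omega) (by omega) (by omega)
      (by omega) trivial trivial

/-- STAIRCASES: labels at least two are expensive -/
lemma cost_label_stair (H : Tru t (fun c => c.1 ≤ c.2) co i J (i + 1) q) {z : Q}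
    (hz : z ∈ bdR (hiN Q J)) (h2 : 2 ≤ hS co i J q z) :
    2 * (J - i) + 3 ≤ cst i (hS co i J q) z := by
  classical
  have hiJ := H.hiJ
  have hq := H.hq
  have hl := bd_lev' H hz
  rcases Nat.lt_or_ge (hS co i J q z) 3 with h3 | h3
  swap
  · exact cost_three hl hiJ h3
  obtain ⟨x, hxR, hzx, hx⟩ := hcan_spec (θ := thJ J (i + 1) q co) hz
  have h0 : lev x ≤ J := by
    rw [mem_hiN] at hxR
    omega
  have hxJ : lev x = J := (bd_lev H.graded (by omega) h0 hzx).2
  have hsc := H.chart.lev x (mem_loN.2 h0)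
  have hge : (co x).1 ≤ (co x).2 := H.chart.mem x (mem_loN.2 h0)
  change hcan (hiN Q J) (thJ J (i + 1) q co) z < 3 at h3
  change 2 ≤ hcan (hiN Q J) (thJ J (i + 1) q co) z at h2
  rw [thJ_lo h0] at hx
  have h4 : thE (i + 1) q co x = 1 := by omega
  unfold thE at h4
  have h5 : (co x).2 = i + 1 ∧ (co x).1 ≤ i := by
    rcases H.qcl with h7 | h7
    · omega
    · have := h7 x h0
      omega
  refine cost_two2 hl hiJ h2 fun k hk hkJ => ?_
  refine le_trans ?_ (nab_mono hzx.le)
  rcases Nat.lt_or_ge (k - (co x).1) (co x).1 with h6 | h6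
  · exact nab_two H h0 (a := k / 2) (b := k - k / 2) (a' := k / 2 - 1)
      (b' := k - k / 2 + 1) (by omega) (by omega) (by omega) (by omega) (by omega) (by omega)
      (by omega) (by simp only; omega) (by simp only; omega)
  · exact nab_two H h0 (a := (co x).1) (b := k - (co x).1) (a' := (co x).1 - 1)
      (b' := k - (co x).1 + 1) (by omega) (by omega) (by omega) (by omega) (by omega) (by omega)
      (by omega) (by simp only; omega) (by simp only; omega)

/-- no pendant below the fold end -/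
def NoFold (co : Q → ℕ × ℕ) (J : ℕ) : Prop :=
  ∀ z x : Q, lev z = J + 1 → z ⋖ x → (co x).1 = (co x).2 → (co x).1 + (co x).2 = J →
    ∃ x', z ⋖ x' ∧ x' ≠ x

/-- RECTANGLES, distance at least five -/
theorem rect_clean5 (H : Tru t (fun _ => True) co i J p q) (hr : i + 2 ≤ p + q)
    (h5 : i + 5 ≤ J) {n : ℕ} (hn : n ≤ 2 * (J - i) + 2) :
    (1 + X : ℤ[X]) ^ (p + q - 1 - i) ∣ Z Q i n := by
  classical
  refine (H.farT (cln_rect2 H hr le_rfl)).dvd_of_lt (by omega) fun z hz => ?_
  have hl := bd_lev' H hz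
  rcases Nat.lt_or_ge (hcan (hiN Q J) (thJ J p q co) z) 2 with h2 | h2
  · have h1 : hcan (hiN Q J) (thJ J p q co) z = 1 := by
      obtain ⟨x, -, -, hx⟩ := hcan_spec (θ := thJ J p q co) hz
      omega
    obtain ⟨x, hzx, hxl, -, hs, hc, hsc⟩ := free_cover H hz h1
    have hp := H.hp
    have hq := H.hq
    have h3 := (cost_one (i := i) hl (by omega) h1 gR (by
      intro m hm
      refine le_trans ?_ (nab_mono hzx.le)
      unfold gR
      split_ifs with e1 e2
      · exact one_le_nab (by omega)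
      · exact nab_two H (by omega) (a := (co x).1 - 1) (b := (co x).2) (a' := (co x).1)
          (b' := (co x).2 - 1) (by omega) (by omega) (by omega) (by omega) (by omega) (by omega)
          (by omega) trivial trivial
      · exact nab_three H (by omega) (a := (co x).1 - 2) (b := (co x).2 - (m - 2)) (by omega)
          (by omega) (by omega) (by omega) trivial trivial trivial)).1
    obtain ⟨L, hL⟩ : ∃ L, J - i = L + 2 := ⟨J - i - 2, by omega⟩
    rw [hL, sum_gR] at h3
    omega
  · have := cost_label_rect H hz h2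
    omega

/-- improved bounds for a double with the fold end -/
def gU (m : ℕ) : ℕ := if m < 4 then 2 else 3

lemma sum_gU : ∀ L : ℕ, ∑ m ∈ range (L + 4), gU m = 3 * L + 8 := by
  intro L
  induction L with
  | zero => decide
  | succ L ih =>
    rw [show L + 1 + 4 = (L + 4) + 1 by ring, Finset.sum_range_succ, ih]
    unfold gU
    rw [if_neg (by omega)]
    ring

/-- two elements above a double with the fold end -/
lemma fold_double (H : Tru t (fun c => c.1 ≤ c.2) co i J (i + 1) q) {z x x' : Q}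
    (hzl : lev z = J + 1) (hzx : z ⋖ x) (hzx' : z ⋖ x') (hne : x' ≠ x)
    (hsc : (co x).1 + (co x).2 = J) (hf : (co x).1 = (co x).2) (hi : 2 ≤ (co x).1) :
    2 ≤ nab J z ∧ 2 ≤ nab (J - 1) z := by
  classical
  have hiJ := H.hiJ
  have hxl : lev x = J := by
    have := H.graded.lev_covBy hzx
    omega
  have hxl' : lev x' = J := by
    have := H.graded.lev_covBy hzx'
    omega
  refine ⟨two_le_nab hzx'.le hzx.le hxl' hxl hne, ?_⟩
  have hge' : (co x').1 ≤ (co x').2 := H.chart.mem x' (mem_loN.2 hxl'.le)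
  have hsc' := H.chart.lev x' (mem_loN.2 hxl'.le)
  have hco : (co x').1 ≠ (co x).1 := by
    intro h
    exact hne (H.chart.inj x' (mem_loN.2 hxl'.le) x (mem_loN.2 hxl.le)
      (Prod.ext h (by omega)))
  -- the element above `x`
  obtain ⟨y, hy, hcy⟩ := H.chart.low x (mem_loN.2 hxl.le) ((co x).1 - 1, (co x).2)
    ⟨Nat.sub_le _ _, le_rfl⟩ (by simp only; omega)
  have hyx : x ≤ y := (H.chart.le_iff x (mem_loN.2 hxl.le) y hy).2 (by
    rw [hcy]; exact ⟨Nat.sub_le _ _, le_rfl⟩)
  have hyl : lev y = J - 1 := by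
    have := H.chart.lev y hy
    rw [hcy] at this
    simp only at this
    omega
  -- an element above `x'`
  by_cases hc : (co x').1 + 1 = (co x).1
  · obtain ⟨y', hy', hcy'⟩ := H.chart.low x' (mem_loN.2 hxl'.le) ((co x').1 - 1, (co x').2)
      ⟨Nat.sub_le _ _, le_rfl⟩ (by simp only; omega)
    have hyx' : x' ≤ y' := (H.chart.le_iff x' (mem_loN.2 hxl'.le) y' hy').2 (by
      rw [hcy']; exact ⟨Nat.sub_le _ _, le_rfl⟩)
    have hyl' : lev y' = J - 1 := by
      have := H.chart.lev y' hy'
      rw [hcy'] at this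
      simp only at this
      omega
    refine two_le_nab (hzx'.le.trans hyx') (hzx.le.trans hyx) hyl' hyl ?_
    intro h
    have h1 := congrArg Prod.fst (congrArg co h)
    rw [hcy, hcy'] at h1
    simp only at h1
    omega
  · obtain ⟨y', hy', hcy'⟩ := H.chart.low x' (mem_loN.2 hxl'.le) ((co x').1, (co x').2 - 1)
      ⟨le_rfl, Nat.sub_le _ _⟩ (by simp only; omega)
    have hyx' : x' ≤ y' := (H.chart.le_iff x' (mem_loN.2 hxl'.le) y' hy').2 (by
      rw [hcy']; exact ⟨le_rfl, Nat.sub_le _ _⟩)
    have hyl' : lev y' = J - 1 := by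
      have := H.chart.lev y' hy'
      rw [hcy'] at this
      simp only at this
      omega
    refine two_le_nab (hzx'.le.trans hyx') (hzx.le.trans hyx) hyl' hyl ?_
    intro h
    have h1 := congrArg Prod.fst (congrArg co h)
    rw [hcy, hcy'] at h1
    simp only at h1
    omega

/-- STAIRCASES, distance at least six -/
theorem stair_clean6 (H : Tru t (fun c => c.1 ≤ c.2) co i J (i + 1) q) (hr : i + 2 ≤ 2 * q)
    (h6 : i + 6 ≤ J) (hN : NoFold co J) {n : ℕ} (hn : n ≤ 2 * (J - i) + 2) :
    (1 + X : ℤ[X]) ^ (i / 2 + q - i) ∣ Z Q i n := by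
  classical
  refine (H.farT (cln_stair2 H hr le_rfl (Or.inl h6))).dvd_of_lt (by omega) fun z hz => ?_
  have hl := bd_lev' H hz
  rcases Nat.lt_or_ge (hS co i J q z) 2 with h2 | h2
  swap
  · have h3 := cost_label_stair H hz h2
    change n < cst i (hS co i J q) z
    omega
  have h1 : hS co i J q z = 1 := by
    obtain ⟨x, -, -, hx⟩ := hcan_spec (θ := thJ J (i + 1) q co) hz
    change hcan (hiN Q J) (thJ J (i + 1) q co) z < 2 at h2
    change hcan (hiN Q J) (thJ J (i + 1) q co) z = 1
    omega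
  change n < cst i (hS co i J q) z
  obtain ⟨x, hzx, hxl, hsc, hc, h | h | h⟩ := stair_cost_one H hz h1
  · obtain ⟨L, hL⟩ : ∃ L, J - i = L + 2 := ⟨J - i - 2, by omega⟩
    rw [hL, sum_gR] at h
    omega
  · obtain ⟨L, hL⟩ : ∃ L, J - i = L + 3 := ⟨J - i - 3, by omega⟩
    rw [hL, sum_gS] at h
    omega
  · obtain ⟨x', hzx', hne⟩ := hN z x hl hzx h.1.symm hsc
    obtain ⟨n1, n2⟩ := fold_double H hl hzx hzx' hne hsc h.1.symm (by omega)
    have hq := H.hq
    have h3 := (cost_one (i := i) hl (by omega) h1 gU (by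
      intro m hm
      unfold gU
      rcases Nat.lt_or_ge m 2 with h4 | h4
      · rw [if_pos (by omega)]
        obtain rfl | rfl : m = 0 ∨ m = 1 := by omega
        · exact n1
        · exact n2
      · refine le_trans ?_ (nab_mono hzx.le)
        split_ifs with e2
        · exact nab_two H (by omega) (a := (co x).1 - m) (b := (co x).2) (a' := (co x).1 - m + 1)
            (b' := (co x).2 - 1) (by omega) (by omega) (by omega) (by omega) (by omega) (by omega)
            (by omega) (by simp only; omega) (by simp only; omega)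
        · exact nab_three H (by omega) (a := (co x).1 - m) (b := (co x).2) (by omega)
            (by omega) (by omega) (by omega) (by simp only; omega) (by simp only; omega)
            (by simp only; omega))).1
    obtain ⟨L, hL⟩ : ∃ L, J - i = L + 4 := ⟨J - i - 4, by omega⟩
    rw [hL, sum_gU] at h3
    omega

end Pool.Agent.GaussPoset.Nl
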