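import Pool.Agent.W_448nl_h15.NlB
import Pool.Agent.W_448wd_h84.WdO

/-!
# MP_448cb3_co, case B: early components at the windows `i ≤ j - 6`, energies up to `2 (j - i) + 2`
-/

namespace Pool.Agent.GaussPoset.Nl

set_option linter.unusedSectionVars false

open Finset Win Cp Wd

universe u

variable {P : Type u} [Fintype P] [PartialOrder P] [DecidableEq P] {r i j J n : ℕ} {S : Finset P}
variable {t : Tops P} {lo hi : ℕ → ℕ} {e : ℕ → ℕ → P}

/-- no pendant below the fold end of a staircase of even level -/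
def FoldOK (J : ℕ) (lo hi : ℕ → ℕ) (e : ℕ → ℕ → P) : Prop :=
  2 * (J / 2) = J → (StairShape J lo hi → pen (e J (hi J)) = ∅) ∧
    (StairShape J (fun k => k - hi k) (fun k => k - lo k) → pen (e J (lo J)) = ∅)

lemma noFold_of (E : Ext P i J (t : P) S) (H : Gr P r) (C : Cp.Comp J (t : P) lo hi e)
    (R : StairShape J lo hi) (hiJ : i ≤ J) (hJr : J + 1 ≤ r)
    (hF : 2 * (J / 2) = J → pen (e J (hi J)) = ∅) :
    NoFold (fun x : PQ S => ccoord lo hi e (x : P)) J := by
  classical
  intro z x hz hzx hf hs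
  simp only at hf hs
  have hzxP : (z : P) ⋖ (x : P) := (cov_PQ E.part).1 hzx
  have hlz : lev (z : P) = J + 1 := by rw [← lev_PQ E.part]; exact hz
  have hlx : lev (x : P) = J := by
    have := lev_cov H hzxP
    omega
  have hxt : (x : P) ≤ t := (E.mem x (by omega)).1 x.2
  obtain ⟨h1, h2, h3⟩ := scoord_spec C hxt (by omega)
  have h4 : (ccoord lo hi e (x : P)).1 = scoord lo hi e (x : P) := rfl
  have hR := R.hi J le_rfl
  rw [hlx] at h1 h2 h3
  have h5 : scoord lo hi e (x : P) = hi J := by omega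
  have h6 := hF (by omega)
  rw [h5] at h3
  have h7 : (Win.uc (z : P)).card ≠ 1 := by
    intro h8
    have h9 : (z : P) ∈ pen (e J (hi J)) := mem_pen.2 ⟨by rw [h3]; exact hzxP, h8⟩
    rw [h6] at h9
    exact absurd h9 (notMem_empty _)
  have h8 : (Win.uc (z : P)).card = 2 := by
    rcases uc_card_cases H (x := (z : P)) (by omega) with h9 | h9
    · exact absurd h9 h7
    · exact h9
  obtain ⟨v, hv, hne⟩ := exists_other_uc (y := (x : P)) h8
  refine ⟨⟨v, part_up E.part z.2 hv.le⟩, (cov_PQ E.part).2 hv, ?_⟩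
  intro h9
  exact hne (congrArg Subtype.val h9)

/-- EARLY COMPONENTS, distance at least six -/
theorem ec_far6 (E : Ext P i J (t : P) S) (H : Gr P r) (hJr : J + 1 ≤ r)
    (hg : ∀ l, l < J → Win.Good P l) (C : Cp.Comp J (t : P) lo hi e) (R : Early J lo hi)
    (hF : FoldOK J lo hi e) (h6 : i + 6 ≤ J) {n : ℕ} (hn : n ≤ 2 * (J - i) + 2) :
    dd ^ (st i S).card ∣ ZC i S n := by
  have key : ∀ {lo hi : ℕ → ℕ} {e : ℕ → ℕ → P}, Cp.Comp J (t : P) lo hi e → StairShape J lo hi →
      (2 * (J / 2) = J → pen (e J (hi J)) = ∅) → dd ^ (st i S).card ∣ ZC i S n := by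
    intro lo hi e C R hF
    have h1 := R.hi i (by omega)
    have h2 := C.lo_le i (by omega)
    refine dvd_ZC_of H (by omega) E.part ?_
    have h4 := stair_clean6 (tru_stair E H hg C R (by omega)) (by omega) h6
      (noFold_of E H C R (by omega) hJr hF) hn
    rw [card_st_ext E C (by omega)]
    rwa [show i / 2 + (i - lo i + 1) - i = hi i + 1 - lo i by omega] at h4
  rcases R with R | R | R
  · have h1 := C.hi_le (k := i) (by omega)
    have h2 := C.lo_le i (by omega)
    refine dvd_ZC_of H (by omega) E.part ?_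
    have h4 := rect_clean5 (tru_rect E H hg C R (by omega)) (by omega) (by omega) hn
    rw [card_st_ext E C (by omega)]
    rwa [show hi i + 1 + (i - lo i + 1) - 1 - i = hi i + 1 - lo i by omega] at h4
  · exact key C R (fun h => (hF h).1 R)
  · have h3 := (comp_swap C)
    refine key h3 R (fun h => ?_)
    have h4 := (hF h).2 R
    have h5 := C.lo_le J le_rfl
    have h6 := C.hi_le (k := J) le_rfl
    rwa [show J - (J - lo J) = lo J by omega]

/-- the fold end in case B -/
lemma NJ.fold_aux (h : NJ P r j) (C : Cp.Comp j (t : P) lo hi e) (R : StairShape j lo hi)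
    (hj : 6 ≤ j) (hev : 2 * (j / 2) = j) : pen (e j (hi j)) = ∅ := by
  obtain ⟨i, rfl⟩ : ∃ i, j = i + 2 := ⟨j - 2, by omega⟩
  have e0 := R.hi i (by omega)
  have e1 := R.hi (i + 1) (by omega)
  have e2 := R.hi (i + 2) (by omega)
  have e3 := R.hi (i - 2) (by omega)
  have e4 := R.hi (i - 3) (by omega)
  have e5 := R.hi (i - 1) (by omega)
  have l0 := R.lo i (by omega)
  have l1 := R.lo (i + 1) (by omega)
  have l2 := C.lo_step (i - 2) (by omega)
  have l3 := R.lo (i - 2) (by omega)
  have l4 := R.lo (i - 1) (by omega)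
  have l5 := C.lo_step (i - 1) (by omega)
  have l6 := C.lo_step i (by omega)
  have l7 := C.lo_step (i + 1) (by omega)
  have l8 := C.lo_le (i + 2) (by omega)
  have l9 := C.lo_le i (by omega)
  rw [show i - 2 + 1 = i - 1 by omega] at l2 l3
  rw [show i - 1 + 1 = i by omega] at l4 l5
  rw [show i + 1 + 1 = i + 2 by omega] at l1 l7
  have hpd : Wd.pdR lo hi i := by
    unfold Wd.pdR
    omega
  have hfu : Wd.fuw lo hi i = 0 := by
    unfold Wd.fuw
    rw [if_neg, if_neg]
    · rintro ⟨-, h1, -⟩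
      omega
    · rintro ⟨-, h1, h2 | ⟨-, h2⟩⟩
      · unfold Wd.puL at h2
        omega
      · omega
  have hl := (h.law (i := i) (by omega) le_rfl C).1
  rw [hfu, card_eq_zero] at hl
  have h3 := (NJ.FL_eq h (i := i) le_rfl C).2.1 hpd
  rw [hl] at h3
  exact subset_empty.1 h3

/-- the fold ends in case B -/
theorem NJ.foldOK (h : NJ P r j) (C : Cp.Comp j (t : P) lo hi e) (hj : 6 ≤ j) :
    FoldOK j lo hi e := by
  intro hev
  refine ⟨fun R => NJ.fold_aux h C R hj hev, fun R => ?_⟩
  have h1 := NJ.fold_aux h (comp_swap C) R hj hev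
  have h5 := C.lo_le j le_rfl
  have h6 := C.hi_le (k := j) le_rfl
  rwa [show j - (j - lo j) = lo j by omega] at h1

/-- CASE B, EARLY COMPONENTS, energies at least seven -/
theorem NJ.early6 (h : NJ P r j) (C : Cp.Comp j (t : P) lo hi e) (R : Early j lo hi)
    (h6 : i + 6 ≤ j) {n : ℕ} (hn : n ≤ 2 * (j - i) + 2) :
    dd ^ (st i (SS i t)).card ∣ ZC i (SS i t) n :=
  ec_far6 (SS_ext h.g (by omega) t) h.g.H h.hr h.g.good C R (NJ.foldOK h C (by omega)) h6 hn

end Pool.Agent.GaussPoset.Nl
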