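import Pool.Agent.W_448nl_h15.NlC


import Pool.Agent.W_448wd_h84.WdI
import Pool.Agent.W_448so_h63.EB

/-!
# MP_448cb3_co, case B: one stage of the individual identities at the last level, energy at least seven
-/

namespace Pool.Agent.GaussPoset.Nl

set_option linter.unusedSectionVars false

open Finset Win Cp Wd Win.I2

universe u

variable {P : Type u} [Fintype P] [PartialOrder P] [DecidableEq P] {r i j a n : ℕ}
variable {t : Tops P} {lo hi : ℕ → ℕ} {e : ℕ → ℕ → P}

/-- one stage, case B -/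
theorem NJ.stage (h : NJ P r j) (hn1 : 1 ≤ n) (hin : i + n = j + 1)
    (hp : ∀ t : Tops P, Prof n (2 * n) (st i (SS i t)).card (ZS i (SS i t)))
    (hneg : ∀ t : Tops P, be (2 * n) (st i (SS i t)).card (ZS i (SS i t)) ≤ 0) : Wd.Cln P i n := by
  have hr := h.hr
  intro t
  have h1 := individual (univ.image (topOf : P → Tops P)) hn1 (bb i (j + 1) topOf)
    (VV i (j + 1) topOf)
    (fun c _ => by rw [h.bb_eq (by omega), h.VV_eq (by omega)]; exact hp c)
    (fun c _ => eps_sq h.g.H (by omega) c)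
    (tot_dvd h.g.H (by omega) (by omega) h.split (by omega))
    (tot_dvd h.g.H (by omega) (by omega) h.split (by omega))
    (fun c _ => by
      rw [eps_VV h.g.H (by omega), one_mul, h.bb_eq (by omega), h.VV_eq (by omega)]
      exact hneg c) t (mem_tops t)
  rw [h.bb_eq (by omega), h.VV_eq (by omega), coeff_ZS] at h1
  exact h1

/-- clean profiles -/
lemma prof_of_all {S : Finset P} (h : ∀ m, m ≤ 2 * n → dd ^ (st i S).card ∣ ZC i S m) :
    Prof n (2 * n) (st i S).card (ZS i S) ∧ be (2 * n) (st i S).card (ZS i S) = 0 := by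
  have h2 : ∀ m, m ≤ 2 * n → dd ^ (st i S).card ∣ dd * PowerSeries.coeff m (ZS i S) := by
    intro m hm
    rw [coeff_ZS]
    exact Dvd.dvd.mul_left (h m hm) _
  refine ⟨⟨?_, fun m hm => h2 m hm.le, ?_⟩, be_of_mid (h2 _ le_rfl)⟩
  · intro m hm
    rw [coeff_ZS]
    exact h m (by omega)
  · rw [pow_two, mul_assoc]
    exact Dvd.dvd.mul_left (h2 _ le_rfl) _

section late

def B7 (a : ℕ) : Prop := ∀ w ∈ lateW a, ∀ m, m < 7 → m + 6 ≤ w.length →
  Hw w (m + 3) ≤ Lw w (m + 3) + 1 ∨ (a = 4 ∧ m = 4 ∧ 10 ≤ w.length ∧ w = E7.take w.length)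

instance (a : ℕ) : Decidable (B7 a) := by unfold B7; infer_instance

lemma B7_3 : B7 3 := by decide +kernel
lemma B7_4 : B7 4 := by decide +kernel
lemma B7_5 : B7 5 := by decide +kernel
lemma B7_6 : B7 6 := by decide +kernel
lemma B7_8 : B7 8 := by decide +kernel

/-- late components at the windows `i ≤ j - 6`: at most two sites, or `E7` -/
lemma late_b7 (C : Cp.Comp j (t : P) lo hi e) (D : LateD j a lo hi) (hn : 7 ≤ n)
    (hin : i + n = j + 1) : hi i ≤ lo i + 1 ∨
      (a = 4 ∧ i = 8 ∧ 14 ≤ j ∧ word lo hi 4 (j - 4) = E7.take (j - 4)) := by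
  rcases Nat.lt_or_ge i a with h1 | h1
  · left
    have := D.h2 i h1
    omega
  obtain ⟨m, rfl⟩ : ∃ m, i = a + m := ⟨i - a, by omega⟩
  have h3 := D.h0
  obtain ⟨e1, e2⟩ := Lw_of_trunk C D.h0 D.h1 D.h2 D.h3 (m + 3) (by omega)
  rw [show a - 3 + (m + 3) = a + m by omega] at e1 e2
  rcases D.h4 with ⟨h4, h5⟩ | h4
  · left
    rcases Nat.eq_zero_or_pos m with rfl | h6
    · have := D.h3
      rw [Nat.add_zero]
      omega
    · have := D.quad C h5 m h6 (by omega)
      omega
  · have key : B7 a → hi (a + m) ≤ lo (a + m) + 1 ∨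
      (a = 4 ∧ a + m = 8 ∧ 14 ≤ j ∧ word lo hi 4 (j - 4) = E7.take (j - 4)) := by
      intro hB
      have hl : (word lo hi a (j - a)).length = j - a := by
        unfold word
        rw [List.length_map, List.length_range]
      have hlen := late_len_all h4
      rw [hl] at hlen
      rcases hB _ h4 m (by omega) (by rw [hl]; omega) with h6 | ⟨rfl, rfl, h7, h8⟩
      · left
        omega
      · right
        rw [hl] at h7 h8
        exact ⟨rfl, rfl, by omega, h8⟩
    rcases Nat.lt_or_ge a 7 with h6 | h6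
    · obtain rfl | rfl | rfl | rfl : a = 3 ∨ a = 4 ∨ a = 5 ∨ a = 6 := by omega
      · exact key B7_3
      · exact key B7_4
      · exact key B7_5
      · exact key B7_6
    · have hB : B7 a := by
        intro w hw m hm hm2
        rw [lateW_large h6] at hw
        rcases B7_8 w hw m hm hm2 with h7 | ⟨h7, -⟩
        · exact Or.inl h7
        · exact absurd h7 (by omega)
      exact key hB

end late

end Pool.Agent.GaussPoset.Nl
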