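import Pool.Agent.W_448ev_h24.JkC
import Pool.Agent.W_448e7_h24.EsB

/-!
# MP_448cb3_co: the evaluator of helper61 / helper24 for one component

The statements of `EvG`, `EvH`, `JkC`, `EsB` with `GoodTo P r j` replaced by what they use of it: `Gr P r`,
`j ≤ r`, and every upper cover of an element of level `≤ j` of the component is in the component.
-/

namespace Pool.Agent.GaussPoset.Win.Ev

set_option linter.unusedSectionVars false

open Finset

universe u

variable {P : Type u} [Fintype P] [PartialOrder P] [DecidableEq P] {r i j : ℕ}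
variable {C : Finset P} {t : P} {lo hi : ℕ → ℕ} {x : ℕ → ℕ → P}

/-- everything the evaluator needs to know about the component -/
structure LocN (P : Type u) [Fintype P] [PartialOrder P] [DecidableEq P] (r j : ℕ) (t : P)
    (lo hi : ℕ → ℕ) (x : ℕ → ℕ → P) (C : Finset P) (i base c0 R s : ℕ) (los his : List ℕ) : Prop where
  H : Gr P r
  hr : j ≤ r
  hcl : ∀ z y : P, lev z ≤ j → z ≤ t → z ⋖ y → y ≤ t
  hc : Comp P t j lo hi x
  part : Part i C
  mem : ∀ z, lev z < base + R → (z ∈ C ↔ z ≤ t)
  rows : Rows lo hi base c0 R los his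
  hi' : i = base + s
  hs : s < R
  hj : base + R ≤ j + 1

section loc

variable {base c0 R s : ℕ} {los his : List ℕ}

theorem LocN.hir (Lc : LocN P r j t lo hi x C i base c0 R s los his) : i ≤ r := by
  have := Lc.hr
  have := Lc.hi'
  have := Lc.hs
  have := Lc.hj
  omega

lemma LocN.pt_spec (Lc : LocN P r j t lo hi x C i base c0 R s los his) {c : ℕ}
    (h : inR los his R (c / 32) (c % 32) = true) :
    lev (ptc x base c0 c) = base + c / 32 ∧ ptc x base c0 c ≤ t ∧
      lo (base + c / 32) ≤ c0 + c % 32 ∧ c0 + c % 32 ≤ hi (base + c / 32) ∧ c / 32 < R := by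
  rw [inR_iff] at h
  obtain ⟨h1, h2, h3⟩ := h
  have e1 := Lc.rows.lo_eq _ h1
  have e2 := Lc.rows.hi_eq _ h1
  have hj := Lc.hj
  have h4 : lo (base + c / 32) ≤ c0 + c % 32 := by omega
  have h5 : c0 + c % 32 ≤ hi (base + c / 32) := by omega
  exact ⟨Lc.hc.lev_x _ (by omega) _ h4 h5, Lc.hc.le_t _ (by omega) _ h4 h5, h4, h5, h1⟩

/-- the chart of a component -/
theorem LocN.chart (Lc : LocN P r j t lo hi x C i base c0 R s los his) {p : Prog}
    (hok : okP los his R s p = true) :
    Chart i C (SR t base R) (ptc x base c0) (asgs p).toFinset := by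
  classical
  unfold okP at hok
  simp only [Bool.and_eq_true] at hok
  obtain ⟨⟨⟨⟨⟨⟨⟨o1, o2⟩, o3⟩, o4⟩, o5⟩, o6⟩, o7⟩, o8⟩ := hok
  have hin : ∀ c ∈ (asgs p).toFinset, inR los his R (c / 32) (c % 32) = true := by
    intro c hc
    exact List.all_eq_true.1 o5 c (List.mem_toFinset.1 hc)
  have hj := Lc.hj
  have hi' := Lc.hi'
  have hs := Lc.hs
  refine ⟨?_, ?_, ?_, ?_, ?_, ?_, ?_⟩
  · intro z hz
    rw [mem_SR] at hz
    exact (Lc.mem z hz.2.2).2 hz.1
  · intro z hz
    rw [mem_st] at hz
    rw [mem_SR]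
    exact ⟨(Lc.mem z (by omega)).1 hz.1, by omega, by omega⟩
  · intro z hz hiz y hy
    rw [mem_SR] at hz ⊢
    have hl := (Lc.H.covBy_iff.1 hy).2
    refine ⟨Lc.hcl _ _ (by omega) hz.1 hy, by omega, by omega⟩
  · intro z hz hiz y hy
    rw [mem_SR] at hz ⊢
    have hl := (Lc.H.covBy_iff.1 hy).2
    exact ⟨hy.le.trans hz.1, by omega, by omega⟩
  · intro c hc
    obtain ⟨h1, h2, h3, h4, h5⟩ := Lc.pt_spec (hin c hc)
    rw [mem_SR]
    exact ⟨h2, by omega, by omega⟩
  · intro c hc d hd hcd
    obtain ⟨h1, h2, h3, h4, h5⟩ := Lc.pt_spec (hin c hc)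
    obtain ⟨g1, g2, g3, g4, g5⟩ := Lc.pt_spec (hin d hd)
    have e1 : c / 32 = d / 32 := by
      rw [hcd] at h1
      omega
    unfold ptc at hcd
    rw [← e1] at g3 g4 hcd
    have := Lc.hc.inj' (by omega) h3 h4 g3 g4 hcd
    omega
  · intro z hz
    rw [mem_SR] at hz
    obtain ⟨a, h1, h2, h3⟩ := Lc.hc.surj (lev z) (by omega) z rfl hz.1
    have hk : lev z - base < R := by omega
    have e1 := Lc.rows.lo_eq _ hk
    have e2 := Lc.rows.hi_eq _ hk
    have e3 : base + (lev z - base) = lev z := by omega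
    rw [e3] at e1 e2
    have h4 : his.getD (lev z - base) 0 ≤ 30 := by
      have := List.all_eq_true.1 o7 _ (List.mem_range.2 hk)
      rwa [Nat.ble_eq] at this
    have h5 : a - c0 < 32 := by omega
    refine ⟨cd (lev z - base) (a - c0), ?_, ?_⟩
    · rw [List.mem_toFinset]
      have h6 := List.all_eq_true.1 o6 _ (List.mem_range.2 hk)
      exact List.contains_iff_mem.1 (List.all_eq_true.1 h6 _ (mem_rowN.2 ⟨by omega, by omega⟩))
    · unfold ptc
      rw [cd_div h5, cd_mod h5, e3]
      have e4 : c0 + (a - c0) = a := by omega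
      rw [e4]
      exact h3

lemma LocN.nbD_dnN (Lc : LocN P r j t lo hi x C i base c0 R s los his) {p : Prog}
    (hok : okP los his R s p = true) {c : ℕ} (hc : inR los his R (c / 32) (c % 32) = true) :
    nbD (SR t base R) (ptc x base c0) (asgs p).toFinset c (dnN los his R (c / 32) (c % 32)) := by
  classical
  unfold okP at hok
  simp only [Bool.and_eq_true] at hok
  obtain ⟨⟨⟨⟨⟨⟨⟨o1, o2⟩, o3⟩, o4⟩, o5⟩, o6⟩, o7⟩, o8⟩ := hok
  obtain ⟨h1, h2, h3, h4, h5⟩ := Lc.pt_spec hc
  have hj := Lc.hj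
  constructor
  · intro y hy
    obtain ⟨a', rfl, ha', hin⟩ := mem_dnN.1 hy
    rw [inR_iff] at hin
    have h6 : his.getD (c / 32 + 1) 0 ≤ 30 := by
      have := List.all_eq_true.1 o7 _ (List.mem_range.2 hin.1)
      rwa [Nat.ble_eq] at this
    have h7 : a' < 32 := by omega
    have e1 := Lc.rows.lo_eq _ hin.1
    have e2 := Lc.rows.hi_eq _ hin.1
    constructor
    · rw [List.mem_toFinset]
      have h6 := List.all_eq_true.1 o6 _ (List.mem_range.2 hin.1)
      exact List.contains_iff_mem.1 (List.all_eq_true.1 h6 _ (mem_rowN.2 ⟨by omega, by omega⟩))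
    · unfold ptc
      rw [cd_div h7, cd_mod h7, ← Nat.add_assoc]
      refine (Lc.hc.cov _ (by omega) _ _ ?_ ?_ h3 h4).2 ?_
      · rw [← Nat.add_assoc] at e1; omega
      · rw [← Nat.add_assoc] at e2; omega
      · omega
  · intro z hz hzc
    rw [mem_SR] at hz
    have hl := (Lc.H.covBy_iff.1 hzc).2
    rw [h1] at hl
    have hk : c / 32 + 1 < R := by omega
    obtain ⟨a, g1, g2, g3⟩ := Lc.hc.surj (lev z) (by omega) z rfl hz.1
    have e0 : lev z = base + c / 32 + 1 := hl
    rw [e0] at g1 g2 g3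
    have e1 := Lc.rows.lo_eq _ hk
    have e2 := Lc.rows.hi_eq _ hk
    rw [← Nat.add_assoc] at e1 e2
    rw [← g3] at hzc
    unfold ptc at hzc
    have g4 := (Lc.hc.cov _ (by omega) _ _ g1 g2 h3 h4).1 hzc
    have h6 : his.getD (c / 32 + 1) 0 ≤ 30 := by
      have := List.all_eq_true.1 o7 _ (List.mem_range.2 hk)
      rwa [Nat.ble_eq] at this
    have h7 : a - c0 < 32 := by omega
    refine ⟨cd (c / 32 + 1) (a - c0), mem_dnN.2 ⟨a - c0, rfl, by omega, inR_iff.2 ⟨hk, by omega, by omega⟩⟩, ?_⟩
    unfold ptc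
    rw [cd_div h7, cd_mod h7, ← Nat.add_assoc]
    have e4 : c0 + (a - c0) = a := by omega
    rw [e4]
    exact g3

lemma LocN.nbU_upN (Lc : LocN P r j t lo hi x C i base c0 R s los his) {p : Prog}
    (hok : okP los his R s p = true) {c : ℕ} (hc : inR los his R (c / 32) (c % 32) = true) :
    nbU (SR t base R) (ptc x base c0) (asgs p).toFinset c (upN los his (c / 32) (c % 32)) := by
  classical
  unfold okP at hok
  simp only [Bool.and_eq_true] at hok
  obtain ⟨⟨⟨⟨⟨⟨⟨o1, o2⟩, o3⟩, o4⟩, o5⟩, o6⟩, o7⟩, o8⟩ := hok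
  obtain ⟨h1, h2, h3, h4, h5⟩ := Lc.pt_spec hc
  have hj := Lc.hj
  constructor
  · intro y hy
    obtain ⟨r', a', hr', rfl, ha', hlo, hhi⟩ := mem_upN.1 hy
    have hk : r' < R := by omega
    have h6 : his.getD r' 0 ≤ 30 := by
      have := List.all_eq_true.1 o7 _ (List.mem_range.2 hk)
      rwa [Nat.ble_eq] at this
    have h7 : a' < 32 := by omega
    have e1 := Lc.rows.lo_eq _ hk
    have e2 := Lc.rows.hi_eq _ hk
    constructor
    · rw [List.mem_toFinset]
      have h6 := List.all_eq_true.1 o6 _ (List.mem_range.2 hk)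
      exact List.contains_iff_mem.1 (List.all_eq_true.1 h6 _ (mem_rowN.2 ⟨by omega, by omega⟩))
    · unfold ptc
      rw [cd_div h7, cd_mod h7]
      rw [hr', ← Nat.add_assoc] at h3 h4 ⊢
      refine (Lc.hc.cov _ (by omega) _ _ h3 h4 ?_ ?_).2 ?_
      · omega
      · omega
      · omega
  · intro z hz hzc
    rw [mem_SR] at hz
    have hl := (Lc.H.covBy_iff.1 hzc).2
    rw [h1] at hl
    obtain ⟨r', hr'⟩ : ∃ r', c / 32 = r' + 1 := ⟨c / 32 - 1, by omega⟩
    have hk : r' < R := by omega
    have e0 : lev z = base + r' := by omega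
    obtain ⟨a, g1, g2, g3⟩ := Lc.hc.surj (lev z) (by omega) z rfl hz.1
    rw [e0] at g1 g2 g3
    have e1 := Lc.rows.lo_eq _ hk
    have e2 := Lc.rows.hi_eq _ hk
    rw [← g3] at hzc
    unfold ptc at hzc
    rw [hr', ← Nat.add_assoc] at h3 h4 hzc
    have g4 := (Lc.hc.cov _ (by omega) _ _ h3 h4 g1 g2).1 hzc
    have h6 : his.getD r' 0 ≤ 30 := by
      have := List.all_eq_true.1 o7 _ (List.mem_range.2 hk)
      rwa [Nat.ble_eq] at this
    have h7 : a - c0 < 32 := by omega
    refine ⟨cd r' (a - c0), mem_upN.2 ⟨r', a - c0, hr', rfl, by omega, by omega, by omega⟩, ?_⟩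
    unfold ptc
    rw [cd_div h7, cd_mod h7]
    have e4 : c0 + (a - c0) = a := by omega
    rw [e4]
    exact g3

/-- the program fits -/
theorem LocN.fits (Lc : LocN P r j t lo hi x C i base c0 R s los his) {p0 : Prog}
    (hok : okP los his R s p0 = true) : ∀ p : Prog, okS los his R s p = true →
    (∀ c ∈ chks p, c ∈ asgs p0) → fits i (SR t base R) (ptc x base c0) (asgs p0).toFinset p := by
  classical
  have hi' := Lc.hi'
  intro p
  induction p with
  | nil => intro _ _; trivial
  | asg x' lb caps p ih => intro h1 h2; exact ih h1 h2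
  | skp xs k q p _ ih => intro h1 h2; exact ih h1 h2
  | site c dl ul p ih =>
    intro h1 h2
    simp only [okS, Bool.and_eq_true] at h1
    obtain ⟨⟨⟨⟨g1, g2⟩, g3⟩, g4⟩, g5⟩ := h1
    have h3 := Lc.pt_spec g2
    have h4 := Nat.eq_of_beq_eq_true g1
    refine ⟨⟨List.mem_toFinset.2 (h2 c (by rw [chks]; simp)), by omega, ?_, ?_⟩,
      ih g5 fun d hd => h2 d (by rw [chks]; exact List.mem_cons_of_mem _ hd)⟩
    · rw [of_decide_eq_true g3]; exact Lc.nbD_dnN hok g2
    · rw [of_decide_eq_true g4]; exact Lc.nbU_upN hok g2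
  | low c dl ul p ih =>
    intro h1 h2
    simp only [okS, Bool.and_eq_true] at h1
    obtain ⟨⟨⟨⟨g1, g2⟩, g3⟩, g4⟩, g5⟩ := h1
    have h3 := Lc.pt_spec g2
    have h4 := Nat.le_of_ble_eq_true g1
    refine ⟨⟨List.mem_toFinset.2 (h2 c (by rw [chks]; simp)), by omega, ?_, ?_⟩,
      ih g5 fun d hd => h2 d (by rw [chks]; exact List.mem_cons_of_mem _ hd)⟩
    · rw [of_decide_eq_true g3]; exact Lc.nbD_dnN hok g2
    · rw [of_decide_eq_true g4]; exact Lc.nbU_upN hok g2
  | upp c dl ul p ih =>
    intro h1 h2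
    simp only [okS, Bool.and_eq_true] at h1
    obtain ⟨⟨⟨⟨g1, g2⟩, g3⟩, g4⟩, g5⟩ := h1
    have h3 := Lc.pt_spec g2
    have h4 := Nat.le_of_ble_eq_true g1
    refine ⟨⟨List.mem_toFinset.2 (h2 c (by rw [chks]; simp)), by omega, ?_, ?_⟩,
      ih g5 fun d hd => h2 d (by rw [chks]; exact List.mem_cons_of_mem _ hd)⟩
    · rw [of_decide_eq_true g3]; exact Lc.nbU_upN hok g2
    · rw [of_decide_eq_true g4]; exact Lc.nbD_dnN hok g2

/-- EVALUATION OF A COMPONENT, with lower bounds. -/
theorem LocN.eval_lb (Lc : LocN P r j t lo hi x C i base c0 R s los his) {p : Prog}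
    (hok : okP los his R s p = true) {m n : ℕ} (hm : m ≤ 2) (hn : n < 32) :
    ev m p 0 n 0 0 0 = PowerSeries.coeff m (∑ e ∈ (SR t base R).piAntidiag n,
      (by classical exact if lbs p (jM (ptc x base c0) (asgs p).toFinset e) then tC i C e else 0) : A) := by
  classical
  have hch := Lc.chart hok
  have hok0 := hok
  unfold okP at hok
  simp only [Bool.and_eq_true] at hok
  obtain ⟨⟨⟨⟨⟨⟨⟨o1, o2⟩, o3⟩, o4⟩, o5⟩, o6⟩, o7⟩, o8⟩ := hok
  have hperm : (chks p).Perm (asgs p) := of_decide_eq_true o4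
  exact ev_chart Lc.H Lc.hir Lc.part hch hm o1 o2 hn
    (Lc.fits hok0 p o3 fun c hc => hperm.subset hc) rfl hperm (of_decide_eq_true o8)

/-- EVALUATION OF A COMPONENT: the rows reach far enough, or the component ends. -/
theorem LocN.eval (Lc : LocN P r j t lo hi x C i base c0 R s los his) {p : Prog}
    (hok : okP los his R s p = true) (h0 : lb0 p = true) {m n : ℕ} (hm : m ≤ 2) (hn : n < 32)
    (htop : base = 0 ∨ n ≤ s) (hbot : s + n < R ∨ ∀ z ∈ C, lev z < base + R) :
    PowerSeries.coeff m (ZC i C n : A) = ev m p 0 n 0 0 0 := by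
  classical
  rw [Lc.eval_lb hok hm hn]
  congr 1
  unfold ZC
  have hsub : (SR t base R).piAntidiag n ⊆ C.piAntidiag n := by
    intro e he
    rw [mem_piAntidiag] at he ⊢
    have hS : SR t base R ⊆ C := (Lc.chart hok).sub
    refine ⟨?_, fun z hz => hS (he.2 z hz)⟩
    rw [← he.1]
    symm
    refine sum_subset hS fun z _ hz => ?_
    by_contra h
    exact hz (he.2 z h)
  rw [← sum_subset hsub]
  · refine Finset.sum_congr rfl fun e _ => ?_
    rw [if_pos (lbs_of_lb0 p h0)]
  · intro e he hes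
    by_contra hne
    apply hes
    rw [mem_piAntidiag] at he ⊢
    have hsum : ∑ y, e y = n := by
      rw [← he.1]
      symm
      refine sum_subset (subset_univ _) fun z _ hz => ?_
      by_contra h
      exact hz (he.2 z h)
    have hin : ∀ z, e z ≠ 0 → z ∈ SR t base R := by
      intro z hz
      have hzC := he.2 z hz
      have hi' := Lc.hi'
      have h1 : base ≤ lev z := by
        by_contra h
        rcases htop with h2 | h2
        · omega
        · exact hz (far_zero Lc.H Lc.hir hne hsum.le (Or.inr (by omega)))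
      have h2 : lev z < base + R := by
        rcases hbot with h3 | h3
        · by_contra h
          exact hz (far_zero Lc.H Lc.hir hne hsum.le (Or.inl (by omega)))
        · exact h3 z hzC
      rw [mem_SR]
      exact ⟨(Lc.mem z h2).1 hzC, h1, h2⟩
    refine ⟨?_, hin⟩
    rw [← he.1]
    refine sum_subset (Lc.chart hok).sub fun z _ hz => ?_
    by_contra h
    exact hz (hin z h)

/-- restriction of a sum to the rows -/
theorem LocN.sum_rows (Lc : LocN P r j t lo hi x C i base c0 R s los his) {n : ℕ} {D : Finset P}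
    (hDC : D ⊆ C) (hSD : SR t base R ⊆ D) (htop : base = 0 ∨ n ≤ s)
    (hbot : s + n < R ∨ ∀ z ∈ D, lev z < base + R) (Q : (P → ℕ) → Prop) :
    (∑ e ∈ D.piAntidiag n, (by classical exact if Q e then tC i C e else 0) : A) =
      ∑ e ∈ (SR t base R).piAntidiag n, (by classical exact if Q e then tC i C e else 0) := by
  classical
  have hsub : (SR t base R).piAntidiag n ⊆ D.piAntidiag n := by
    intro e he
    rw [mem_piAntidiag] at he ⊢
    refine ⟨?_, fun z hz => hSD (he.2 z hz)⟩
    rw [← he.1]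
    symm
    refine sum_subset hSD fun z _ hz => ?_
    by_contra h
    exact hz (he.2 z h)
  symm
  refine sum_subset hsub ?_
  intro e he hes
  split_ifs with hQ
  · by_contra hne
    apply hes
    rw [mem_piAntidiag] at he ⊢
    have hsum : ∑ y, e y = n := by
      rw [← he.1]
      symm
      refine sum_subset (subset_univ _) fun z _ hz => ?_
      by_contra h
      exact hz (he.2 z h)
    have hin : ∀ z, e z ≠ 0 → z ∈ SR t base R := by
      intro z hz
      have hzD := he.2 z hz
      have hi' := Lc.hi'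
      have h1 : base ≤ lev z := by
        by_contra h
        rcases htop with h2 | h2
        · omega
        · exact hz (far_zero Lc.H Lc.hir hne hsum.le (Or.inr (by omega)))
      have h2 : lev z < base + R := by
        rcases hbot with h3 | h3
        · by_contra h
          exact hz (far_zero Lc.H Lc.hir hne hsum.le (Or.inl (by omega)))
        · exact h3 z hzD
      rw [mem_SR]
      exact ⟨(Lc.mem z h2).1 (hDC hzD), h1, h2⟩
    refine ⟨?_, hin⟩
    rw [← he.1]
    refine sum_subset hSD fun z _ hz => ?_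
    by_contra h
    exact hz (hin z h)
  · rfl

lemma LocN.SR_sub_DR (Lc : LocN P r j t lo hi x C i base c0 R s los his) {J : ℕ}
    (hJ : base + R ≤ J + 1) : SR t base R ⊆ DR C J := by
  intro z hz
  rw [mem_SR] at hz
  rw [mem_DR]
  exact ⟨(Lc.mem z hz.2.2).2 hz.1, by omega⟩

/-- EVALUATION OF THE CUT COMPONENT. -/
theorem LocN.eval_cut (Lc : LocN P r j t lo hi x C i base c0 R s los his) {p : Prog}
    (hok : okP los his R s p = true) (h0 : lb0 p = true) {m n J : ℕ} (hm : m ≤ 2) (hn : n < 32)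
    (htop : base = 0 ∨ n ≤ s) (hJ : base + R = J + 1) :
    PowerSeries.coeff m (∑ e ∈ (DR C J).piAntidiag n, tC i C e : A) = ev m p 0 n 0 0 0 := by
  classical
  rw [Lc.eval_lb hok hm hn]
  congr 1
  have h1 := Lc.sum_rows (D := DR C J) (n := n) (fun z hz => (mem_DR.1 hz).1)
    (Lc.SR_sub_DR hJ.le) htop (Or.inr (fun z hz => by have := (mem_DR.1 hz).2; omega)) (fun _ => True)
  simp only [if_true] at h1
  rw [h1]
  refine Finset.sum_congr rfl fun e _ => ?_
  rw [if_pos (lbs_of_lb0 p h0)]

/-- elements of the cone are above an element of the list, and below the sites -/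
lemma LocN.cone_spec (Lc : LocN P r j t lo hi x C i base c0 R s los his) {p : Prog}
    (hok : okP los his R s p = true) : ∀ (n : ℕ) (l : List ℕ),
    (∀ c ∈ l, inR los his R (c / 32) (c % 32) = true ∧ s < c / 32) →
    ∀ c ∈ coneN los his s n l, inR los his R (c / 32) (c % 32) = true ∧ s < c / 32 ∧
      ∃ d ∈ l, ptc x base c0 d ≤ ptc x base c0 c := by
  classical
  intro n
  induction n with
  | zero => intro l _ c hc; exact absurd hc (by simp [coneN])
  | succ n ih =>
    intro l hl c hc
    rw [coneN, List.mem_append] at hc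
    rcases hc with hc | hc
    · exact ⟨(hl c hc).1, (hl c hc).2, c, hc, le_rfl⟩
    · have hl' : ∀ c ∈ (l.flatMap (fun y => upN los his (y / 32) (y % 32))).filter
          (fun y => Nat.ble (s + 1) (y / 32)),
          inR los his R (c / 32) (c % 32) = true ∧ s < c / 32 ∧
            ∃ d ∈ l, ptc x base c0 d ≤ ptc x base c0 c := by
        intro y hy
        rw [List.mem_filter, List.mem_flatMap] at hy
        obtain ⟨⟨d, hd, hy1⟩, hy2⟩ := hy
        have h1 := (Lc.nbU_upN hok (hl d hd).1).1 y hy1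
        have h2 : inR los his R (y / 32) (y % 32) = true := by
          have h3 := h1.1
          rw [List.mem_toFinset] at h3
          unfold okP at hok
          simp only [Bool.and_eq_true] at hok
          obtain ⟨⟨⟨⟨⟨⟨⟨o1, o2⟩, o3⟩, o4⟩, o5⟩, o6⟩, o7⟩, o8⟩ := hok
          exact List.all_eq_true.1 o5 y h3
        rw [Nat.ble_eq] at hy2
        exact ⟨h2, by omega, d, hd, h1.2.le⟩
      obtain ⟨h1, h2, d, hd, h3⟩ := ih _ (fun y hy => ⟨(hl' y hy).1, (hl' y hy).2.1⟩) c hc
      obtain ⟨_, _, d', hd', h4⟩ := hl' d hd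
      exact ⟨h1, h2, d', hd', h4.trans h3⟩

/-- ZERO SUMS: the sum over all configurations with labels `≥ 1` on a nonempty set `X` of the last
row has no coefficient of `dd ^ m`. -/
theorem LocN.zeroX (Lc : LocN P r j t lo hi x C i base c0 R s los his) {m N J : ℕ} (hm : m ≤ 2)
    (hN : N ≤ 32) (htop : base = 0 ∨ N ≤ s + 1) (hJ : base + R = J + 1) (hsR : s + 1 < R)
    (hok : okXs los his R s m N = true) {X : Finset P} (hX : ∀ z ∈ X, z ∈ C ∧ lev z = J)
    (hne : X.Nonempty) {n : ℕ} (hn : n < N) :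
    PowerSeries.coeff m (∑ e ∈ (DR C J).piAntidiag n,
      (by classical exact if ∀ z ∈ X, 1 ≤ e z then tC i C e else 0) : A) = 0 := by
  classical
  set row : List ℕ := (rowN los his (R - 1)).map (cd (R - 1)) with hrow
  set l : List ℕ := row.filter (fun c => decide (ptc x base c0 c ∈ X)) with hl
  have hlX : okX los his R s m N l = true := by
    unfold okXs at hok
    have h1 := List.all_eq_true.1 hok l (List.mem_sublists.2 List.filter_sublist)
    rw [Bool.or_eq_true] at h1
    rcases h1 with h1 | h1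
    · exfalso
      obtain ⟨z, hz⟩ := hne
      obtain ⟨hzC, hzJ⟩ := hX z hz
      have hzt : z ≤ t := (Lc.mem z (by omega)).1 hzC
      obtain ⟨a, g1, g2, g3⟩ := Lc.hc.surj (lev z) (by have := Lc.hj; omega) z rfl hzt
      have e0 : lev z = base + (R - 1) := by omega
      rw [e0] at g1 g2 g3
      have e1 := Lc.rows.lo_eq (R - 1) (by omega)
      have e2 := Lc.rows.hi_eq (R - 1) (by omega)
      -- bound on the columns: from any valid program; use the whole row
      have hb : his.getD (R - 1) 0 ≤ 30 := by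
        have h2 := List.all_eq_true.1 hok row (List.mem_sublists.2 (List.Sublist.refl _))
        rw [Bool.or_eq_true] at h2
        rcases h2 with h2 | h2
        · rw [List.isEmpty_iff] at h2
          exfalso
          have : a - c0 ∈ rowN los his (R - 1) := mem_rowN.2 ⟨by omega, by omega⟩
          have h3 : cd (R - 1) (a - c0) ∈ row := List.mem_map.2 ⟨_, this, rfl⟩
          rw [h2] at h3
          exact absurd h3 (by simp)
        · unfold okX okP at h2
          simp only [Bool.and_eq_true] at h2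
          have h3 := h2.1.1.1.1.1.2
          have := List.all_eq_true.1 h3 _ (List.mem_range.2 (show R - 1 < R by omega))
          rwa [Nat.ble_eq] at this
      have h7 : a - c0 < 32 := by omega
      have hmem : cd (R - 1) (a - c0) ∈ l := by
        rw [hl, List.mem_filter]
        refine ⟨List.mem_map.2 ⟨_, mem_rowN.2 ⟨by omega, by omega⟩, rfl⟩, ?_⟩
        rw [decide_eq_true_eq]
        unfold ptc
        rw [cd_div h7, cd_mod h7]
        have e4 : c0 + (a - c0) = a := by omega
        rw [e4, g3]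
        exact hz
      rw [List.isEmpty_iff] at h1
      rw [h1] at hmem
      exact absurd hmem (by simp)
    · exact h1
  unfold okX at hlX
  simp only [Bool.and_eq_true] at hlX
  obtain ⟨⟨⟨⟨k1, k2⟩, k3⟩, k4⟩, k5⟩ := hlX
  have hev := of_decide_eq_true (List.all_eq_true.1 k5 n (List.mem_range.2 hn))
  have hmain := Lc.eval_lb k1 hm (n := n) (by omega)
  rw [hev] at hmain
  have hsum := Lc.sum_rows (D := DR C J) (n := n) (fun z hz => (mem_DR.1 hz).1)
    (Lc.SR_sub_DR hJ.le) (by rcases htop with h | h; exact Or.inl h; exact Or.inr (by omega))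
    (Or.inr (fun z hz => by have := (mem_DR.1 hz).2; omega)) (fun e => ∀ z ∈ X, 1 ≤ e z)
  have hsum' : (∑ e ∈ (DR C J).piAntidiag n, (if ∀ z ∈ X, 1 ≤ e z then tC i C e else 0) : A) =
      ∑ e ∈ (SR t base R).piAntidiag n, (if ∀ z ∈ X, 1 ≤ e z then tC i C e else 0) := by
    convert hsum
  rw [hsum', hmain]
  congr 1
  refine Finset.sum_congr rfl fun e he => ?_
  -- facts about the codes of `l`
  have k1' := k1
  unfold okP at k1'
  simp only [Bool.and_eq_true] at k1'
  obtain ⟨⟨⟨⟨⟨⟨⟨o1, o2⟩, o3⟩, o4⟩, o5⟩, o6⟩, o7⟩, o8⟩ := k1'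
  have hcol : his.getD (R - 1) 0 ≤ 30 := by
    have := List.all_eq_true.1 o7 _ (List.mem_range.2 (show R - 1 < R by omega))
    rwa [Nat.ble_eq] at this
  have hlin : ∀ c ∈ l, inR los his R (c / 32) (c % 32) = true ∧ s < c / 32 ∧ c / 32 = R - 1 := by
    intro c hc
    rw [hl, List.mem_filter] at hc
    obtain ⟨a, ha, rfl⟩ := List.mem_map.1 hc.1
    rw [mem_rowN] at ha
    rw [cd_div (by omega), cd_mod (by omega)]
    exact ⟨inR_iff.2 ⟨by omega, ha.1, ha.2⟩, by omega, rfl⟩
  have hcone := Lc.cone_spec k1 (R - 1 - s) l (fun c hc => ⟨(hlin c hc).1, (hlin c hc).2.1⟩)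
  have hXl : ∀ z ∈ X, ∃ c ∈ l, ptc x base c0 c = z := by
    intro z hz
    obtain ⟨hzC, hzJ⟩ := hX z hz
    have hzt : z ≤ t := (Lc.mem z (by omega)).1 hzC
    obtain ⟨a, g1, g2, g3⟩ := Lc.hc.surj (lev z) (by have := Lc.hj; omega) z rfl hzt
    have e0 : lev z = base + (R - 1) := by omega
    rw [e0] at g1 g2 g3
    have e1 := Lc.rows.lo_eq (R - 1) (by omega)
    have e2 := Lc.rows.hi_eq (R - 1) (by omega)
    have h7 : a - c0 < 32 := by omega
    have hpt : ptc x base c0 (cd (R - 1) (a - c0)) = z := by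
      unfold ptc
      rw [cd_div h7, cd_mod h7]
      have e4 : c0 + (a - c0) = a := by omega
      rw [e4, g3]
    refine ⟨cd (R - 1) (a - c0), ?_, hpt⟩
    rw [hl, List.mem_filter]
    refine ⟨List.mem_map.2 ⟨_, mem_rowN.2 ⟨by omega, by omega⟩, rfl⟩, ?_⟩
    rw [decide_eq_true_eq, hpt]
    exact hz
  have hlsub : ∀ c ∈ lbL (mkX los his R s l), c ∈ (asgs (mkX los his R s l)).toFinset ∧
      c ∈ coneN los his s (R - 1 - s) l := by
    intro c hc
    have h1 : c ∈ coneN los his s (R - 1 - s) l := List.contains_iff_mem.1 (List.all_eq_true.1 k3 c hc)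
    refine ⟨?_, h1⟩
    have : ∀ p : Prog, ∀ c ∈ lbL p, c ∈ asgs p := by
      intro p
      induction p with
      | nil => intro c hc; exact absurd hc (by simp [lbL])
      | asg x' lb caps p ih =>
        intro c hc
        rw [lbL] at hc
        rw [asgs]
        cases hb : Nat.beq lb 0 with
        | true => rw [hb, cond_true] at hc; exact List.mem_cons_of_mem _ (ih c hc)
        | false =>
          rw [hb, cond_false] at hc
          rcases List.mem_cons.1 hc with h | h
          · rw [h]; simp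
          · exact List.mem_cons_of_mem _ (ih c h)
      | site _ _ _ p ih => intro c hc; exact ih c hc
      | low _ _ _ p ih => intro c hc; exact ih c hc
      | upp _ _ _ p ih => intro c hc; exact ih c hc
      | skp _ _ _ p _ ih => intro c hc; exact ih c hc
    exact List.mem_toFinset.2 (this _ c hc)
  by_cases hT : tC i C e = 0
  · rw [hT, ite_self, ite_self]
  · have hA := (adm_of_tC hT).1
    have hiff : (∀ z ∈ X, 1 ≤ e z) ↔
        lbs (mkX los his R s l) (jM (ptc x base c0) (asgs (mkX los his R s l)).toFinset e) := by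
      rw [lbs_iff _ k2]
      constructor
      · intro h c hc
        obtain ⟨h1, h2⟩ := hlsub c hc
        rw [jM_of_mem h1]
        obtain ⟨h3, h4, d, hd, h5⟩ := hcone c h2
        have hdX : ptc x base c0 d ∈ X := by
          rw [hl, List.mem_filter] at hd
          exact of_decide_eq_true hd.2
        have h6 := (Lc.pt_spec h3).1
        have hi' := Lc.hi'
        exact pos_above Lc.H hA (by omega) _ h5 (h _ hdX)
      · intro h z hz
        obtain ⟨c, hc, rfl⟩ := hXl z hz
        have h1 : c ∈ lbL (mkX los his R s l) :=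
          List.contains_iff_mem.1 (List.all_eq_true.1 k4 c hc)
        have h2 := h c h1
        rw [jM_of_mem (hlsub c h1).1] at h2
        exact h2
    by_cases h : ∀ z ∈ X, 1 ≤ e z
    · rw [if_pos h, if_pos (hiff.1 h)]
    · rw [if_neg h, if_neg (fun h' => h (hiff.2 h'))]

/-- EVALUATION OF THE WHOLE COMPONENT from the rows `base .. base + R - 1`: the rows reach `ρ` levels
below the window, `n ≤ 2 ρ`, and the sums with positive labels on a set of the last row vanish. -/
theorem LocN.eval_all (Lc : LocN P r j t lo hi x C i base c0 R s los his) {p : Prog}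
    (hok : okP los his R s p = true) (h0 : lb0 p = true) {m n : ℕ} (hm : m ≤ 2) (hn : n < 32)
    (hsR : s + 1 < R) (hnR : n ≤ 2 * (R - 1 - s)) (htop : base = 0 ∨ n ≤ s)
    (hX : okXs los his R s m n = true) :
    PowerSeries.coeff m (ZC i C n : A) = ev m p 0 n 0 0 0 := by
  classical
  have hi' := Lc.hi'
  have hJ : base + R = i + (R - 1 - s) + 1 := by omega
  rw [← Lc.eval_cut hok h0 hm hn htop hJ]
  refine Jk.junk_low Lc.H Lc.part (by omega) hnR (fun z hz => (mem_DR.1 hz).1)
    (fun z hz => (mem_DR.1 hz).2) (fun e _ _ z hz hl _ => mem_DR.2 ⟨hz, hl⟩) ?_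
  intro X hXC hXl hXn n' hn'
  have h1 := Lc.zeroX (X := X) hm (by omega) (by omega) hJ hsR hX
    (fun z hz => ⟨hXC hz, hXl z hz⟩) hXn hn'
  rw [← h1]

/-- the second order coefficient of a component -/
theorem LocN.be_all (Lc : LocN P r j t lo hi x C i base c0 R s los his) {p : Prog}
    (hok : okP los his R s p = true) (h0 : lb0 p = true) {b n : ℕ} (hb : 2 ≤ b) (hb' : b ≤ 4)
    (hn : n < 32) (hsR : s + 1 < R) (hnR : n ≤ 2 * (R - 1 - s)) (htop : base = 0 ∨ n ≤ s)
    (hX : okXs los his R s (b - 2) n = true) :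
    I2.be n b (ZS i C) = ev (b - 2) p 0 n 0 0 0 := by
  rw [be_eq hb]
  exact Lc.eval_all hok h0 (by omega) hn hsR hnR htop hX

/-- the first order coefficient of a component -/
theorem LocN.al_all (Lc : LocN P r j t lo hi x C i base c0 R s los his) {p : Prog}
    (hok : okP los his R s p = true) (h0 : lb0 p = true) {b n : ℕ} (hb : 1 ≤ b) (hb' : b ≤ 3)
    (hn : n < 32) (hsR : s + 1 < R) (hnR : n ≤ 2 * (R - 1 - s)) (htop : base = 0 ∨ n ≤ s)
    (hX : okXs los his R s (b - 1) n = true) :
    I2.al n b (ZS i C) = ev (b - 1) p 0 n 0 0 0 := by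
  rw [al_eq hb]
  exact Lc.eval_all hok h0 (by omega) hn hsR hnR htop hX

/-- second order coefficients of a component with three sites, energies `N - 1`, `N` -/
theorem LocN.be_goodB (Lc : LocN P r j t lo hi x C i base c0 R s los his) {N : ℕ}
    (hg : goodB los his R s N = true) (hsR : s + 1 < R) (hN : N ≤ 2 * (R - 1 - s)) (hN' : N < 32)
    (htop : base = 0 ∨ N ≤ s) :
    I2.be (N - 1) 3 (ZS i C) = 0 ∧ I2.be N 3 (ZS i C) = 0 := by
  unfold goodB at hg
  simp only [Bool.and_eq_true] at hg
  obtain ⟨⟨⟨⟨h1, h2⟩, h3⟩, h4⟩, h5⟩ := hg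
  constructor
  · rw [Lc.be_all h1 h2 (by omega) (by omega) (by omega) hsR (by omega)
      (by rcases htop with h | h; exact Or.inl h; exact Or.inr (by omega)) (okXs_mono h5 (by omega))]
    exact of_decide_eq_true h3
  · rw [Lc.be_all h1 h2 (by omega) (by omega) hN' hsR hN htop h5]
    exact of_decide_eq_true h4

end loc

end Pool.Agent.GaussPoset.Win.Ev
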