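import Pool.Agent.W_448nl_h15.NlD
import Pool.Agent.W_448nl_h15.NlE
import Pool.Agent.W_448wd_h84.WdL
import Pool.Agent.W_448wd_h84.WdO

/-!
# MP_448cb3_co, case B: the identities `(E,1)(j + 1 - E)` for `E ≥ 7`, up to the values of `E7`
-/

namespace Pool.Agent.GaussPoset.Nl

set_option linter.unusedSectionVars false

open Finset Win Cp Wd Win.I2

universe u

variable {P : Type u} [Fintype P] [PartialOrder P] [DecidableEq P] {r i j a n : ℕ}
variable {t : Tops P} {lo hi : ℕ → ℕ} {e : ℕ → ℕ → P}

/-- case B: everything above an element of level `≤ j + 1` of the component -/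
lemma NJ.up_le (h : NJ P r j) {z y : P} {t : P} (ht : lev t = 0) (hz : lev z ≤ j + 1) (hzt : z ≤ t)
    (hzy : z ≤ y) : y ≤ t := by
  obtain ⟨s, hs, hs2⟩ := exists_above' (x := y) (j := 0) (Nat.zero_le _)
  have : s = t := Hul.top_unique (h.nj hz) hs2 ht (hzy.trans hs) hzt
  rw [← this]
  exact hs

/-- the next level of a component which ends in one element with one pendant -/
lemma NJ.ext1 (h : NJ P r j) (C : Cp.Comp j (t : P) lo hi e) (h1 : lo j = hi j)
    (hp : (pen (e j (lo j))).card = 1) :
    ∃ e', Cp.Comp (j + 1) (t : P) (Function.update lo (j + 1) (lo j))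
      (Function.update hi (j + 1) (lo j)) e' := by
  have hr := h.hr
  obtain ⟨z, hz⟩ := card_eq_one.1 hp
  have hzp : z ∈ pen (e j (lo j)) := by rw [hz]; exact mem_singleton_self z
  have hl := C.lev_e j (lo j) le_rfl le_rfl h1.le
  have hle := C.le_t j (lo j) le_rfl le_rfl h1.le
  have hzc := (mem_pen.1 hzp).1
  have hlz := lev_cov h.g.H hzc
  refine ⟨_, Comp.extend h.g.H t.2 C (lo' := lo j) (hi' := lo j) (f := fun _ => z) (Or.inl rfl)
    (Or.inl h1) le_rfl (fun s _ _ => by rw [hlz, hl]) (fun s s' _ _ _ _ _ => by omega) ?_ ?_⟩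
  · intro y hy hly
    refine ⟨lo j, le_rfl, le_rfl, ?_⟩
    have h3 : y ∈ pen (e j (lo j)) := by
      have h4 : ∀ w, y ⋖ w → w = e j (lo j) := by
        intro w hw
        have hlw := lev_cov h.g.H hw
        have hwt := NJ.up_le h t.2 (by omega) hy hw.le
        obtain ⟨s, s1, s2, s3⟩ := C.surj w hwt (by omega)
        have e0 : lev w = j := by omega
        rw [e0] at s1 s2 s3
        have e1 : s = lo j := by omega
        rw [e1] at s3
        exact s3.symm
      have h5 : 1 ≤ (uc y).card := by
        rcases uc_card_cases h.g.H (x := y) (by omega) with h6 | h6 <;> omega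
      obtain ⟨w, hw⟩ := card_pos.1 h5
      have hw' := mem_uc.1 hw
      have e1 := h4 w hw'
      refine mem_pen.2 ⟨by rw [← e1]; exact hw', ?_⟩
      rcases uc_card_cases h.g.H (x := y) (by omega) with h6 | h6
      · exact h6
      · exfalso
        obtain ⟨v, hv, hne⟩ := exists_other_uc (y := w) h6
        exact hne ((h4 v hv).trans e1.symm)
    rw [hz, mem_singleton] at h3
    exact h3.symm
  · intro s s' h3 h4 h5 h6
    obtain rfl : s = lo j := by omega
    obtain rfl : s' = lo j := by omega
    constructor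
    · exact fun _ => Or.inl rfl
    · exact fun _ => hzc

/-- the values of `E7` needed for one identity -/
def E7V (P : Type u) [Fintype P] [PartialOrder P] [DecidableEq P] (j n : ℕ) : Prop :=
  ∀ {t : Tops P} {lo hi : ℕ → ℕ} {e : ℕ → ℕ → P}, Cp.Comp j (t : P) lo hi e → E7c j lo hi →
    ∀ m, 5 ≤ m → m ≤ 2 * n → be m 3 (ZS 8 (SS 8 t)) = 0

/-- CASE B, THE IDENTITIES `E ≥ 7` of the last level -/
theorem NJ.cln_ge7 (I : SO P r) (V : EV P r) (h : NJ P r j) (hn : 7 ≤ n) (hi1 : 1 ≤ i)
    (hin : i + n = j + 1) (hV : i = 8 → 14 ≤ j → E7V P j n) : Wd.Cln P i n := by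
  have hr := h.hr
  have hlo : ∀ t : Tops P, ∀ m, m < n → dd ^ (st i (SS i t)).card ∣ ZC i (SS i t) m := by
    intro t m hm
    rcases Nat.eq_zero_or_pos m with rfl | h0
    · rw [ZC_zero h.g.H (by omega)]
    · exact cln_all I V h.g hi1 h0 (by omega) (by omega) t
  have hP : ∀ t : Tops P, Part i (SS i t) := fun t => SS_part h.g (by omega) (by omega) t
  have small : ∀ t : Tops P, (st i (SS i t)).card ≤ 2 →
      Prof n (2 * n) (st i (SS i t)).card (ZS i (SS i t)) ∧
        be (2 * n) (st i (SS i t)).card (ZS i (SS i t)) = 0 :=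
    fun t hb => ⟨prof_small h.g.H (hP t) hb (hlo t) _, be_zero_small h.g.H (hP t) hb _⟩
  have main : ∀ t : Tops P, Prof n (2 * n) (st i (SS i t)).card (ZS i (SS i t)) ∧
        be (2 * n) (st i (SS i t)).card (ZS i (SS i t)) = 0 := by
    intro t
    obtain ⟨lo, hi, e, C, hS⟩ := shape_all I V h.g t
    have hcard := h.card_SS (show i ≤ j by omega) C
    rcases hS with hl | ⟨-, hR⟩ | ⟨-, hR⟩ | ⟨h0, -, -⟩ | ⟨h0, hF⟩ | ⟨a, h0, h1, h2, h3, hN, h4⟩
    · have := hl i (by omega)
      exact small t (by omega)
    · exact prof_of_all (fun m hm => NJ.early6 h C (Or.inl hR) (by omega) (by omega))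
    · exact prof_of_all (fun m hm => NJ.early6 h C (Or.inr (Or.inl hR)) (by omega) (by omega))
    · omega
    · omega
    · rcases late_b7 C ⟨h0, h1, h2, h3, h4⟩ hn hin with h5 | ⟨rfl, rfl, h5, h6⟩
      · exact small t (by omega)
      · have hE : E7c j lo hi := ⟨h2, h3, Or.inl h6⟩
        have hw : word lo hi 4 (j - 4) = E7.take (j - 4) := h6
        -- the number of sites
        have hcl : (st 8 (SS 8 t)).card = 3 := by
          obtain ⟨e1, e2⟩ := Lw_of_trunk C h0 h1 h2 h3 7 (by omega)
          rw [hcard]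
          simp only [Nat.reduceSub, Nat.reduceAdd] at e1 e2
          rw [← e1, ← e2, hw]
          have h7 : j - 4 ≤ 12 := by
            have h8 : E7.length = 12 := rfl
            have h9 : (word lo hi 4 (j - 4)).length = j - 4 := by
              unfold word
              rw [List.length_map, List.length_range]
            rw [hw, List.length_take, h8] at h9
            omega
          have h8 : 10 ≤ j - 4 := by omega
          generalize j - 4 = d at h7 h8 ⊢
          interval_cases d <;> decide
        have hbe : ∀ m, 5 ≤ m → m ≤ 2 * n → be m 3 (ZS 8 (SS 8 t)) = 0 :=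
          fun m h7 h8 => hV rfl h5 C hE m h7 h8
        refine ⟨prof_three h.g.H (hP t) hcl (hlo t) ?_, ?_⟩
        · intro m hm hm2
          rw [hcl]
          exact hbe m (by omega) (by omega)
        · rw [hcl]
          exact hbe _ (by omega) (by omega)
  exact NJ.stage h (by omega) hin (fun t => (main t).1) (fun t => (main t).2.le)

end Pool.Agent.GaussPoset.Nl
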