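import Pool.Agent.W_448nl_h15.NlF
import Pool.Agent.W_448wd_h84.WdM
import Pool.Agent.W_448so_h63.EB

/-!
# MP_448cb3_co, case B: `(7,1)(j - 6)` on the last level
-/

set_option autoImplicit false

namespace Pool.Agent.GaussPoset.Nl

set_option linter.unusedSectionVars false

open Finset Win Cp Wd Win.I2 Win.Ev

universe u

variable {P : Type u} [Fintype P] [PartialOrder P] [DecidableEq P] {r i j a n : ℕ}
variable {t : Tops P} {lo hi : ℕ → ℕ} {e : ℕ → ℕ → P}

/-- `E7` down to level 14, case B: the fifteenth level is natural -/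
lemma NJ.e7_15 (h : NJ P r 14) (C : Cp.Comp 14 (t : P) lo hi e) (hE : E7c 14 lo hi) :
    ∃ e', Cp.Comp 15 (t : P) (Function.update lo 15 5) (Function.update hi 15 5) e' ∧
      Rows (Function.update lo 15 5) (Function.update hi 15 5) 0 0 16
        [0, 0, 0, 0, 0, 0, 1, 2, 2, 3, 3, 3, 4, 5, 5, 5]
        [0, 0, 0, 0, 1, 1, 2, 3, 4, 4, 4, 4, 5, 5, 5, 5] := by
  obtain ⟨g0, ⟨g1, g2⟩, -⟩ := id hE
  have hw := hE.take (d := 10) (by omega) (by omega) (by omega)
  have key : Rows lo hi 0 0 15 [0, 0, 0, 0, 0, 0, 1, 2, 2, 3, 3, 3, 4, 5, 5]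
      [0, 0, 0, 0, 1, 1, 2, 3, 4, 4, 4, 4, 5, 5, 5] :=
    rows_trunk (w := E7.take 10) (j := 14) (fun k hk => C.lo_step k hk) (fun k hk => C.hi_step k hk)
      (by show 4 + 10 ≤ 14; omega) hw g0 g1 g2 (by decide)
  have l9 := key.lo_eq 9 (by omega)
  have l10 := key.lo_eq 10 (by omega)
  have l11 := key.lo_eq 11 (by omega)
  have l12 := key.lo_eq 12 (by omega)
  have l13 := key.lo_eq 13 (by omega)
  have l14 := key.lo_eq 14 (by omega)
  have h9 := key.hi_eq 9 (by omega)
  have h10 := key.hi_eq 10 (by omega)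
  have h11 := key.hi_eq 11 (by omega)
  have h12 := key.hi_eq 12 (by omega)
  have h13 := key.hi_eq 13 (by omega)
  have h14 := key.hi_eq 14 (by omega)
  simp only [Nat.zero_add, List.getD_cons_succ, List.getD_cons_zero] at l9 l10 l11 l12 l13 l14 h9 h10 h11 h12 h13 h14
  have hpd : Wd.pdL lo hi 12 := by
    unfold Wd.pdL
    simp only [Nat.reduceAdd]
    omega
  have hfu : Wd.fuw lo hi 12 = 1 := by
    unfold Wd.fuw
    rw [if_neg, if_pos]
    · unfold Wd.puR
      simp only [Nat.reduceSub]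
      omega
    · simp only [Nat.reduceSub]
      rintro ⟨-, hh, -⟩
      omega
  have hl := (h.law (i := 12) (by omega) le_rfl C).1
  have h3 := NJ.FL_eq h (i := 12) le_rfl C
  have hp : (pen (e 14 (lo 14))).card = 1 := by
    rw [hfu] at hl
    rw [← hl]
    congr 1
    refine Subset.antisymm (h3.1 hpd) ?_
    intro z hz
    rcases h3.2.2 z hz with h4 | ⟨h4, -⟩
    · exact h4.2
    · exfalso
      unfold Wd.pdR at h4
      simp only [Nat.reduceAdd] at h4
      omega
  obtain ⟨e', C'⟩ := NJ.ext1 h C (by omega) hp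
  rw [l14] at C'
  refine ⟨e', C', ⟨?_, ?_⟩⟩
  · intro k hk
    rcases Nat.lt_or_ge k 15 with h5 | h5
    · have := key.lo_eq k h5
      rw [Function.update_of_ne (by omega), this]
      interval_cases k <;> rfl
    · obtain rfl : k = 15 := by omega
      rfl
  · intro k hk
    rcases Nat.lt_or_ge k 15 with h5 | h5
    · have := key.hi_eq k h5
      rw [Function.update_of_ne (by omega), this]
      interval_cases k <;> rfl
    · obtain rfl : k = 15 := by omega
      rfl

/-- the values of `E7` at `(j, n) = (14, 7)` -/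
theorem NJ.e7v (h : NJ P r 14) : E7V P 14 7 := by
  intro t lo hi e C hE m h5 hm
  rcases Nat.lt_or_ge m 13 with h6 | h6
  · exact EV_holds.be_E7 h.g C (by omega) (by omega) hE m h5 (by omega) (by omega)
  obtain ⟨e', C', hR⟩ := NJ.e7_15 h C hE
  have hr := h.hr
  have L : LocN P r 15 (t : P) (Function.update lo 15 5) (Function.update hi 15 5)
      (fun k s => e' k s) (SS 8 t) 8 0 0 16 8 [0, 0, 0, 0, 0, 0, 1, 2, 2, 3, 3, 3, 4, 5, 5, 5]
      [0, 0, 0, 0, 1, 1, 2, 3, 4, 4, 4, 4, 5, 5, 5, 5] :=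
    ⟨h.g.H, by omega, fun z y hz hzt hzy => NJ.up_le h t.2 (by omega) hzt hzy.le, C'.toWin,
      SS_part h.g (by omega) (by omega) t, fun z hz => h.mem (by omega) t (by omega), hR, rfl,
      by omega, by omega⟩
  have X13 := Ev.okXs_mono (N' := 13) E7_7_X (by omega)
  have e1 := L.be_all (b := 3) (n := 13) E7_7_ok.1 E7_7_ok.2 (by omega) (by omega) (by omega)
    (by omega) (by omega) (Or.inl rfl) X13
  have e2 := L.be_all (b := 3) (n := 14) E7_7_ok.1 E7_7_ok.2 (by omega) (by omega) (by omega)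
    (by omega) (by omega) (Or.inl rfl) E7_7_X
  obtain rfl | rfl : m = 13 ∨ m = 14 := by omega
  · exact e1.trans E7_7_13
  · exact e2.trans E7_7_14

/-- CASE B: `(7,1)(j - 6)` -/
theorem NJ.cln_seven (h : NJ P r j) (h7 : 7 ≤ j) : Wd.Cln P (j - 6) 7 := by
  refine NJ.cln_ge7 (SO_holds P r) EV_holds h le_rfl (by omega) (by omega) ?_
  intro h8 h14
  obtain rfl : j = 14 := by omega
  exact NJ.e7v h

end Pool.Agent.GaussPoset.Nl
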