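import Pool.Agent.W_448nl_h15.NlC

/-!
# MP_448cb3_co: early shapes without pendants, distance three and four, energies up to `2 (J - i) + 2`
-/

namespace Pool.Agent.GaussPoset.Nl

set_option linter.unusedSectionVars false

open Polynomial Finset OrderDual

universe u

variable {Q : Type u} [Fintype Q] [PartialOrder Q] [DecidableEq Q]
variable {t : Q} {T : ℕ × ℕ → Prop} {co : Q → ℕ × ℕ} {i J p q n : ℕ}

lemma three_le_nab {z y1 y2 y3 : Q} {l : ℕ} (h1 : z ≤ y1) (h2 : z ≤ y2) (h3 : z ≤ y3)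
    (l1 : lev y1 = l) (l2 : lev y2 = l) (l3 : lev y3 = l) (n12 : y1 ≠ y2) (n13 : y1 ≠ y3)
    (n23 : y2 ≠ y3) : 3 ≤ nab l z := by
  classical
  have h0 : nab l z = ((lv Q l).filter (fun x => z ≤ x)).card := by
    unfold nab
    congr
  have h4 : ({y1, y2, y3} : Finset Q) ⊆ (lv Q l).filter (fun x => z ≤ x) := by
    intro y hy
    rw [mem_insert, mem_insert, mem_singleton] at hy
    rw [mem_filter, mem_lv]
    rcases hy with rfl | rfl | rfl
    · exact ⟨l1, h1⟩
    · exact ⟨l2, h2⟩
    · exact ⟨l3, h3⟩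
  have h5 := card_le_card h4
  rw [card_insert_of_notMem (by
    rw [mem_insert, mem_singleton]
    rintro (h | h)
    · exact n12 h
    · exact n13 h), card_pair n23] at h5
  omega

/-- a cell above -/
lemma cell_up (H : Tru t T co i J p q) {z x : Q} (hzx : z ≤ x) (hx : lev x ≤ J) {a b : ℕ}
    (ha : a ≤ (co x).1) (hb : b ≤ (co x).2) (hT : T (a, b)) :
    ∃ y, z ≤ y ∧ lev y = a + b ∧ co y = (a, b) := by
  obtain ⟨y, hy, hcy⟩ := H.chart.low x (mem_loN.2 hx) (a, b) ⟨ha, hb⟩ hT
  refine ⟨y, hzx.trans ((H.chart.le_iff x (mem_loN.2 hx) y hy).2 ?_), ?_, hcy⟩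
  · rw [hcy]
    exact ⟨ha, hb⟩
  · have := H.chart.lev y hy
    rw [hcy] at this
    exact this

/-- three cells above -/
lemma nab3 (H : Tru t T co i J p q) {z x1 x2 x3 : Q} (hz1 : z ≤ x1) (hz2 : z ≤ x2) (hz3 : z ≤ x3)
    (hx1 : lev x1 ≤ J) (hx2 : lev x2 ≤ J) (hx3 : lev x3 ≤ J) {l a1 b1 a2 b2 a3 b3 : ℕ}
    (e1 : a1 + b1 = l) (e2 : a2 + b2 = l) (e3 : a3 + b3 = l) (n12 : a1 ≠ a2) (n13 : a1 ≠ a3)
    (n23 : a2 ≠ a3) (ha1 : a1 ≤ (co x1).1) (hb1 : b1 ≤ (co x1).2) (ha2 : a2 ≤ (co x2).1)
    (hb2 : b2 ≤ (co x2).2) (ha3 : a3 ≤ (co x3).1) (hb3 : b3 ≤ (co x3).2) (T1 : T (a1, b1))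
    (T2 : T (a2, b2)) (T3 : T (a3, b3)) : 3 ≤ nab l z := by
  obtain ⟨y1, g1, g2, g3⟩ := cell_up H hz1 hx1 ha1 hb1 T1
  obtain ⟨y2, g4, g5, g6⟩ := cell_up H hz2 hx2 ha2 hb2 T2
  obtain ⟨y3, g7, g8, g9⟩ := cell_up H hz3 hx3 ha3 hb3 T3
  refine three_le_nab g1 g4 g7 (g2.trans e1) (g5.trans e2) (g8.trans e3) ?_ ?_ ?_
  · intro h
    rw [h, g6, Prod.mk.injEq] at g3
    exact n12 g3.1.symm
  · intro h
    rw [h, g9, Prod.mk.injEq] at g3
    exact n13 g3.1.symm
  · intro h
    rw [h, g9, Prod.mk.injEq] at g6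
    exact n23 g6.1.symm

/-- no pendants below the free elements -/
def NoPd (co : Q → ℕ × ℕ) (J p q : ℕ) : Prop :=
  ∀ z x : Q, lev z = J + 1 → z ⋖ x → (co x).1 < p → (co x).2 < q →
    (co x).1 + (co x).2 = J → ∃ x', z ⋖ x' ∧ x' ≠ x

/-- bounds of a double -/
def gD (m : ℕ) : ℕ := if m = 0 then 2 else 3
/-- bounds of a double -/
def gE (m : ℕ) : ℕ := if m < 2 then 2 else 3

lemma sum_gD : ∀ L : ℕ, ∑ m ∈ range (L + 1), gD m = 3 * L + 2 := by
  intro L
  induction L with
  | zero => decide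
  | succ L ih =>
    rw [Finset.sum_range_succ, ih]
    unfold gD
    rw [if_neg (by omega)]
    ring

lemma sum_gE : ∀ L : ℕ, ∑ m ∈ range (L + 2), gE m = 3 * L + 4 := by
  intro L
  induction L with
  | zero => decide
  | succ L ih =>
    rw [show L + 1 + 2 = (L + 2) + 1 by ring, Finset.sum_range_succ, ih]
    unfold gE
    rw [if_neg (by omega)]
    ring

/-- a second cover: coordinates -/
lemma cover_co (H : Tru t T co i J p q) {z x x' : Q} (hzl : lev z = J + 1) (hzx : z ⋖ x)
    (hzx' : z ⋖ x') (hne : x' ≠ x) : lev x = J ∧ lev x' = J ∧ (co x).1 + (co x).2 = J ∧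
      (co x').1 + (co x').2 = J ∧ (co x').1 ≠ (co x).1 := by
  have h1 := H.graded.lev_covBy hzx
  have h2 := H.graded.lev_covBy hzx'
  have h3 := H.chart.lev x (mem_loN.2 (by omega))
  have h4 := H.chart.lev x' (mem_loN.2 (by omega))
  refine ⟨by omega, by omega, by omega, by omega, fun h => ?_⟩
  exact hne (H.chart.inj x' (mem_loN.2 (by omega)) x (mem_loN.2 (by omega))
    (Prod.ext h (by omega)))

/-- doubles in a rectangle -/
lemma dbl_rect (H : Tru t (fun _ => True) co i J p q) {z x x' : Q} (hzl : lev z = J + 1)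
    (hzx : z ⋖ x) (hzx' : z ⋖ x') (hne : x' ≠ x) (hs : (co x).1 < p) (hc : (co x).2 < q) :
    ∀ m < J - i, gD m ≤ nab (J - m) z := by
  obtain ⟨l1, l2, s1, s2, hn⟩ := cover_co H hzl hzx hzx' hne
  have hiJ := H.hiJ
  have hp := H.hp
  have hq := H.hq
  intro m hm
  unfold gD
  split_ifs with h0
  · exact two_le_nab hzx'.le hzx.le (by omega) (by omega) hne
  · rcases Nat.lt_or_ge m 2 with h1 | h1
    · obtain rfl : m = 1 := by omega
      have key : ∃ a3 b3, a3 + b3 = J - 1 ∧ a3 ≠ (co x).1 - 1 ∧ a3 ≠ (co x).1 ∧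
          a3 ≤ (co x').1 ∧ b3 ≤ (co x').2 := by
        rcases Nat.lt_or_ge (co x').1 (co x).1 with h2 | h2
        · rcases Nat.eq_zero_or_pos (co x').1 with h3 | h3
          · exact ⟨0, J - 1, by omega, by omega, by omega, by omega, by omega⟩
          · exact ⟨(co x').1 - 1, (co x').2, by omega, by omega, by omega, by omega, by omega⟩
        · rcases Nat.eq_zero_or_pos (co x').2 with h3 | h3
          · exact ⟨(co x').1 - 1, 0, by omega, by omega, by omega, by omega, by omega⟩
          · exact ⟨(co x').1, (co x').2 - 1, by omega, by omega, by omega, by omega, by omega⟩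
      obtain ⟨a3, b3, k1, k2, k3, k4, k5⟩ := key
      exact nab3 H hzx.le hzx.le hzx'.le l1.le l1.le l2.le (a1 := (co x).1 - 1) (b1 := (co x).2)
        (a2 := (co x).1) (b2 := (co x).2 - 1) (a3 := a3) (b3 := b3) (by omega) (by omega) k1
        (by omega) (by omega) (by omega) (by omega) (by omega) (by omega) (by omega) k4 k5
        trivial trivial trivial
    · refine le_trans ?_ (nab_mono hzx.le)
      exact nab_three H (by omega) (a := (co x).1 - 2) (b := (co x).2 - (m - 2)) (by omega)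
        (by omega) (by omega) (by omega) trivial trivial trivial

/-- RECTANGLES without pendants -/
theorem rect_clean3 (H : Tru t (fun _ => True) co i J p q) (hr : i + 2 ≤ p + q)
    (hN : NoPd co J p q) (hn : n ≤ 2 * (J - i) + 2) :
    (1 + X : ℤ[X]) ^ (p + q - 1 - i) ∣ Z Q i n := by
  classical
  have hiJ := H.hiJ
  refine (H.farT (cln_rect2 H hr le_rfl)).dvd_of_lt (by omega) fun z hz => ?_
  have hl := bd_lev' H hz
  rcases Nat.lt_or_ge (hcan (hiN Q J) (thJ J p q co) z) 2 with h2 | h2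
  · have h1 : hcan (hiN Q J) (thJ J p q co) z = 1 := by
      obtain ⟨x, -, -, hx⟩ := hcan_spec (θ := thJ J p q co) hz
      omega
    obtain ⟨x, hzx, hxl, -, hs, hc, hsc⟩ := free_cover H hz h1
    obtain ⟨x', hzx', hne⟩ := hN z x hl hzx hs hc hsc
    have h3 := (cost_one (i := i) hl (by omega) h1 gD (dbl_rect H hl hzx hzx' hne hs hc)).1
    obtain ⟨L, hL⟩ : ∃ L, J - i = L + 1 := ⟨J - i - 1, by omega⟩
    rw [hL, sum_gD] at h3
    omega
  · have := cost_label_rect H hz h2
    omega

/-- doubles in a staircase, even level -/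
lemma dbl_even (H : Tru t (fun c => c.1 ≤ c.2) co i J (i + 1) q) {z x x' : Q}
    (hzl : lev z = J + 1) (hzx : z ⋖ x) (hzx' : z ⋖ x') (hne : x' ≠ x) (hc : (co x).2 < q)
    (hJ : 2 * (J / 2) = J) : ∀ m < J - i, gE m ≤ nab (J - m) z := by
  obtain ⟨l1, l2, s1, s2, hn⟩ := cover_co H hzl hzx hzx' hne
  have hiJ := H.hiJ
  have hq := H.hq
  have hge : (co x).1 ≤ (co x).2 := H.chart.mem x (mem_loN.2 l1.le)
  have hge' : (co x').1 ≤ (co x').2 := H.chart.mem x' (mem_loN.2 l2.le)
  intro m hm
  rcases Nat.lt_or_ge (co x).1 (co x).2 with hf | hf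
  · unfold gE
    split_ifs with h0
    · rcases Nat.eq_zero_or_pos m with rfl | h1
      · exact two_le_nab hzx'.le hzx.le (by omega) (by omega) hne
      · obtain rfl : m = 1 := by omega
        refine le_trans ?_ (nab_mono hzx.le)
        exact nab_two H (by omega) (a := (co x).1 - 1) (b := (co x).2) (a' := (co x).1)
          (b' := (co x).2 - 1) (by omega) (by omega) (by omega) (by omega) (by omega) (by omega)
          (by omega) (by simp only; omega) (by simp only; omega)
    · refine le_trans ?_ (nab_mono hzx.le)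
      exact nab_three H (by omega) (a := (co x).1 - m) (b := (co x).2) (by omega)
        (by omega) (by omega) (by omega) (by simp only; omega) (by simp only; omega)
        (by simp only; omega)
  · obtain ⟨n1, n2⟩ := fold_double H hzl hzx hzx' hne s1 (by omega) (by omega)
    unfold gE
    split_ifs with h0
    · rcases Nat.eq_zero_or_pos m with rfl | h1
      · exact n1
      · obtain rfl : m = 1 := by omega
        exact n2
    · exact nab3 H hzx.le hzx.le hzx'.le l1.le l1.le l2.le (a1 := (co x).1 - m)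
        (b1 := (co x).2) (a2 := (co x).1 - m + 1) (b2 := (co x).2 - 1)
        (a3 := min (co x').1 ((co x).1 - m - 1)) (b3 := J - m - min (co x').1 ((co x).1 - m - 1))
        (by omega) (by omega) (by omega) (by omega) (by omega) (by omega) (by omega) (by omega)
        (by omega) (by omega) (by omega) (by omega) (by simp only; omega) (by simp only; omega)
        (by simp only; omega)

/-- doubles in a staircase, odd level -/
lemma dbl_odd (H : Tru t (fun c => c.1 ≤ c.2) co i J (i + 1) q) {z x x' : Q}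
    (hzl : lev z = J + 1) (hzx : z ⋖ x) (hzx' : z ⋖ x') (hne : x' ≠ x) (hc : (co x).2 < q)
    (hJ : 2 * (J / 2) + 1 = J) : ∀ m < J - i, gD m ≤ nab (J - m) z := by
  obtain ⟨l1, l2, s1, s2, hn⟩ := cover_co H hzl hzx hzx' hne
  have hiJ := H.hiJ
  have hq := H.hq
  have hge : (co x).1 ≤ (co x).2 := H.chart.mem x (mem_loN.2 l1.le)
  have hge' : (co x').1 ≤ (co x').2 := H.chart.mem x' (mem_loN.2 l2.le)
  intro m hm
  unfold gD
  split_ifs with h0
  · exact two_le_nab hzx'.le hzx.le (by omega) (by omega) hne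
  rcases Nat.lt_or_ge ((co x).1 + 1) (co x).2 with hf | hf
  · rcases Nat.lt_or_ge m 2 with h1 | h1
    · obtain rfl : m = 1 := by omega
      rcases Nat.lt_or_ge (co x').1 (co x).1 with h2 | h2
      · exact nab3 H hzx.le hzx.le hzx'.le l1.le l1.le l2.le (a1 := (co x).1 - 1)
          (b1 := (co x).2) (a2 := (co x).1) (b2 := (co x).2 - 1)
          (a3 := min (co x').1 ((co x).1 - 2)) (b3 := J - 1 - min (co x').1 ((co x).1 - 2))
          (by omega) (by omega) (by omega) (by omega) (by omega) (by omega) (by omega) (by omega)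
          (by omega) (by omega) (by omega) (by omega) (by simp only; omega) (by simp only; omega)
          (by simp only; omega)
      · exact nab3 H hzx.le hzx.le hzx'.le l1.le l1.le l2.le (a1 := (co x).1 - 1)
          (b1 := (co x).2) (a2 := (co x).1) (b2 := (co x).2 - 1)
          (a3 := (co x').1) (b3 := (co x').2 - 1)
          (by omega) (by omega) (by omega) (by omega) (by omega) (by omega) (by omega) (by omega)
          (by omega) (by omega) (by omega) (by omega) (by simp only; omega) (by simp only; omega)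
          (by simp only; omega)
    · refine le_trans ?_ (nab_mono hzx.le)
      exact nab_three H (by omega) (a := (co x).1 - m) (b := (co x).2) (by omega)
        (by omega) (by omega) (by omega) (by simp only; omega) (by simp only; omega)
        (by simp only; omega)
  · exact nab3 H hzx.le hzx.le hzx'.le l1.le l1.le l2.le (a1 := (co x).1 - m)
      (b1 := (co x).2) (a2 := (co x).1 - m + 1) (b2 := (co x).2 - 1)
      (a3 := min (co x').1 ((co x).1 - m - 1)) (b3 := J - m - min (co x').1 ((co x).1 - m - 1))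
      (by omega) (by omega) (by omega) (by omega) (by omega) (by omega) (by omega) (by omega)
      (by omega) (by omega) (by omega) (by omega) (by simp only; omega) (by simp only; omega)
      (by simp only; omega)

/-- costs in a staircase of even level without pendants -/
lemma cost_even (H : Tru t (fun c => c.1 ≤ c.2) co i J (i + 1) q) (hN : NoPd co J (i + 1) q)
    (hJ : 2 * (J / 2) = J) {z : Q} (hz : z ∈ bdR (hiN Q J)) :
    2 * (J - i) + 3 ≤ cst i (hS co i J q) z ∨ (hS co i J q z = 1 ∧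
      3 * (J - i) - 1 ≤ cst i (hS co i J q) z) := by
  classical
  have hiJ := H.hiJ
  have hq := H.hq
  have hl := bd_lev' H hz
  rcases Nat.lt_or_ge (hS co i J q z) 2 with h2 | h2
  swap
  · exact Or.inl (cost_label_stair H hz h2)
  have h1 : hS co i J q z = 1 := by
    obtain ⟨x, -, -, hx⟩ := hcan_spec (θ := thJ J (i + 1) q co) hz
    change hcan (hiN Q J) (thJ J (i + 1) q co) z < 2 at h2
    change hcan (hiN Q J) (thJ J (i + 1) q co) z = 1
    omega
  refine Or.inr ⟨h1, ?_⟩
  obtain ⟨x, hzx, hxl, -, hs, hc, hsc⟩ := free_cover H hz h1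
  obtain ⟨x', hzx', hne⟩ := hN z x hl hzx hs hc hsc
  have h3 := (cost_one (i := i) hl (by omega) h1 gE (dbl_even H hl hzx hzx' hne hc hJ)).1
  obtain ⟨L, hL⟩ : ∃ L, J - i = L + 2 := ⟨J - i - 2, by omega⟩
  rw [hL, sum_gE] at h3
  omega

/-- STAIRCASES of even level without pendants, distance at least four -/
theorem even_clean4 (H : Tru t (fun c => c.1 ≤ c.2) co i J (i + 1) q) (hr : i + 2 ≤ 2 * q)
    (h4 : i + 4 ≤ J) (hJ : 2 * (J / 2) = J) (hN : NoPd co J (i + 1) q)
    (hn : n ≤ 2 * (J - i) + 2) : (1 + X : ℤ[X]) ^ (i / 2 + q - i) ∣ Z Q i n := by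
  classical
  refine (H.farT (cln_stair2 H hr le_rfl (Or.inr (Or.inl ⟨h4, hJ⟩)))).dvd_of_lt (by omega)
    fun z hz => ?_
  have := cost_even H hN hJ hz
  change n < cst i (hS co i J q) z
  omega

/-- STAIRCASES of even level without pendants, distance three -/
theorem even_clean3 (H : Tru t (fun c => c.1 ≤ c.2) co i J (i + 1) q) (hr : i + 2 ≤ 2 * q)
    (h3 : J = i + 3) (hJ : 2 * (J / 2) = J) (hN : NoPd co J (i + 1) q)
    (hn : n ≤ 7) : (1 + X : ℤ[X]) ^ (i / 2 + q - i) ∣ Z Q i n := by
  classical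
  refine (H.farT (cln_stair2 H hr (n0 := 8) (by omega) (Or.inr (Or.inr ⟨h3, hJ, le_rfl⟩)))).dvd_of_lt
    (by omega) fun z hz => ?_
  have := cost_even H hN hJ hz
  change n < cst i (hS co i J q) z
  omega

end Pool.Agent.GaussPoset.Nl
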