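import Pool.Agent.W_448nl_h15.NlH

/-!
# MP_448cb3_co: staircases of even level, distance three, energy eight
-/

namespace Pool.Agent.GaussPoset.Nl

set_option linter.unusedSectionVars false

open Polynomial Finset OrderDual

universe u

variable {Q : Type u} [Fintype Q] [PartialOrder Q] [DecidableEq Q]
variable {t : Q} {T : ℕ × ℕ → Prop} {co : Q → ℕ × ℕ} {i J p q n : ℕ}

lemma nab_card (l : ℕ) (z : Q) [DecidablePred fun x : Q => z ≤ x] :
    nab l z = ((lv Q l).filter (fun x => z ≤ x)).card := by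
  unfold nab
  congr

/-- the elements above `z` and above `x` -/
lemma nab_of_eq (hgr : GradedBelow Q) {z x : Q} (hzx : z ≤ x) {l0 : ℕ} (h0 : l0 ≤ lev x)
    (h : nab l0 z ≤ nab l0 x) {l : ℕ} (hl : l ≤ l0) : nab l z ≤ nab l x := by
  classical
  rw [nab_card, nab_card] at h
  have h1 : (lv Q l0).filter (fun y => x ≤ y) ⊆ (lv Q l0).filter (fun y => z ≤ y) := by
    intro y hy
    rw [mem_filter] at hy ⊢
    exact ⟨hy.1, hzx.trans hy.2⟩
  have h2 := Finset.eq_of_subset_of_card_le h1 h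
  rw [nab_card, nab_card]
  refine Finset.card_le_card fun y hy => ?_
  rw [mem_filter, mem_lv] at hy ⊢
  refine ⟨hy.1, ?_⟩
  obtain ⟨w, hw1, hw2, hw3⟩ := exists_between hgr hy.2 (l := l0) (by omega)
    (h0.trans (lev_le_of_le hzx))
  have h3 : w ∈ (lv Q l0).filter (fun y => x ≤ y) := by
    rw [h2, mem_filter, mem_lv]
    exact ⟨hw3, hw1⟩
  rw [mem_filter] at h3
  exact h3.2.trans hw2

/-- the elements above `z` are above one of two elements -/
lemma nab_le_add (hgr : GradedBelow Q) {z x x' : Q} (hzx : z ≤ x) (hzx' : z ≤ x') (hx : lev x = J)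
    (hx' : lev x' = J) (hne : x ≠ x') (h2 : nab J z ≤ 2) {l : ℕ} (hl : l ≤ J) :
    nab l z ≤ nab l x + nab l x' := by
  classical
  rw [nab_card l z, nab_card l x, nab_card l x']
  refine le_trans (card_le_card ?_) (card_union_le _ _)
  intro y hy
  rw [mem_filter, mem_lv] at hy
  rw [mem_union, mem_filter, mem_filter, mem_lv]
  obtain ⟨w, hw1, hw2, hw3⟩ := exists_between hgr hy.2 (l := J) (by omega)
    (hx ▸ lev_le_of_le hzx)
  by_cases e1 : w = x
  · left
    rw [← e1]
    exact ⟨hy.1, hw2⟩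
  · by_cases e2 : w = x'
    · right
      rw [← e2]
      exact ⟨hy.1, hw2⟩
    · exfalso
      have := three_le_nab hw1 hzx hzx' hw3 hx hx' e1 e2 hne
      omega

/-- the drop of a double at the exceptional energy -/
lemma drop_even (H : Tru t (fun c => c.1 ≤ c.2) co i J (i + 1) q) {z x x' : Q}
    (hzl : lev z = J + 1) (hzx : z ⋖ x) (hzx' : z ⋖ x') (hne : x' ≠ x) (hc : (co x).2 < q)
    (hJ : 2 * (J / 2) = J) (h3 : J = i + 3) (hg : ∀ m < J - i, nab (J - m) z = gE m) :
    nab i z ≤ nab (i + 1) z + 1 := by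
  obtain ⟨l1, l2, s1, s2, hn⟩ := cover_co H hzl hzx hzx' hne
  have hiJ := H.hiJ
  have hq := H.hq
  have hge : (co x).1 ≤ (co x).2 := H.chart.mem x (mem_loN.2 l1.le)
  have hge' : (co x').1 ≤ (co x').2 := H.chart.mem x' (mem_loN.2 l2.le)
  have g0 := hg 0 (by omega)
  have g1 := hg 1 (by omega)
  have g2 := hg 2 (by omega)
  have e0 : gE 0 = 2 := rfl
  have e1 : gE 1 = 2 := rfl
  have e2 : gE 2 = 3 := rfl
  rw [Nat.sub_zero, e0] at g0
  rw [e1] at g1
  rw [e2, show J - 2 = i + 1 by omega] at g2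
  rcases Nat.lt_or_ge (co x).1 (co x).2 with hf | hf
  · have k1 : 2 ≤ nab (J - 1) x := nab_two H (by omega) (a := (co x).1 - 1) (b := (co x).2)
      (a' := (co x).1) (b' := (co x).2 - 1) (by omega) (by omega) (by omega) (by omega) (by omega)
      (by omega) (by omega) (by simp only; omega) (by simp only; omega)
    have k2 := nab_of_eq H.graded hzx.le (l0 := J - 1) (by omega) (by omega) (l := i) (by omega)
    have k3 := nab_upper H l1.le (l := i) (lo := (co x).1 - 3) (hi := (co x).1 + 1) (by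
      intro a ha1 ha2 ha3 ha4
      omega)
    omega
  · rcases Nat.eq_zero_or_pos (co x').1 with hz0 | hz0
    · have k1 := nab_le_add H.graded hzx.le hzx'.le l1 l2 hne.symm g0.le (l := i) (by omega)
      have k2 := nab_upper H l1.le (l := i) (lo := (co x).1 - 3) (hi := (co x).1 - 1) (by
        intro a ha1 ha2 ha3 ha4
        simp only at ha4
        omega)
      have k3 := nab_upper H l2.le (l := i) (lo := 0) (hi := 1) (by
        intro a ha1 ha2 ha3 ha4
        omega)
      omega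
    · have k1 : 2 ≤ nab (J - 1) x' := nab_two H (by omega) (a := (co x').1 - 1) (b := (co x').2)
        (a' := (co x').1) (b' := (co x').2 - 1) (by omega) (by omega) (by omega) (by omega)
        (by omega) (by omega) (by omega) (by simp only; omega) (by simp only; omega)
      have k2 := nab_of_eq H.graded hzx'.le (l0 := J - 1) (by omega) (by omega) (l := i) (by omega)
      have k3 := nab_upper H l2.le (l := i) (lo := (co x').1 - 3) (hi := (co x').1 + 1) (by
        intro a ha1 ha2 ha3 ha4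
        omega)
      omega

/-- counts at the cell next to the fold -/
lemma fold_counts8 {S : Finset (ℕ × ℕ)} {i q s : ℕ} (hSge : ∀ c ∈ S, c.1 ≤ c.2)
    (hS : ∀ s' c', s' ≤ c' → c' < q → (s', c') ∈ S) (hs : s + 1 < q) (hi : i + 3 = 2 * s)
    (hq : q ≤ i + 1) (hr : i + 2 ≤ 2 * q) :
    (i / 2 + q - i - 1) + (S.filter (fun c' => c' ≤ (s, s + 1) ∧ c'.1 + c'.2 = i)).card ≤
        (S.filter (fun c' => c'.1 + c'.2 = i)).card +
          (S.filter (fun c' => c' ≤ (s, s + 1) ∧ c'.1 + c'.2 = i + 1)).card := by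
  classical
  have h1 : (S.filter (fun c' => c' ≤ (s, s + 1) ∧ c'.1 + c'.2 = i)).card ≤ 3 := by
    have h2 : S.filter (fun c' => c' ≤ (s, s + 1) ∧ c'.1 + c'.2 = i) ⊆
        {(s - 4, s + 1), (s - 3, s), (s - 2, s - 1)} := by
      intro p hp
      rw [mem_filter] at hp
      obtain ⟨h3, h4, h5⟩ := hp
      have h6 := hSge p h3
      have h7 : p.1 ≤ s := h4.1
      have h8 : p.2 ≤ s + 1 := h4.2
      rw [mem_insert, mem_insert, mem_singleton]
      by_cases h9 : p.2 = s + 1
      · exact Or.inl (Prod.ext (by simp only; omega) h9)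
      · by_cases h10 : p.2 = s
        · exact Or.inr (Or.inl (Prod.ext (by simp only; omega) h10))
        · exact Or.inr (Or.inr (Prod.ext (by simp only; omega) (by simp only; omega)))
    exact (card_le_card h2).trans (card_le_three)
  have h2 : 2 ≤ (S.filter (fun c' => c' ≤ (s, s + 1) ∧ c'.1 + c'.2 = i + 1)).card := by
    have h3 : ({(s - 3, s + 1), (s - 2, s)} : Finset (ℕ × ℕ)) ⊆
        S.filter (fun c' => c' ≤ (s, s + 1) ∧ c'.1 + c'.2 = i + 1) := by
      intro p hp
      rw [mem_insert, mem_singleton] at hp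
      rw [mem_filter]
      rcases hp with rfl | rfl
      · exact ⟨hS _ _ (by omega) hs, ⟨Nat.sub_le _ _, le_rfl⟩, by simp only; omega⟩
      · exact ⟨hS _ _ (by omega) (by omega), ⟨Nat.sub_le _ _, Nat.le_succ _⟩,
          by simp only; omega⟩
    have h4 := card_le_card h3
    rwa [card_pair (by
      intro h
      have := congrArg Prod.snd h
      simp only at this
      omega)] at h4
  have h3 : i / 2 + q - i ≤ (S.filter (fun c' => c'.1 + c'.2 = i)).card := by
    have h4 : (range (i / 2 + q - i)).image (fun a => (i / 2 - a, i - (i / 2 - a))) ⊆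
        S.filter (fun c' => c'.1 + c'.2 = i) := by
      intro p hp
      rw [mem_image] at hp
      obtain ⟨a, ha, rfl⟩ := hp
      rw [mem_range] at ha
      rw [mem_filter]
      exact ⟨hS _ _ (by omega) (by omega), by simp only; omega⟩
    have h5 := card_le_card h4
    rwa [card_image_of_injOn, card_range] at h5
    intro a ha b hb hab
    rw [mem_coe, mem_range] at ha hb
    simp only [Prod.mk.injEq] at hab
    omega
  omega

/-- TRUNCATED STAIRCASES, distance three, even level, energy eight: order one less -/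
theorem stair_trunc_exc8 {Q : Type u} [Fintype Q] [PartialOrder Q] [DecidableEq Q]
    (co : Q → ℕ × ℕ) (hinj : Function.Injective co) (hge : ∀ x, (co x).1 ≤ (co x).2)
    (hle : ∀ x y : Q, x ≤ y ↔ co y ≤ co x)
    (hlow : ∀ x : Q, ∀ c ≤ co x, c.1 ≤ c.2 → ∃ y, co y = c) {i q J : ℕ} (hq : q ≤ i + 1)
    (hr : i + 2 ≤ 2 * q) (hiJ : J = i + 3) (hJ : 2 * (J / 2) = J)
    (hsub : q = i + 1 ∨ ∀ x, (co x).2 < q)
    (hbase : ∀ s c, s ≤ c → c < q → s + c ≤ J → ∃ x, co x = (s, c)) :
    (1 + X : ℤ[X]) ^ (i / 2 + q - i - 1) ∣ Z Q i 8 := by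
  classical
  have key : ∀ S : Finset (ℕ × ℕ), (∀ c ∈ S, c.1 ≤ c.2) →
      (∀ c ∈ S, ∀ c' ≤ c, c'.1 ≤ c'.2 → c' ∈ S) →
      (∀ s' c', s' ≤ c' → c' < q → (s', c') ∈ S) → (∀ x, co x ∈ S) →
      (∀ c ∈ S, (∀ x, co x ≠ c) → c.1 ≤ c.2 ∧ c.2 < q) →
      (1 + X : ℤ[X]) ^ (i / 2 + q - i) ∣ Z (CelS S) i 8 →
      (1 + X : ℤ[X]) ^ (i / 2 + q - i - 1) ∣ Z Q i 8 := by
    intro S hSge hSlow hS hsubS hadd hd
    refine dvd_complete co hinj hle hsubS (fun x c hc hcS => hlow x c hc (hSge c hcS))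
      (cel_graded conn_shift hSge hSlow (lev_cel_shift hSge hSlow))
      (lev_cel_shift hSge hSlow) ?_ ((pow_dvd_pow _ (Nat.sub_le _ _)).trans hd)
    rintro ⟨s, c⟩ hc hno
    obtain ⟨h1, h1'⟩ := hadd _ hc hno
    simp only at h1 h1'
    have h2 : J < s + c := by
      by_contra hcon
      obtain ⟨x, hx⟩ := hbase s c h1 h1' (by omega)
      exact hno x hx
    have h3 := cone_stair2 (n := 7) hS hq h1 h1' h2 (by omega) (by omega) (by
      unfold Exc
      omega)
    refine ⟨by simp only; omega, by omega, fun h4 => ?_⟩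
    by_cases h5 : c = s + 1 ∧ s + c = J + 1
    · obtain ⟨h5, h6⟩ := h5
      subst h5
      exact fold_counts8 hSge hS h1' (by omega) hq hr
    · have h6 := cone_stair2 (n := 8) hS hq h1 h1' h2 (by omega) (by omega) (by
        unfold Exc
        omega)
      omega
  rcases hsub with hqi | hsub
  · set S : Finset (ℕ × ℕ) := univ.image co ∪ stc q with hSdef
    have hmem : ∀ p, p ∈ S ↔ (∃ x, co x = p) ∨ p ∈ stc q := by
      intro p
      rw [hSdef, mem_union, mem_image]
      simp
    have hSge : ∀ c ∈ S, c.1 ≤ c.2 := by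
      intro c hc
      rcases (hmem c).1 hc with ⟨x, rfl⟩ | h
      · exact hge x
      · exact stc_shift c h
    have hSlow : ∀ c ∈ S, ∀ c' ≤ c, c'.1 ≤ c'.2 → c' ∈ S := by
      intro c hc c' hc' hs
      rw [hmem] at hc ⊢
      rcases hc with ⟨x, rfl⟩ | h
      · exact Or.inl (hlow x c' hc' hs)
      · exact Or.inr (stc_low c h c' hc' hs)
    refine key S hSge hSlow (fun s' c' h h' => (hmem _).2 (Or.inr (mem_stc.2 ⟨h, h'⟩)))
      (fun x => (hmem _).2 (Or.inl ⟨x, rfl⟩)) (fun c hc hno => ?_) ?_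
    · rcases (hmem _).1 hc with ⟨x, hx⟩ | h
      · exact absurd hx (hno x)
      · exact mem_stc.1 h
    · refine dvd_Z_of_dvd_W ?_ 8
      have h1 := Yg.shift_dvd_cell (Q := CelS S) (i := i) cel cel_inj
        (fun x => hSge _ (cel_mem x))
        cel_le (fun x c hc hs => cel_surj (hSlow _ (cel_mem x) c hc hs))
        (cel_surj ((hmem _).2 (Or.inr (mem_stc.2 ⟨by simp only; omega, by simp only; omega⟩))))
      rwa [show i / 2 + q - i = i / 2 + 1 by omega]
  · refine key (stc q) stc_shift stc_low (fun s' c' h h' => mem_stc.2 ⟨h, h'⟩)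
      (fun x => mem_stc.2 ⟨hge x, hsub x⟩) (fun c hc _ => mem_stc.1 hc) ?_
    rw [show i / 2 + q - i = (2 * q - 2 - i) / 2 + 1 by omega]
    exact stair_full hq hr 8

/-- the exceptional energy, all lower sets -/
theorem cln_exc8 (H : Tru t (fun c => c.1 ≤ c.2) co i J (i + 1) q)
    (hr : i + 2 ≤ 2 * q) (h3 : J = i + 3) (hJ : 2 * (J / 2) = J) :
    Cln Q co i J (i + 1) q (i / 2 + q - i - 1) 9 := by
  classical
  intro D hD hRD hDi hDθ n hn
  obtain ⟨h1, h2, h3', h4, h5⟩ := H.sub_facts hD hRD hDθ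
  have hq := H.hq
  have hs : q = i + 1 ∨ ∀ x : {x : Q // x ∉ D}, (co (x : Q)).2 < q := by
    rcases H.qcl with h | h
    · exact Or.inl h
    · exact Or.inr fun x => h x (h1 x)
  by_cases hn8 : n = 8
  · subst hn8
    exact stair_trunc_exc8 (fun x : {x : Q // x ∉ D} => co (x : Q)) h2
      (fun x => H.chart.mem x (mem_loN.2 (h1 x))) h3' h4 H.hq hr h3 hJ hs
      (fun s c hsc hc hJ => h5 s c hsc (by omega) hc hJ)
  · refine (pow_dvd_pow _ (Nat.sub_le _ _)).trans
      (stair_trunc2 (fun x : {x : Q // x ∉ D} => co (x : Q)) h2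
      (fun x => H.chart.mem x (mem_loN.2 (h1 x))) h3' h4 H.hq hr H.hiJ hs
      (fun s c hsc hc hJ => h5 s c hsc (by omega) hc hJ) (by omega) ?_)
    intro s c hsc hc _ hE
    unfold Exc at hE
    omega

/-- STAIRCASES of even level without pendants, distance three, energy eight: order one less -/
theorem even_less8 (H : Tru t (fun c => c.1 ≤ c.2) co i J (i + 1) q) (hr : i + 2 ≤ 2 * q)
    (h3 : J = i + 3) (hJ : 2 * (J / 2) = J) (hN : NoPd co J (i + 1) q) :
    (1 + X : ℤ[X]) ^ (i / 2 + q - i - 1) ∣ Z Q i 8 := by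
  classical
  have hlv := H.lv_stair
  have hle : ∀ z ∈ bdR (hiN Q J), 8 ≤ cst i (hS co i J q) z := by
    intro z hz
    have := cost_even H hN hJ hz
    omega
  have hdrop : ∀ z ∈ (bdR (hiN Q J)).filter (fun z => cst i (hS co i J q) z = 8),
      (1 + X : ℤ[X]) ^ (i / 2 + q - i - 1) ∣ Lt i (hS co i J q) z := by
    intro z hz
    rw [mem_filter] at hz
    have hl := bd_lev' H hz.1
    have h1 : hS co i J q z = 1 := by
      rcases cost_even H hN hJ hz.1 with h | h
      · omega
      · exact h.1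
    obtain ⟨x, hzx, hxl, -, hs, hc, hsc⟩ := free_cover H hz.1 h1
    obtain ⟨x', hzx', hne⟩ := hN z x hl hzx hs hc hsc
    have hg := (cost_one (i := i) hl (by omega) h1 gE (dbl_even H hl hzx hzx' hne hc hJ)).2 (by
      rw [hz.2, h3, Nat.add_sub_cancel_left]
      decide)
    have h2 := drop_even H hl hzx hzx' hne hc hJ h3 hg
    unfold Lt
    refine Dvd.dvd.mul_left (pow_dvd_pow _ ?_) _
    rw [h1]
    omega
  have hsum : (1 + X : ℤ[X]) ^ (i / 2 + q - i - 1) ∣
      ∑ z ∈ (bdR (hiN Q J)).filter (fun z => cst i (hS co i J q) z = 8), Lt i (hS co i J q) z :=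
    dvd_sum hdrop
  have hmain := (H.farT (cln_exc8 H hr h3 hJ)).dvd_lead (n := 8) (by omega) hle
  have h3 := dvd_add hmain hsum
  rwa [sub_add_cancel] at h3

end Pool.Agent.GaussPoset.Nl
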