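import Pool.Agent.W_448nl_h15.NlI

/-!
# MP_448cb3_co: staircases of odd level with one pendant below the element next to the fold
-/

namespace Pool.Agent.GaussPoset.Nl

set_option linter.unusedSectionVars false

open Polynomial Finset OrderDual

universe u

variable {Q : Type u} [Fintype Q] [PartialOrder Q] [DecidableEq Q]
variable {t : Q} {T : ℕ × ℕ → Prop} {co : Q → ℕ × ℕ} {i J p q n : ℕ} {z0 xm : Q}

/-- the doubles of the two kinds correspond to each other -/
theorem card_low_up2 (H : Tru t (fun c => c.1 ≤ c.2) co i J (i + 1) q) {h : Q → ℕ} {z xF : Q}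
    (hz : J < lev z) (h1 : h z = 1) (hzx : z ≤ xF) (hxl : lev xF = J)
    (hnab : nab J z = 1) :
    (LowS i (ez i h z)).card = (EcUpS i (ez i h z)).card := by
  classical
  have hiJ := H.hiJ
  have hzi : i < lev z := by omega
  have hpk := fun x : Q => mem_pk_ez (x := x) H.graded hzi h1
  -- everything above `z` is above `xF`
  have habove : ∀ x, z ≤ x → lev x ≤ J → xF ≤ x := by
    intro x hx hxJ
    obtain ⟨w, hw1, hw2, hw3⟩ := exists_between H.graded hx (l := J) hxJ hz.le
    have hwx : w = xF := by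
      by_contra hne
      have := two_le_nab hw1 hzx hw3 hxl hne
      omega
    rw [← hwx]
    exact hw2
  have hlow : ∀ v ∈ LowS i (ez i h z), lev v ≤ i + 2 := by
    intro v hv
    obtain ⟨x, x', -, hvx, -, hx, -⟩ := mem_LowS.1 hv
    have h2 := H.graded.lev_covBy hvx
    rcases (hpk x).1 hx with h3 | h3 <;> omega
  have hup : ∀ v ∈ EcUpS i (ez i h z), lev v ≤ i := by
    intro v hv
    obtain ⟨x, x', -, hvx, -, hx, -⟩ := mem_UpS.1 hv
    have h2 := H.graded.lev_covBy hvx
    rcases (hpk x).1 hx with h3 | h3 <;> omega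
  have key : (LowS i (ez i h z)).image co =
      (EcUpS i (ez i h z)).image (fun v => ((co v).1 + 1, (co v).2 + 1)) := by
    ext c
    rw [mem_image, mem_image]
    constructor
    · rintro ⟨v, hv, rfl⟩
      have hvl := hlow v hv
      obtain ⟨x, x', hne, hvx, hvx', hx, hx', hr, hr'⟩ := mem_LowS.1 hv
      have g1 := H.graded.lev_covBy hvx
      have g2 := H.graded.lev_covBy hvx'
      have g3 := prd_of_cov H (by omega) hvx
      have g4 := prd_of_cov H (by omega) hvx'
      have g5 : co x ≠ co x' := fun h' =>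
        hne (H.chart.inj x (mem_loN.2 (by omega)) x' (mem_loN.2 (by omega)) h')
      obtain ⟨g6, g7, g8⟩ := prd_two g3 g4 g5
      have m1 : (co x).1 ≤ (co x).2 := H.chart.mem x (mem_loN.2 (by omega))
      have m2 : (co x').1 ≤ (co x').2 := H.chart.mem x' (mem_loN.2 (by omega))
      have lv := H.chart.lev v (mem_loN.2 (by omega))
      obtain ⟨v', hv', hcv'⟩ := H.chart.low v (mem_loN.2 (by omega))
        ((co v).1 - 1, (co v).2 - 1) ⟨Nat.sub_le _ _, Nat.sub_le _ _⟩ (by
          simp only
          rcases g8 with ⟨e1, e2⟩ | ⟨e1, e2⟩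
          · rw [e2] at m2
            simp only at m2
            omega
          · rw [e2] at m1
            simp only at m1
            omega)
      have lv' := H.chart.lev v' hv'
      rw [hcv'] at lv'
      simp only at lv'
      refine ⟨v', ?_, ?_⟩
      · rw [mem_UpS]
        have c1 : x ⋖ v' := by
          refine cov_of_prd H (by omega) (by omega) ?_
          rw [hcv']
          rcases g8 with ⟨e1, e2⟩ | ⟨e1, e2⟩
          · rw [e1]
            exact Or.inr ⟨rfl, by simp only; omega⟩
          · rw [e2]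
            exact Or.inl ⟨by simp only; omega, rfl⟩
        have c2 : x' ⋖ v' := by
          refine cov_of_prd H (by omega) (by omega) ?_
          rw [hcv']
          rcases g8 with ⟨e1, e2⟩ | ⟨e1, e2⟩
          · rw [e2]
            exact Or.inl ⟨by simp only; omega, rfl⟩
          · rw [e1]
            exact Or.inr ⟨rfl, by simp only; omega⟩
        have hrho : ∀ y, y ∈ Pk i (ez i h z) → lev y = lev v' + 1 →
            rho i (ez i h z) y = rho i (ez i h z) v' + 1 := by
          intro y hy hyl
          have r1 := (rho_ez1 (i := i) h1 v').2 (by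
            rcases (hpk y).1 hy with h3 | h3 <;> omega)
          rcases (hpk y).1 hy with ⟨h3, h4⟩ | ⟨h3, h4⟩
          · have r2 := (rho_ez1 (i := i) h1 y).2 (by omega)
            omega
          · have r2 := (rho_ez1 (i := i) h1 y).1 h3 (by omega)
            omega
        exact ⟨x, x', hne, c1, c2, hx, hx', hrho x hx (by omega), hrho x' hx' (by omega)⟩
      · rw [hcv']
        exact Prod.ext (by simp only; omega) (by simp only; omega)
    · rintro ⟨v', hv', rfl⟩
      have hvl := hup v' hv'
      obtain ⟨x, x', hne, hvx, hvx', hx, hx', hr, hr'⟩ := mem_UpS.1 hv'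
      have g1 := H.graded.lev_covBy hvx
      have g2 := H.graded.lev_covBy hvx'
      have g3 := prd_of_cov H (by omega) hvx
      have g4 := prd_of_cov H (by omega) hvx'
      have g5 : co x ≠ co x' := fun h' =>
        hne (H.chart.inj x (mem_loN.2 (by omega)) x' (mem_loN.2 (by omega)) h')
      have g8 := prd_two' g3 g4 g5
      have m1 : (co v').1 ≤ (co v').2 := H.chart.mem v' (mem_loN.2 (by omega))
      have lv' := H.chart.lev v' (mem_loN.2 (by omega))
      -- the cell exists
      have hex : ∃ v, lev v ≤ J ∧ co v = ((co v').1 + 1, (co v').2 + 1) ∧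
          (lev x = i + 1 → z ≤ v) := by
        rcases (hpk x).1 hx with ⟨h3, h4⟩ | ⟨h3, h4⟩
        · obtain ⟨v, hv1, hv2⟩ := H.base ((co v').1 + 1) ((co v').2 + 1) (by simp only; omega)
            (by omega) (by
              rcases H.qcl with hq | hq
              · omega
              · rcases g8 with ⟨e1, e2⟩ | ⟨e1, e2⟩
                · have := hq x' (by omega)
                  rw [e2] at this
                  exact this
                · have := hq x (by omega)
                  rw [e2] at this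
                  exact this) (by omega)
          exact ⟨v, hv1, hv2, fun h' => by omega⟩
        · have h5 : z ≤ x' := by
            rcases (hpk x').1 hx' with ⟨h6, h7⟩ | ⟨h6, h7⟩
            · omega
            · exact h6
          have f1 := (H.chart.le_iff xF (mem_loN.2 (by omega)) x (mem_loN.2 (by omega))).1
            (habove x h3 (by omega))
          have f2 := (H.chart.le_iff xF (mem_loN.2 (by omega)) x' (mem_loN.2 (by omega))).1
            (habove x' h5 (by omega))
          have f3 : (co x).1 ≤ (co xF).1 := f1.1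
          have f4 : (co x).2 ≤ (co xF).2 := f1.2
          have f5 : (co x').1 ≤ (co xF).1 := f2.1
          have f6 : (co x').2 ≤ (co xF).2 := f2.2
          obtain ⟨v, hv1, hv2⟩ := H.chart.low xF (mem_loN.2 (by omega))
            ((co v').1 + 1, (co v').2 + 1) (by
              rcases g8 with ⟨e1, e2⟩ | ⟨e1, e2⟩
              · rw [e1] at f3
                rw [e2] at f6
                exact ⟨f3, f6⟩
              · rw [e1] at f5
                rw [e2] at f4
                exact ⟨f5, f4⟩) (by simp only; omega)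
          refine ⟨v, mem_loN.1 hv1, hv2, fun _ => hzx.trans ?_⟩
          rw [H.chart.le_iff xF (mem_loN.2 (by omega)) v hv1, hv2]
          rcases g8 with ⟨e1, e2⟩ | ⟨e1, e2⟩
          · rw [e1] at f3
            rw [e2] at f6
            exact ⟨f3, f6⟩
          · rw [e1] at f5
            rw [e2] at f4
            exact ⟨f5, f4⟩
      obtain ⟨v, hvJ, hcv, hzv⟩ := hex
      have lv := H.chart.lev v (mem_loN.2 hvJ)
      rw [hcv] at lv
      simp only at lv
      refine ⟨v, ?_, hcv⟩
      rw [mem_LowS]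
      have c1 : v ⋖ x := by
        refine cov_of_prd H hvJ (by omega) ?_
        rw [hcv]
        rcases g8 with ⟨e1, e2⟩ | ⟨e1, e2⟩
        · rw [e1]
          exact Or.inr ⟨rfl, rfl⟩
        · rw [e2]
          exact Or.inl ⟨rfl, rfl⟩
      have c2 : v ⋖ x' := by
        refine cov_of_prd H hvJ (by omega) ?_
        rw [hcv]
        rcases g8 with ⟨e1, e2⟩ | ⟨e1, e2⟩
        · rw [e2]
          exact Or.inl ⟨rfl, rfl⟩
        · rw [e1]
          exact Or.inr ⟨rfl, rfl⟩
      have hrho : ∀ y, y ∈ Pk i (ez i h z) → v ⋖ y → lev y = lev x →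
          rho i (ez i h z) y = rho i (ez i h z) v := by
        intro y hy hvy hyl
        have g9 := H.graded.lev_covBy hvy
        rcases (hpk y).1 hy with ⟨h3, h4⟩ | ⟨h3, h4⟩
        · have r2 := (rho_ez1 (i := i) h1 y).2 (by omega)
          have r1 := (rho_ez1 (i := i) h1 v).2 (fun h' => h3 (h'.1.trans hvy.le))
          omega
        · have r2 := (rho_ez1 (i := i) h1 y).1 h3 (by omega)
          have r1 := (rho_ez1 (i := i) h1 v).1 (hzv (by omega)) (by omega)
          omega
      exact ⟨x, x', hne, c1, c2, hx, hx', hrho x hx c1 rfl, hrho x' hx' c2 (by omega)⟩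
  have i1 : ((LowS i (ez i h z)).image co).card = (LowS i (ez i h z)).card := by
    refine card_image_of_injOn ?_
    intro a ha b hb hab
    have e1 := hlow a ha
    have e2 := hlow b hb
    exact H.chart.inj a (mem_loN.2 (by omega)) b (mem_loN.2 (by omega)) hab
  have i2 : ((EcUpS i (ez i h z)).image (fun v => ((co v).1 + 1, (co v).2 + 1))).card =
      (EcUpS i (ez i h z)).card := by
    refine card_image_of_injOn ?_
    intro a ha b hb hab
    have e1 := hup a ha
    have e2 := hup b hb
    simp only [Prod.mk.injEq] at hab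
    exact H.chart.inj a (mem_loN.2 (by omega)) b (mem_loN.2 (by omega))
      (Prod.ext (by omega) (by omega))
  rw [← i1, ← i2, key]

/-- a staircase of odd level `J`, with one pendant `z0` below the element `xm` next to the fold,
no other pendants below free elements -/
structure Odd0 (t : Q) (co : Q → ℕ × ℕ) (i J q : ℕ) (z0 xm : Q) : Prop where
  H : Tru t (fun c => c.1 ≤ c.2) co i J (i + 1) q
  odd : 2 * (J / 2) + 1 = J
  hq2 : J / 2 + 2 ≤ q
  lx : lev xm = J
  cx : co xm = (J / 2, J / 2 + 1)
  zc : z0 ⋖ xm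
  one : ∀ x, z0 ⋖ x → x = xm
  np : ∀ z x : Q, lev z = J + 1 → z ⋖ x → (co x).2 < q → (co x).1 + (co x).2 = J → z ≠ z0 →
    ∃ x', z ⋖ x' ∧ x' ≠ x
  cz : co z0 = (J / 2 + 1, J / 2 + 1)

/-- the levels below `J` without `z0` -/
noncomputable def RZ (J : ℕ) (z0 : Q) : Finset Q := (hiN Q J).erase z0

lemma mem_RZ {x : Q} : x ∈ RZ J z0 ↔ x ≠ z0 ∧ J < lev x := by
  unfold RZ
  rw [mem_erase, mem_hiN]

lemma not_RZ {x : Q} : x ∉ RZ J z0 ↔ x = z0 ∨ lev x ≤ J := by
  rw [mem_RZ]
  constructor
  · intro h
    by_cases h1 : x = z0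
    · exact Or.inl h1
    · right
      by_contra h2
      exact h ⟨h1, by omega⟩
  · rintro (h | h) ⟨h1, h2⟩
    · exact h1 h
    · omega

open Classical in
/-- the thresholds -/
noncomputable def thZ (i J q : ℕ) (co : Q → ℕ × ℕ) (z0 : Q) (x : Q) : ℕ :=
  if x ∈ RZ J z0 then 0 else thE (i + 1) q co x

lemma thZ_out {x : Q} (h : x ∉ RZ J z0) : thZ i J q co z0 x = thE (i + 1) q co x := by
  unfold thZ
  rw [if_neg h]

lemma thZ_pos {x : Q} (h : 1 ≤ thZ i J q co z0 x) : x ∉ RZ J z0 := by
  intro h1
  unfold thZ at h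
  rw [if_pos h1] at h
  omega

namespace Odd0

variable (O : Odd0 t co i J q z0 xm)
include O

lemma lz : lev z0 = J + 1 := by
  have h1 := O.H.graded.lev_covBy O.zc
  have h2 := O.lx
  omega

lemma lowR {x y : Q} (hxy : x ≤ y) (hy : y ∈ RZ J z0) : x ∈ RZ J z0 := by
  have hz := O.lz
  rw [mem_RZ] at hy ⊢
  have h1 := lev_le_of_le hxy
  refine ⟨?_, by omega⟩
  rintro rfl
  rcases eq_or_lt_of_le hxy with h2 | h2
  · exact hy.1 h2.symm
  · have := lev_strictAnti h2
    omega

lemma upR {x y : Q} (hxy : x ≤ y) (hx : x ∉ RZ J z0) : y ∉ RZ J z0 := fun h => hx (O.lowR hxy h)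

/-- everything above `z0` is above `xm` -/
lemma above {y : Q} (h : z0 ≤ y) : y = z0 ∨ xm ≤ y := by
  rcases eq_or_lt_of_le h with h1 | h1
  · exact Or.inl h1.symm
  · obtain ⟨w, hw, hwy⟩ := exists_covBy_le h1
    rw [← O.one w hw]
    exact Or.inr hwy

/-- the chart off `R` -/
lemma chart : Chart t (fun c => c.1 ≤ c.2) (RZ J z0)ᶜ co := by
  have hz := O.lz
  have hcz := O.cz
  have hcx := O.cx
  have hodd := O.odd
  have CH := O.H.chart
  have cases : ∀ x, x ∈ (RZ J z0)ᶜ → x = z0 ∨ lev x ≤ J := by
    intro x hx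
    rw [mem_compl, not_RZ] at hx
    exact hx
  have sm : ∀ x, lev x ≤ J → (co x).1 + (co x).2 ≤ J := by
    intro x hx
    have := CH.lev x (mem_loN.2 hx)
    omega
  have ml : xm ∈ loN Q J := mem_loN.2 O.lx.le
  refine ⟨?_, ?_, ?_, ?_, ?_, ?_, ?_⟩
  · intro x hx y hxy
    rw [mem_compl] at hx ⊢
    exact O.upR hxy hx
  · intro x hx
    rcases cases x hx with rfl | h
    · exact O.zc.le.trans (CH.le_t xm ml)
    · exact CH.le_t x (mem_loN.2 h)
  · intro x hx y hy hxy
    rcases cases x hx with rfl | h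
    · rcases cases y hy with rfl | h'
      · rfl
      · exfalso
        have := sm y h'
        rw [← hxy, hcz] at this
        simp only at this
        omega
    · rcases cases y hy with rfl | h'
      · exfalso
        have := sm x h
        rw [hxy, hcz] at this
        simp only at this
        omega
      · exact CH.inj x (mem_loN.2 h) y (mem_loN.2 h') hxy
  · intro x hx y hy
    rcases cases x hx with rfl | h
    · rcases cases y hy with rfl | h'
      · exact ⟨fun _ => le_rfl, fun _ => le_rfl⟩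
      · have k1 := CH.le_iff xm ml y (mem_loN.2 h')
        have k2 := sm y h'
        have k3 : (co y).1 ≤ (co y).2 := CH.mem y (mem_loN.2 h')
        constructor
        · intro h1
          rcases O.above h1 with rfl | h2
          · omega
          · have k4 := k1.1 h2
            rw [hcx] at k4
            rw [hcz]
            have k5 : (co y).1 ≤ J / 2 := k4.1
            have k6 : (co y).2 ≤ J / 2 + 1 := k4.2
            exact ⟨by simp only; omega, by simp only; omega⟩
        · intro h1
          rw [hcz] at h1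
          have k5 : (co y).1 ≤ J / 2 + 1 := h1.1
          have k6 : (co y).2 ≤ J / 2 + 1 := h1.2
          refine O.zc.le.trans (k1.2 ?_)
          rw [hcx]
          exact ⟨by simp only; omega, by simp only; omega⟩
    · rcases cases y hy with rfl | h'
      · constructor
        · intro h1
          have := lev_le_of_le h1
          omega
        · intro h1
          exfalso
          have k2 := sm x h
          have k5 : (co y).1 ≤ (co x).1 := h1.1
          have k6 : (co y).2 ≤ (co x).2 := h1.2
          rw [hcz] at k5 k6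
          simp only at k5 k6
          omega
      · exact CH.le_iff x (mem_loN.2 h) y (mem_loN.2 h')
  · intro x hx
    rcases cases x hx with rfl | h
    · rw [hcz]
    · exact CH.mem x (mem_loN.2 h)
  · intro x hx c hc hT
    rcases cases x hx with rfl | h
    · by_cases h1 : c = (J / 2 + 1, J / 2 + 1)
      · exact ⟨x, hx, by rw [hcz, h1]⟩
      · rw [hcz] at hc
        have k5 : c.1 ≤ J / 2 + 1 := hc.1
        have k6 : c.2 ≤ J / 2 + 1 := hc.2
        have k7 : c.1 ≤ J / 2 := by
          by_contra hcon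
          exact h1 (Prod.ext (by simp only; omega) (by simp only; omega))
        obtain ⟨y, hy, hcy⟩ := CH.low xm ml c (by
          rw [hcx]
          exact ⟨k7, k6⟩) hT
        refine ⟨y, ?_, hcy⟩
        rw [mem_compl, not_RZ]
        exact Or.inr (mem_loN.1 hy)
    · obtain ⟨y, hy, hcy⟩ := CH.low x (mem_loN.2 h) c hc hT
      refine ⟨y, ?_, hcy⟩
      rw [mem_compl, not_RZ]
      exact Or.inr (mem_loN.1 hy)
  · intro x hx
    rcases cases x hx with rfl | h
    · rw [hcz, hz]
      simp only
      omega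
    · exact CH.lev x (mem_loN.2 h)

lemma qcl : q = i + 1 ∨ ∀ x, x ∉ RZ J z0 → (co x).2 < q := by
  have h2 := O.hq2
  rcases O.H.qcl with h | h
  · exact Or.inl h
  · right
    intro x hx
    rcases not_RZ.1 hx with rfl | h1
    · rw [O.cz]
      simp only
      omega
    · exact h x h1

lemma mono {x y : Q} (hxy : x ≤ y) (hx : x ∉ RZ J z0) :
    thE (i + 1) q co y ≤ thE (i + 1) q co x := by
  have hy := O.upR hxy hx
  have h1 := (O.chart.le_iff x (mem_compl.2 hx) y (mem_compl.2 hy)).1 hxy
  have h2 : (co y).1 ≤ (co x).1 := h1.1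
  have h3 : (co y).2 ≤ (co x).2 := h1.2
  unfold thE
  omega

lemma lev_pos {x : Q} (hx : x ∉ RZ J z0) (h : 1 ≤ thE (i + 1) q co x) : i < lev x := by
  have h1 := O.chart.lev x (mem_compl.2 hx)
  unfold thE at h
  rcases O.qcl with h3 | h3
  · omega
  · have := h3 x hx
    omega

lemma le_sub {x : Q} (hx : x ∉ RZ J z0) : thE (i + 1) q co x ≤ lev x - i := by
  have h1 := O.chart.lev x (mem_compl.2 hx)
  unfold thE
  rcases O.qcl with h3 | h3
  · omega
  · have := h3 x hx
    omega

/-- cleanness off the lower sets -/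
def ClnZ (Q : Type u) [Fintype Q] [PartialOrder Q] [DecidableEq Q] (co : Q → ℕ × ℕ)
    (i J q : ℕ) (z0 : Q) (b n0 : ℕ) : Prop :=
  ∀ D : Finset Q, (∀ x y, x ≤ y → y ∈ D → x ∈ D) → RZ J z0 ⊆ D → (∀ x ∈ D, i < lev x) →
    (∀ x ∈ D, x ∉ RZ J z0 → 1 ≤ thE (i + 1) q co x) → ∀ n < n0,
      (1 + X : ℤ[X]) ^ b ∣ Z {x : Q // x ∉ D} i n

theorem farT {b n0 : ℕ} (hc : ClnZ Q co i J q z0 b n0) :
    FarT Q i (RZ J z0) b (hcan (RZ J z0) (thZ i J q co z0)) n0 := by
  classical
  have hiJ := O.H.hiJ
  have hR : ∀ x y : Q, x ≤ y → y ∈ RZ J z0 → x ∈ RZ J z0 := fun x y h1 h2 => O.lowR h1 h2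
  have hRl : ∀ x ∈ RZ J z0, i < lev x := by
    intro x hx
    rw [mem_RZ] at hx
    omega
  let DD : Set (Finset Q) := {D | (∀ x y, x ≤ y → y ∈ D → x ∈ D) ∧ RZ J z0 ⊆ D ∧
    (∀ x ∈ D, i < lev x) ∧ ∀ x ∈ D, x ∉ RZ J z0 → 1 ≤ thE (i + 1) q co x}
  have hRD : RZ J z0 ∈ DD := ⟨hR, Subset.refl _, hRl, fun x hx hx2 => absurd hx hx2⟩
  have hbound := dvd_ZB_bounds_lt i ((1 + X : ℤ[X]) ^ b) n0 DD (thZ i J q co z0)
    (fun D hD => hD.1) (fun D hD => hD.2.2.1) (fun x hx => by
      have h1 := thZ_pos hx
      rw [thZ_out h1] at hx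
      exact O.lev_pos h1 hx) (fun D hD n hn => by
      rw [ZB_off hD.1 hD.2.2.1]
      exact hc D hD.1 hD.2.1 hD.2.2.1 hD.2.2.2 n hn) (by
      intro D hD x hx hθ
      have h1 := thZ_pos hθ
      rw [thZ_out h1] at hθ
      have h2 := O.lev_pos h1 hθ
      refine ⟨?_, hD.2.1.trans subset_union_left, ?_, ?_⟩
      · intro a c hac hc
        rw [mem_union, mem_dnf] at hc ⊢
        rcases hc with hc | hc
        · exact Or.inl (hD.1 a c hac hc)
        · exact Or.inr (hac.trans hc)
      · intro a ha
        rw [mem_union, mem_dnf] at ha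
        rcases ha with ha | ha
        · exact hD.2.2.1 a ha
        · exact h2.trans_le (lev_le_of_le ha)
      · intro a ha haJ
        rw [mem_union, mem_dnf] at ha
        rcases ha with ha | ha
        · exact hD.2.2.2 a ha haJ
        · exact hθ.trans (O.mono ha haJ)) (by
      intro D hD x hx hθ y hyx hyD x' hyx' hx'x
      have h1 := thZ_pos hθ
      have hyJ : y ∉ RZ J z0 := fun h => hyD (hD.2.1 h)
      have hx'J : x' ∉ RZ J z0 := O.upR hyx'.le hyJ
      rw [thZ_out h1, thZ_out hx'J]
      have e1 := (O.chart.le_iff y (mem_compl.2 hyJ) x (mem_compl.2 h1)).1 hyx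
      have e2 := (O.chart.le_iff y (mem_compl.2 hyJ) x' (mem_compl.2 hx'J)).1 hyx'.le
      have e3 : ¬ co x ≤ co x' := fun h =>
        hx'x ((O.chart.le_iff x' (mem_compl.2 hx'J) x (mem_compl.2 h1)).2 h)
      have e4 := O.chart.lev y (mem_compl.2 hyJ)
      have e5 := O.chart.lev x' (mem_compl.2 hx'J)
      have e6 := O.H.graded.lev_covBy hyx'
      have e7 : (co x).1 ≤ (co y).1 := e1.1
      have e8 : (co x).2 ≤ (co y).2 := e1.2
      have e9 : (co x').1 ≤ (co y).1 := e2.1
      have e10 : (co x').2 ≤ (co y).2 := e2.2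
      have e11 : ¬ ((co x).1 ≤ (co x').1 ∧ (co x).2 ≤ (co x').2) := e3
      unfold thE
      omega)
  refine ⟨O.H.graded, hRl, ?_, ?_, ?_⟩
  · intro g hg0 hg n hn
    refine dvd_ZB_labels_lt i _ n0 DD (thZ i J q co z0) (fun D hD => hD.1)
      (fun D hD => hD.2.2.1) hbound hRD g hg0 ?_ n hn
    intro y hy x hx hyx
    have h1 : y ∈ bdR (RZ J z0) := mem_filter.mpr ⟨hy, x, hx, hyx⟩
    have h2 := hg y h1
    have h3 := hcan_le (θ := thZ i J q co z0) hx hyx
    omega
  · intro z hz
    obtain ⟨x, -, -, hx⟩ := hcan_spec (θ := thZ i J q co z0) hz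
    omega
  · intro z hz
    obtain ⟨x, hxR, hzx, hx⟩ := hcan_spec (θ := thZ i J q co z0) hz
    have h1 := O.H.graded.lev_covBy hzx
    have h2 := O.le_sub hxR
    rw [thZ_out hxR] at hx
    have h3 := hRl z (mem_filter.mp hz).1
    omega

/-- the shapes are clean -/
theorem cln (hr : i + 2 ≤ 2 * q) {n0 : ℕ} (hn0 : n0 ≤ 2 * (J - i) + 3) :
    ClnZ Q co i J q z0 (i / 2 + q - i) n0 := by
  classical
  intro D hD hRD hDi hDθ n hn
  have hiJ := O.H.hiJ
  have hq := O.H.hq
  have hq2 := O.hq2
  have hodd := O.odd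
  have CH := O.chart
  have h1 : ∀ x : {x : Q // x ∉ D}, (x : Q) ∉ RZ J z0 := fun x h => x.2 (hRD h)
  have hz0 : z0 ∉ D := by
    intro h
    have h2 := hDθ z0 h (not_RZ.2 (Or.inl rfl))
    unfold thE at h2
    rw [O.cz] at h2
    simp only at h2
    omega
  refine stair_trunc2 (fun x : {x : Q // x ∉ D} => co (x : Q)) ?_
    (fun x => CH.mem x (mem_compl.2 (h1 x))) ?_ ?_ hq hr hiJ ?_ ?_ (by omega) ?_
  · intro x y h
    exact Subtype.ext (CH.inj x (mem_compl.2 (h1 x)) y (mem_compl.2 (h1 y)) h)
  · intro x y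
    rw [← CH.le_iff x (mem_compl.2 (h1 x)) y (mem_compl.2 (h1 y))]
    exact Iff.rfl
  · intro x c hc hT
    obtain ⟨y, hy, hcy⟩ := CH.low x (mem_compl.2 (h1 x)) c hc hT
    have h2 : (x : Q) ≤ y := by
      rw [CH.le_iff x (mem_compl.2 (h1 x)) y hy, hcy]
      exact hc
    exact ⟨⟨y, fun h => x.2 (hD _ _ h2 h)⟩, hcy⟩
  · rcases O.qcl with h | h
    · exact Or.inl h
    · exact Or.inr fun x => h x (h1 x)
  · intro s c hsc hc hJ
    obtain ⟨x, hx, hcx⟩ := O.H.base s c hsc (by omega) hc hJ
    refine ⟨⟨x, fun h => ?_⟩, hcx⟩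
    have h2 := hDθ x h (not_RZ.2 (Or.inr hx))
    unfold thE at h2
    rw [hcx] at h2
    simp only at h2
    omega
  · intro s c hsc hc hno hE
    unfold Exc at hE
    rcases hE with ⟨e1, e2, e3⟩ | ⟨e1, e2, e3⟩
    · refine hno ⟨z0, hz0⟩ ?_
      rw [O.cz]
      exact Prod.ext (by simp only; omega) (by simp only; omega)
    · omega

end Odd0

end Pool.Agent.GaussPoset.Nl
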