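import Pool.Agent.W_448nl_h15.NlJ

/-!
# MP_448cb3_co: staircases of odd level, distances three and four
-/

namespace Pool.Agent.GaussPoset.Nl

set_option linter.unusedSectionVars false

open Polynomial Finset OrderDual

universe u

variable {Q : Type u} [Fintype Q] [PartialOrder Q] [DecidableEq Q]
variable {t : Q} {T : ℕ × ℕ → Prop} {co : Q → ℕ × ℕ} {i J p q n : ℕ} {z0 xm : Q}

/-- the canonical labels -/
noncomputable abbrev hZ (co : Q → ℕ × ℕ) (i J q : ℕ) (z0 : Q) : Q → ℕ :=
  hcan (RZ J z0) (thZ i J q co z0)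

lemma cst_congr {h h' : Q → ℕ} {z : Q} (e : h z = h' z) : cst i h z = cst i h' z := by
  unfold cst ez
  rw [e]

namespace Odd0

variable (O : Odd0 t co i J q z0 xm)
include O

/-- the boundary: level `J + 1`, or a child of `z0` -/
lemma bd_cases {z : Q} (hz : z ∈ bdR (RZ J z0)) :
    (lev z = J + 1 ∧ z ≠ z0 ∧ z ∈ bdR (hiN Q J) ∧ hZ co i J q z0 z = hS co i J q z) ∨
      (lev z = J + 2 ∧ z ⋖ z0 ∧ hZ co i J q z0 z = 1) := by
  classical
  obtain ⟨hzR, x, hx, hzx⟩ := mem_filter.1 hz
  have hz2 := mem_RZ.1 hzR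
  have h1 := O.H.graded.lev_covBy hzx
  have hlz := O.lz
  rcases not_RZ.1 hx with rfl | h2
  · right
    refine ⟨by omega, hzx, ?_⟩
    have h3 := hcan_le (θ := thZ i J q co x) hx hzx
    obtain ⟨y, -, -, h4⟩ := hcan_spec (θ := thZ i J q co x) hz
    have h5 : thZ i J q co x x = 0 := by
      rw [thZ_out hx]
      unfold thE
      rw [O.cz]
      have := O.hq2
      have := O.H.hq
      simp only
      omega
    change hcan (RZ J x) (thZ i J q co x) z = 1
    omega
  · left
    refine ⟨by omega, hz2.1, mem_filter.2 ⟨mem_hiN.2 hz2.2, x, ?_, hzx⟩, ?_⟩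
    · rw [mem_hiN]
      omega
    · change sInf _ = sInf _
      congr 1
      ext s
      constructor
      · rintro ⟨y, hy, hzy, rfl⟩
        have h3 := O.H.graded.lev_covBy hzy
        refine ⟨y, ?_, hzy, ?_⟩
        · rw [mem_hiN]
          omega
        · rw [thZ_out hy, thJ_lo (by omega)]
      · rintro ⟨y, hy, hzy, rfl⟩
        have h3 := O.H.graded.lev_covBy hzy
        have hy2 : y ∉ RZ J z0 := not_RZ.2 (Or.inr (by omega))
        refine ⟨y, hy2, hzy, ?_⟩
        rw [thZ_out hy2, thJ_lo (by omega)]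

/-- cost at level `J + 1` -/
lemma cost1 {z : Q} (hz : z ∈ bdR (hiN Q J)) (hne : z ≠ z0) :
    2 * (J - i) + 3 ≤ cst i (hS co i J q) z ∨ 3 * (J - i) ≤ cst i (hS co i J q) z := by
  classical
  have hiJ := O.H.hiJ
  have hl := bd_lev' O.H hz
  rcases Nat.lt_or_ge (hS co i J q z) 2 with h2 | h2
  swap
  · exact Or.inl (cost_label_stair O.H hz h2)
  have h1 : hS co i J q z = 1 := by
    obtain ⟨x, -, -, hx⟩ := hcan_spec (θ := thJ J (i + 1) q co) hz
    change hcan (hiN Q J) (thJ J (i + 1) q co) z < 2 at h2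
    change hcan (hiN Q J) (thJ J (i + 1) q co) z = 1
    omega
  right
  obtain ⟨x, hzx, hxl, -, hs, hc, hsc⟩ := free_cover O.H hz h1
  obtain ⟨x', hzx', hne'⟩ := O.np z x hl hzx hc hsc hne
  have h3 := (cost_one (i := i) hl (by omega) h1 gD (dbl_odd O.H hl hzx hzx' hne' hc O.odd)).1
  obtain ⟨L, hL⟩ : ∃ L, J - i = L + 1 := ⟨J - i - 1, by omega⟩
  rw [hL, sum_gD] at h3
  omega

/-- the elements above `xm` -/
lemma nab_xm : nab J xm = 1 ∧ nab (J - 1) xm = 2 ∧ nab (J - 2) xm = 2 ∧
    3 ≤ nab (J - 3) xm ∧ (J = i + 3 → nab i xm = 3) ∧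
    (J = i + 4 → nab (J - 3) xm = 3 ∧ nab i xm = 3) := by
  have hiJ := O.H.hiJ
  have hodd := O.odd
  have hq := O.H.hq
  have hq2 := O.hq2
  have hcx := O.cx
  have hlx := O.lx
  have c1 : (co xm).1 = J / 2 := by rw [hcx]
  have c2 : (co xm).2 = J / 2 + 1 := by rw [hcx]
  have up : ∀ m lo hi, (∀ a, a ≤ J / 2 → a ≤ J - m → J - m - a ≤ J / 2 + 1 → a ≤ J - m - a →
      lo ≤ a ∧ a < hi) → nab (J - m) xm ≤ hi - lo := by
    intro m lo hi h
    refine nab_upper O.H hlx.le (lo := lo) (hi := hi) ?_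
    intro a h1 h2 h3 h4
    rw [c1] at h1
    rw [c2] at h3
    exact h a h1 h2 h3 h4
  have u0 := up 0 (J / 2) (J / 2 + 1) (by intro a _ _ _ _; omega)
  have u1 := up 1 (J / 2 - 1) (J / 2 + 1) (by intro a _ _ _ _; omega)
  have u2 := up 2 (J / 2 - 2) (J / 2) (by intro a _ _ _ _; omega)
  have u3 := up 3 (J / 2 - 3) (J / 2) (by intro a _ _ _ _; omega)
  have l0 : 1 ≤ nab J xm := one_le_nab hlx.ge
  have l1 : 2 ≤ nab (J - 1) xm := nab_two O.H hlx.le (a := J / 2 - 1) (b := J / 2 + 1)
    (a' := J / 2) (b' := J / 2) (by omega) (by omega) (by omega) (by omega) (by omega) (by omega)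
    (by omega) (by simp only; omega) (by simp only; omega)
  have l2 : 2 ≤ nab (J - 2) xm := nab_two O.H hlx.le (a := J / 2 - 2) (b := J / 2 + 1)
    (a' := J / 2 - 1) (b' := J / 2) (by omega) (by omega) (by omega) (by omega) (by omega)
    (by omega) (by omega) (by simp only; omega) (by simp only; omega)
  have l3 : 3 ≤ nab (J - 3) xm := nab_three O.H hlx.le (a := J / 2 - 3) (b := J / 2 + 1)
    (by omega) (by omega) (by omega) (by omega) (by simp only; omega) (by simp only; omega)
    (by simp only; omega)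
  rw [Nat.sub_zero] at u0
  refine ⟨by omega, by omega, by omega, l3, ?_, ?_⟩
  · intro h
    rw [show J - 3 = i by omega] at u3 l3
    omega
  · intro h
    have u4 := up 4 (J / 2 - 4) (J / 2 - 1) (by intro a _ _ _ _; omega)
    have l4 : 3 ≤ nab (J - 4) xm := nab_three O.H hlx.le (a := J / 2 - 4) (b := J / 2 + 1)
      (by omega) (by omega) (by omega) (by omega) (by simp only; omega) (by simp only; omega)
      (by simp only; omega)
    rw [show J - 4 = i by omega] at u4 l4
    exact ⟨by omega, by omega⟩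

/-- the levels above an only child of `z0` -/
lemma nab_single {z : Q} (hz : lev z = J + 2) (hzz : z ⋖ z0) (h : nab (J + 1) z = 1) {l : ℕ}
    (hl : l ≤ J) : nab l z = nab l xm := by
  have hlz := O.lz
  have h1 := nab_of_single O.H.graded hzz.le (by rw [hlz]; exact h) (l := l) (by omega)
  refine le_antisymm ?_ (nab_mono (hzz.le.trans O.zc.le))
  rw [h1]
  have h2 : nab J z0 ≤ nab J xm := by
    classical
    rw [nab_card, nab_card]
    refine card_le_card fun y hy => ?_
    rw [mem_filter, mem_lv] at hy ⊢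
    refine ⟨hy.1, ?_⟩
    rcases O.above hy.2 with h3 | h3
    · rw [h3] at hy
      omega
    · exact h3
  exact nab_of_eq O.H.graded O.zc.le O.lx.ge h2 hl

/-- cost of a child of `z0` -/
lemma cost2 {z : Q} (hz : lev z = J + 2) (hzz : z ⋖ z0) (h1 : hZ co i J q z0 z = 1) :
    cst i (hZ co i J q z0) z = 1 + (nab (J + 1) z + ∑ m ∈ range (J - i), nab (J - m) z) := by
  have hiJ := O.H.hiJ
  have h2 := cost_one_eq (i := i) (J := J + 1) (h := hZ co i J q z0) hz (by omega) h1
  rw [h2, show J + 1 - i = (J - i) + 1 by omega, Finset.sum_range_succ']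
  rw [Nat.sub_zero, add_comm (nab (J + 1) z)]
  congr 2
  refine Finset.sum_congr rfl fun m _ => ?_
  congr 1
  omega

/-- a second parent -/
lemma two_parents {z : Q} (hz : lev z = J + 2) (hzz : z ⋖ z0) (h : nab (J + 1) z ≠ 1) :
    2 ≤ nab (J + 1) z ∧ 2 ≤ nab J z := by
  classical
  have hlz := O.lz
  have h1 : 1 ≤ nab (J + 1) z := one_le_nab (by omega)
  have h3 : ∃ w, z ≤ w ∧ lev w = J + 1 ∧ w ≠ z0 := by
    by_contra hcon
    push Not at hcon
    apply h
    rw [nab_card, card_eq_one]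
    refine ⟨z0, ?_⟩
    ext y
    rw [mem_filter, mem_lv, mem_singleton]
    exact ⟨fun h => hcon y h.2 h.1, fun h => by rw [h]; exact ⟨hlz, hzz.le⟩⟩
  obtain ⟨w, w1, w2, w3⟩ := h3
  refine ⟨by omega, ?_⟩
  have hxz := hzz.le.trans O.zc.le
  have h4 : ∃ y, w ⋖ y ∧ y ≠ xm := by
    by_cases h5 : w ⋖ xm
    · obtain ⟨x', h6, h7⟩ := O.np w xm w2 h5 (by
        rw [O.cx]
        have := O.hq2
        simp only
        omega) (by
        rw [O.cx]
        have := O.odd
        simp only
        omega) w3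
      exact ⟨x', h6, h7⟩
    · obtain ⟨y, hy, -⟩ := exists_lev_succ (x := w) (k := lev w - 1) (by omega)
      obtain ⟨y', hy', -⟩ := exists_covBy_le hy
      exact ⟨y', hy', fun h6 => h5 (h6 ▸ hy')⟩
  obtain ⟨y, y1, y2⟩ := h4
  have h5 := O.H.graded.lev_covBy y1
  exact two_le_nab (w1.trans y1.le) hxz (by omega) O.lx y2

/-- children of `z0`: only one parent, or expensive -/
lemma cost2_cases {z : Q} (hz : lev z = J + 2) (hzz : z ⋖ z0) (h1 : hZ co i J q z0 z = 1)
    (h34 : J = i + 3 ∨ J = i + 4) :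
    2 * (J - i) + 3 ≤ cst i (hZ co i J q z0) z ∨
      (nab (J + 1) z = 1 ∧ nab J z = 1 ∧ ((J = i + 3 ∧ cst i (hZ co i J q z0) z = 7 ∧
        nab i z = 3 ∧ nab (i + 1) z = 2) ∨
        (J = i + 4 ∧ cst i (hZ co i J q z0) z = 10 ∧ nab i z = 3 ∧ nab (i + 1) z = 3))) := by
  have hc := O.cost2 hz hzz h1
  obtain ⟨x0, x1, x2, x3, x4, x5⟩ := O.nab_xm
  have hxz := hzz.le.trans O.zc.le
  by_cases h : nab (J + 1) z = 1
  · right
    have hs := fun l (hl : l ≤ J) => O.nab_single hz hzz h hl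
    have s0 := hs J le_rfl
    have s1 := hs (J - 1) (by omega)
    have s2 := hs (J - 2) (by omega)
    have s3 := hs (J - 3) (by omega)
    have s4 := hs i (by omega)
    have s5 := hs (i + 1) (by omega)
    refine ⟨h, by omega, ?_⟩
    rcases h34 with h2 | h2
    · left
      have x4' := x4 h2
      rw [show J - i = 3 by omega, Finset.sum_range_succ, Finset.sum_range_succ,
        Finset.sum_range_succ, Finset.sum_range_zero, Nat.sub_zero] at hc
      rw [show J - 2 = i + 1 by omega] at hc s2 x2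
      exact ⟨h2, by omega, by omega, by omega⟩
    · right
      have x5' := x5 h2
      rw [show J - i = 4 by omega, Finset.sum_range_succ, Finset.sum_range_succ,
        Finset.sum_range_succ, Finset.sum_range_succ, Finset.sum_range_zero, Nat.sub_zero] at hc
      rw [show J - 3 = i + 1 by omega] at hc s3 x5'
      exact ⟨h2, by omega, by omega, by omega⟩
  · left
    obtain ⟨n1, n2⟩ := O.two_parents hz hzz h
    have m1 : nab (J - 1) xm ≤ nab (J - 1) z := nab_mono hxz
    have m2 : nab (J - 2) xm ≤ nab (J - 2) z := nab_mono hxz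
    have m3 : nab (J - 3) xm ≤ nab (J - 3) z := nab_mono hxz
    rcases h34 with h2 | h2
    · rw [show J - i = 3 by omega, Finset.sum_range_succ, Finset.sum_range_succ,
        Finset.sum_range_succ, Finset.sum_range_zero, Nat.sub_zero] at hc
      omega
    · rw [show J - i = 4 by omega, Finset.sum_range_succ, Finset.sum_range_succ,
        Finset.sum_range_succ, Finset.sum_range_succ, Finset.sum_range_zero, Nat.sub_zero] at hc
      omega

/-- all costs -/
lemma cost_all {z : Q} (hz : z ∈ bdR (RZ J z0)) (h34 : J = i + 3 ∨ J = i + 4) :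
    2 * (J - i) + 3 ≤ cst i (hZ co i J q z0) z ∨
      (lev z = J + 2 ∧ z ⋖ z0 ∧ hZ co i J q z0 z = 1 ∧
      nab (J + 1) z = 1 ∧ nab J z = 1 ∧ ((J = i + 3 ∧ cst i (hZ co i J q z0) z = 7 ∧
        nab i z = 3 ∧ nab (i + 1) z = 2) ∨
        (J = i + 4 ∧ cst i (hZ co i J q z0) z = 10 ∧ nab i z = 3 ∧ nab (i + 1) z = 3))) := by
  rcases O.bd_cases hz with ⟨h1, h2, h3, h4⟩ | ⟨h1, h2, h3⟩
  · left
    have h5 := O.cost1 h3 h2
    rw [cst_congr (h' := hS co i J q) h4]
    omega
  · rcases O.cost2_cases h1 h2 h3 h34 with h4 | ⟨h4, h5, h6⟩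
    · exact Or.inl h4
    · exact Or.inr ⟨h1, h2, h3, h4, h5, h6⟩

/-- STAIRCASES of odd level, order one less up to `2 (J - i) + 2` -/
theorem less (hT : Two Q) (hr : i + 2 ≤ 2 * q) (h34 : J = i + 3 ∨ J = i + 4) {n : ℕ}
    (hn : n ≤ 2 * (J - i) + 2) : (1 + X : ℤ[X]) ^ (i / 2 + q - i - 1) ∣ Z Q i n := by
  classical
  have hlv := O.H.lv_stair
  have hF := O.farT (O.cln hr (n0 := n + 1) (by omega))
  rw [Z_split i (RZ J z0) (hZ co i J q z0) n]
  refine dvd_add ((pow_dvd_pow _ (Nat.sub_le _ _)).trans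
    (dvd_ND hF.hlev _ n fun g h1 h2 => hF.clean g h1 h2 n (by omega))) ?_
  set Pd := (bdR (RZ J z0)).filter (fun z => cst i (hZ co i J q z0) z ≤ n) with hPd
  have hP : ∀ z ∈ Pd, lev z = J + 2 ∧ z ⋖ z0 ∧ hZ co i J q z0 z = 1 ∧
      nab (J + 1) z = 1 ∧ nab J z = 1 ∧ ((J = i + 3 ∧ cst i (hZ co i J q z0) z = 7 ∧
        nab i z = 3 ∧ nab (i + 1) z = 2) ∨
        (J = i + 4 ∧ cst i (hZ co i J q z0) z = 10 ∧ nab i z = 3 ∧ nab (i + 1) z = 3)) := by
    intro z hz
    rw [hPd, mem_filter] at hz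
    rcases O.cost_all hz.1 h34 with h | h
    · omega
    · exact h
  rw [DG_tm hF.hlev Pd (fun z hz => ⟨(mem_filter.1 hz).1, (hP z hz).2.2.1⟩) (fun z hz hz2 => by
    by_contra hcon
    exact hz2 (mem_filter.2 ⟨hz, by omega⟩))]
  have hK : ∀ z ∈ Pd, i / 2 + q - i - 1 ≤ (Pk i (ez i (hZ co i J q z0) z)).card := by
    intro z hz
    obtain ⟨h0, -, h1, -, -, h3⟩ := hP z hz
    have h4 := pk_ez (i := i) (h := hZ co i J q z0) (z := z) O.H.graded (by omega) (by omega)
    rw [h1] at h4
    omega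
  have hAdm : ∀ z ∈ Pd, Adm i (ez i (hZ co i J q z0) z) := by
    intro z hz
    obtain ⟨h0, -, h1, -⟩ := hP z hz
    exact adm_ez O.H.graded (by omega) (by omega)
  refine dvd_dangerous Pd ?_ ?_
  · intro z hz
    obtain ⟨h0, hzz, h1, hn1, hnJ, h3⟩ := hP z hz
    have hcn : cst i (hZ co i J q z0) z ≤ n := (mem_filter.1 hz).2
    rcases Nat.eq_or_lt_of_le hcn with he | he
    · -- only the cheapest configuration
      refine dvd_sum fun e he2 => dvd_tmZ fun hA => ?_
      rw [mem_filter, mem_piAntidiag] at he2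
      have h5 := fun x => ge_ez hA (show i < lev z by omega) h1 he2.2 x
      have h6 : ∑ x, ez i (hZ co i J q z0) z x = ∑ x, e x := by
        rw [he2.1.1]
        exact he
      have h7 : ez i (hZ co i J q z0) z = e := by
        funext x
        exact (Finset.sum_eq_sum_iff_of_le (fun x _ => h5 x)).1 h6 x (mem_univ x)
      rw [← h7]
      exact hK z hz
    · have hn8 : n = cst i (hZ co i J q z0) z + 1 := by omega
      rw [sum_excite (by omega) h1 hn8]
      refine (pow_dvd_pow _ (hK z hz)).trans ?_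
      exact dvd_sum_up1 hT (hAdm z hz) (no_mix O.H.graded (by omega) h1)
        (card_low_up2 O.H (by omega) h1 (hzz.le.trans O.zc.le) O.lx hnJ)
  · intro z hz z' hz' hne e he h1 h2
    refine dvd_tmZ fun hA => ?_
    obtain ⟨g0, gz, g1, -, -, g3⟩ := hP z hz
    obtain ⟨g0', gz', g1', -, -, g3'⟩ := hP z' hz'
    have hcn : cst i (hZ co i J q z0) z ≤ n := (mem_filter.1 hz).2
    rw [mem_piAntidiag] at he
    have hge := fun x => ge_ez hA (show i < lev z by omega) g1 h1 x
    have h3 : ez i (hZ co i J q z0) z z' = 0 := by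
      unfold ez
      rw [if_neg]
      intro h4
      have := lev_strictAnti (lt_of_le_of_ne h4 hne)
      omega
    rcases Nat.eq_or_lt_of_le hcn with he2 | he2
    · exfalso
      have h6 : ∑ x, ez i (hZ co i J q z0) z x = ∑ x, e x := by
        rw [he.1]
        exact he2
      have h7 := (Finset.sum_eq_sum_iff_of_le (fun x _ => hge x)).1 h6 z' (mem_univ z')
      omega
    have hn8 : n = cst i (hZ co i J q z0) z + 1 := by omega
    obtain ⟨v, hv⟩ := exists_up1 (g := ez i (hZ co i J q z0) z) (e := e) hge (by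
        rw [he.1, hn8]
        rfl)
    have hvz : v = z' := by
      by_contra hcon
      rw [hv] at h2
      unfold up1 at h2
      rw [h3, if_neg (fun h => hcon h.symm)] at h2
      omega
    subst hvz
    have hpk := fun x : Q => mem_pk_ez (x := x) O.H.graded (show i < lev z by omega) g1
    have hno : ∀ x, x ∈ Pk i (ez i (hZ co i J q z0) z) → lev x = J + 1 ∨ lev x = J + 3 →
        False := by
      intro x hx hxl
      rcases (hpk x).1 hx with h3 | h3 <;> omega
    rw [hv] at hA ⊢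
    rcases step_cases hT hA with h3 | ⟨-, h3 | h3 | h3 | h3⟩
    · exact (hK z hz).trans h3
    · exfalso
      obtain ⟨x, x', -, h4, -, h5, -⟩ := h3
      have := O.H.graded.lev_covBy h4
      exact hno x h5 (by omega)
    · exfalso
      obtain ⟨x, x', -, h4, -, h5, -⟩ := h3
      have := O.H.graded.lev_covBy h4
      exact hno x h5 (by omega)
    · exact absurd h3 (no_mix O.H.graded (show i < lev z by omega) g1 v hA).1
    · exact absurd h3 (no_mix O.H.graded (show i < lev z by omega) g1 v hA).2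

end Odd0

/-- staircases of odd level whose element next to the fold is not free -/
theorem odd_small (H : Tru t (fun c => c.1 ≤ c.2) co i J (i + 1) q) (hr : i + 2 ≤ 2 * q)
    (hJ : 2 * (J / 2) + 1 = J) (hq : q ≤ J / 2 + 1) {n : ℕ} (hn : n ≤ 2 * (J - i) + 2) :
    (1 + X : ℤ[X]) ^ (i / 2 + q - i) ∣ Z Q i n := by
  classical
  have hiJ := H.hiJ
  have hq1 := H.hq
  have hcl : Cln Q co i J (i + 1) q (i / 2 + q - i) (n + 1) := by
    intro D hD hRD hDi hDθ n' hn'
    obtain ⟨h1, h2, h3, h4, h5⟩ := H.sub_facts hD hRD hDθ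
    refine stair_trunc2 (fun x : {x : Q // x ∉ D} => co (x : Q)) h2
      (fun x => H.chart.mem x (mem_loN.2 (h1 x))) h3 h4 H.hq hr H.hiJ ?_
      (fun s c hsc hc hJ => h5 s c hsc (by omega) hc hJ) (by omega) ?_
    · rcases H.qcl with h | h
      · exact Or.inl h
      · exact Or.inr fun x => h x (h1 x)
    · intro s c hsc hc _ hE
      unfold Exc at hE
      omega
  refine (H.farT hcl).dvd_of_lt (by omega) fun z hz => ?_
  have hl := bd_lev' H hz
  rcases Nat.lt_or_ge (hS co i J q z) 2 with h2 | h2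
  swap
  · have h3 := cost_label_stair H hz h2
    change n < cst i (hS co i J q) z
    omega
  exfalso
  have h1 : hS co i J q z = 1 := by
    obtain ⟨x, -, -, hx⟩ := hcan_spec (θ := thJ J (i + 1) q co) hz
    change hcan (hiN Q J) (thJ J (i + 1) q co) z < 2 at h2
    change hcan (hiN Q J) (thJ J (i + 1) q co) z = 1
    omega
  obtain ⟨x, hzx, hxl, -, hs, hc, hsc⟩ := free_cover H hz h1
  have hge : (co x).1 ≤ (co x).2 := H.chart.mem x (mem_loN.2 hxl.le)
  omega

end Pool.Agent.GaussPoset.Nl
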