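import Pool.Agent.W_448nl_h15.NlK
import Pool.Agent.W_448wd_h84.WdO

/-!
# MP_448cb3_co, case B: early components at the windows `j - 3`, `j - 4`, order one less up to
`2 (j - i) + 2`
-/

namespace Pool.Agent.GaussPoset.Nl

set_option linter.unusedSectionVars false

open Finset Win Cp Wd

universe u

section congr

variable {Q : Type u} [Fintype Q] [PartialOrder Q] [DecidableEq Q]

/-- only the coordinates down to level `J` matter -/
lemma tru_congr {t : Q} {T : ℕ × ℕ → Prop} {co co' : Q → ℕ × ℕ} {i J p q : ℕ}
    (H : Tru t T co i J p q) (hc : ∀ x, lev x ≤ J → co' x = co x) : Tru t T co' i J p q where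
  graded := H.graded
  chart := by
    have CH := H.chart
    have key : ∀ x, x ∈ loN Q J → co' x = co x := fun x hx => hc x (mem_loN.1 hx)
    refine ⟨CH.up, CH.le_t, ?_, ?_, ?_, ?_, ?_⟩
    · intro x hx y hy h
      rw [key x hx, key y hy] at h
      exact CH.inj x hx y hy h
    · intro x hx y hy
      rw [key x hx, key y hy]
      exact CH.le_iff x hx y hy
    · intro x hx
      rw [key x hx]
      exact CH.mem x hx
    · intro x hx c h1 h2
      rw [key x hx] at h1
      obtain ⟨y, hy, hcy⟩ := CH.low x hx c h1 h2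
      exact ⟨y, hy, by rw [key y hy]; exact hcy⟩
    · intro x hx
      rw [key x hx]
      exact CH.lev x hx
  hp := H.hp
  hq := H.hq
  hiJ := H.hiJ
  pcl := H.pcl.imp id (fun h x hx => by rw [hc x hx]; exact h x hx)
  qcl := H.qcl.imp id (fun h x hx => by rw [hc x hx]; exact h x hx)
  base := by
    intro s c h1 h2 h3 h4
    obtain ⟨x, hx, hcx⟩ := H.base s c h1 h2 h3 h4
    exact ⟨x, hx, by rw [hc x hx]; exact hcx⟩

end congr

variable {P : Type u} [Fintype P] [PartialOrder P] [DecidableEq P] {r i j J n : ℕ} {S : Finset P}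
variable {t : Tops P} {lo hi : ℕ → ℕ} {e : ℕ → ℕ → P}

/-- an element which is no pendant has another cover -/
lemma other_cover (E : Ext P i J (t : P) S) (H : Gr P r) (hJr : J + 1 ≤ r) {z x : PQ S}
    (hz : lev z = J + 1) (hzx : z ⋖ x) (hp : (z : P) ∉ pen (x : P)) : ∃ x', z ⋖ x' ∧ x' ≠ x := by
  classical
  have hzxP : (z : P) ⋖ (x : P) := (cov_PQ E.part).1 hzx
  have hlz : lev (z : P) = J + 1 := by rw [← lev_PQ E.part]; exact hz
  have h7 : (Win.uc (z : P)).card ≠ 1 := fun h8 => hp (mem_pen.2 ⟨hzxP, h8⟩)
  have h8 : (Win.uc (z : P)).card = 2 := by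
    rcases uc_card_cases H (x := (z : P)) (by omega) with h9 | h9
    · exact absurd h9 h7
    · exact h9
  obtain ⟨v, hv, hne⟩ := exists_other_uc (y := (x : P)) h8
  refine ⟨⟨v, part_up E.part z.2 hv.le⟩, (cov_PQ E.part).2 hv, ?_⟩
  intro h9
  exact hne (congrArg Subtype.val h9)

/-- the index of an element of the last row -/
lemma idx (E : Ext P i J (t : P) S) (C : Cp.Comp J (t : P) lo hi e) {x : PQ S} (hx : lev x = J) :
    lo J ≤ (ccoord lo hi e (x : P)).1 ∧ (ccoord lo hi e (x : P)).1 ≤ hi J ∧
      e J (ccoord lo hi e (x : P)).1 = (x : P) := by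
  have hlx : lev (x : P) = J := by rw [← lev_PQ E.part]; exact hx
  have hxt : (x : P) ≤ t := (E.mem x (by omega)).1 x.2
  obtain ⟨h1, h2, h3⟩ := scoord_spec C hxt (by omega)
  rw [hlx] at h1 h2 h3
  exact ⟨h1, h2, h3⟩

lemma not_LCO (hlo : ∀ k, k < j → lo (k + 1) = 0 ∨ lo (k + 1) = lo k + 1) :
    ¬ LCO lo hi (j - 1) := by
  rintro ⟨h1, h2, h3, -⟩
  have h4 := hlo (j - 1 - 1) (by omega)
  rw [show j - 1 - 1 + 1 = j - 1 by omega] at h4
  omega

/-- RECTANGLES: no pendants below the doubles -/
lemma NJ.rect_pen (h : NJ P r j) (C : Cp.Comp j (t : P) lo hi e) (R : RectShape j lo hi)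
    (hj : 2 ≤ j) {a : ℕ} (h1 : lo (j - 1) < a) (h2 : a ≤ hi (j - 1)) : pen (e j a) = ∅ := by
  have h3 := NJ.s5c h hj C
  have h4 := not_LCO (hi := hi) R.lo
  have h5 : ¬ RCO lo hi (j - 1) := by
    rintro ⟨g1, g2, g3, -⟩
    have g4 := R.hi (j - 1 - 1) (by omega)
    have g5 := C.hi_le (k := j - 1 - 2) (by omega)
    rw [show j - 1 - 1 + 1 = j - 1 by omega] at g4
    omega
  rcases h3 with ⟨-, -, h6⟩ | ⟨h6, -⟩ | ⟨h6, -⟩
  · have := h6 a h1 h2
    rw [show j - 1 + 1 = j by omega] at this
    exact card_eq_zero.1 this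
  · exact absurd h6 h4
  · exact absurd h6 h5

/-- RECTANGLES -/
theorem NJ.rect_clean (h : NJ P r j) (C : Cp.Comp j (t : P) lo hi e) (R : RectShape j lo hi)
    (h3 : i + 3 ≤ j) (hn : n ≤ 2 * (j - i) + 2) :
    dd ^ (st i (SS i t)).card ∣ ZC i (SS i t) n := by
  have E := SS_ext h.g (show i ≤ j by omega) t
  have hr := h.hr
  have h1 := C.hi_le (k := i) (by omega)
  have h2 := C.lo_le i (by omega)
  refine dvd_ZC_of h.g.H (by omega) E.part ?_
  have hTr := tru_rect E h.g.H h.g.good C R h3
  have h4 := rect_clean3 (n := n) hTr (by omega) (by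
    intro z x hz hzx hs hc hsc
    have hlx : lev x = j := by
      have := hTr.graded.lev_covBy hzx
      omega
    obtain ⟨k1, k2, k3⟩ := idx E C hlx
    refine other_cover E h.g.H hr hz hzx ?_
    rw [← k3]
    generalize (ccoord lo hi e (x : P)).1 = a at *
    generalize (ccoord lo hi e (x : P)).2 = b at *
    have g1 := R.lo (j - 1) (by omega)
    have g2 := R.hi (j - 1) (by omega)
    have g3 := C.lo_step (j - 1) (by omega)
    rw [show j - 1 + 1 = j by omega] at g1 g2 g3
    have g4 := C.hi_step (j - 1) (by omega)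
    rw [show j - 1 + 1 = j by omega] at g4
    rw [NJ.rect_pen h C R (by omega) (a := a) (by omega) (by omega)]
    exact notMem_empty _) hn
  rw [card_st_ext E C (by omega)]
  rwa [show hi i + 1 + (i - lo i + 1) - 1 - i = hi i + 1 - lo i by omega] at h4

/-- STAIRCASES, even level: no pendants -/
lemma NJ.stair_pen_even (h : NJ P r j) (C : Cp.Comp j (t : P) lo hi e) (R : StairShape j lo hi)
    (hj : 2 ≤ j) (hev : 2 * (j / 2) = j) {a : ℕ} (h1 : lo (j - 1) < a) (h2 : a ≤ hi (j - 1)) :
    pen (e j a) = ∅ := by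
  have h3 := NJ.s5c h hj C
  have h4 := not_LCO (hi := hi) R.lo
  have h5 : ¬ RCO lo hi (j - 1) := by
    rintro ⟨g1, g2, g3, -⟩
    have g4 := R.hi (j - 1 - 1) (by omega)
    have g5 := R.hi (j - 1 - 2) (by omega)
    omega
  rcases h3 with ⟨-, -, h6⟩ | ⟨h6, -⟩ | ⟨h6, -⟩
  · have := h6 a h1 h2
    rw [show j - 1 + 1 = j by omega] at this
    exact card_eq_zero.1 this
  · exact absurd h6 h4
  · exact absurd h6 h5

/-- STAIRCASES, odd level: one pendant, below the element next to the fold -/
lemma NJ.stair_pen_odd (h : NJ P r j) (C : Cp.Comp j (t : P) lo hi e) (R : StairShape j lo hi)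
    (hj : 7 ≤ j) (hod : 2 * (j / 2) + 1 = j) (hl : lo (j - 1) < j / 2) :
    (pen (e j (j / 2))).card = 1 ∧ ∀ a, lo (j - 1) < a → a < j / 2 → pen (e j a) = ∅ := by
  have h3 := NJ.s5c h (by omega) C
  have h4 := not_LCO (hi := hi) R.lo
  have e1 := R.hi (j - 1) (by omega)
  have e2 := R.hi (j - 1 - 1) (by omega)
  have e3 := R.hi (j - 1 - 2) (by omega)
  have e4 := R.hi (j - 2) (by omega)
  have h5 : RCO lo hi (j - 1) := ⟨by omega, by omega, by omega, by omega⟩
  rcases h3 with ⟨-, h6, -⟩ | ⟨h6, -⟩ | ⟨-, -, b, hb, h6⟩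
  · exact absurd h5 h6
  · exact absurd h6 h4
  · rw [show j - 1 + 1 = j by omega] at h6
    have hb2 : b = j / 2 := by
      rcases hb with hb | ⟨hb, hb'⟩
      · omega
      · exfalso
        have g1 := R.lo (j - 2) (by omega)
        have g2 := C.lo_step (j - 2) (by omega)
        rw [show j - 2 + 1 = j - 1 by omega] at g1 g2
        have g3 := NJ.pen_three h (i := j - 2) (by omega) (by omega) C (a := b) (by omega) (by omega)
        rw [show j - 2 + 2 = j by omega] at g3
        have g4 := h6 b (by omega) (by omega)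
        rw [if_pos rfl, g3, card_empty] at g4
        omega
    subst hb2
    refine ⟨?_, fun a h7 h8 => ?_⟩
    · have := h6 (j / 2) (by omega) (by omega)
      rwa [if_pos rfl] at this
    · have := h6 a h7 (by omega)
      rw [if_neg (by omega)] at this
      exact card_eq_zero.1 this

/-- STAIRCASES -/
theorem NJ.stair_less (h : NJ P r j) (C : Cp.Comp j (t : P) lo hi e) (R : StairShape j lo hi)
    (h34 : j = i + 3 ∨ j = i + 4) (hn : n ≤ 2 * (j - i) + 2) :
    dd ^ ((st i (SS i t)).card - 1) ∣ ZC i (SS i t) n := by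
  classical
  have E := SS_ext h.g (show i ≤ j by omega) t
  have hr := h.hr
  have h1 := R.hi i (by omega)
  have h2 := C.lo_le i (by omega)
  refine dvd_ZC_of h.g.H (by omega) E.part ?_
  have hTr := tru_stair E h.g.H h.g.good C R (show i + 3 ≤ j by omega)
  rw [card_st_ext E C (by omega)]
  rw [show hi i + 1 - lo i - 1 = i / 2 + (i - lo i + 1) - i - 1 by omega]
  have hiJ := hTr.hiJ
  have g1 := R.lo (j - 1) (by omega)
  have g3 := C.lo_step (j - 1) (by omega)
  rw [show j - 1 + 1 = j by omega] at g1 g3
  have g5 := R.hi (j - 1) (by omega)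
  have g6 := R.hi j le_rfl
  by_cases hev : 2 * (j / 2) = j
  · -- even level
    have hN : NoPd (fun x : PQ (SS i t) => ccoord lo hi e (x : P)) j (i + 1) (i - lo i + 1) := by
      intro z x hz hzx hs hc hsc
      have hlx : lev x = j := by
        have := hTr.graded.lev_covBy hzx
        omega
      obtain ⟨k1, k2, k3⟩ := idx E C hlx
      refine other_cover E h.g.H hr hz hzx ?_
      rw [← k3]
      generalize (ccoord lo hi e (x : P)).1 = a at *
      generalize (ccoord lo hi e (x : P)).2 = b at *
      rcases Nat.lt_or_ge a (j / 2) with h5 | h5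
      · rw [NJ.stair_pen_even h C R (by omega) hev (a := a) (by omega) (by omega)]
        exact notMem_empty _
      · have h6 : a = hi j := by omega
        have h7 := NJ.fold_aux h C R (by omega) hev
        rw [h6, h7]
        exact notMem_empty _
    rcases h34 with h4 | h4
    · rcases Nat.lt_or_ge n 8 with h5 | h5
      · exact (pow_dvd_pow _ (Nat.sub_le _ _)).trans
          (even_clean3 hTr (by omega) h4 hev hN (by omega))
      · obtain rfl : n = 8 := by omega
        exact even_less8 hTr (by omega) h4 hev hN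
    · exact (pow_dvd_pow _ (Nat.sub_le _ _)).trans
        (even_clean4 hTr (by omega) (by omega) hev hN (by omega))
  · -- odd level
    have hod : 2 * (j / 2) + 1 = j := by omega
    rcases Nat.lt_or_ge (i - lo i + 1) (j / 2 + 2) with hq | hq
    · exact (pow_dvd_pow _ (Nat.sub_le _ _)).trans
        (odd_small hTr (by omega) hod (by omega) hn)
    · have hl : lo (j - 1) < j / 2 := by
        have s1 := C.lo_step i (by omega)
        have s2 := C.lo_step (i + 1) (by omega)
        have s3 := C.lo_step (i + 2) (by omega)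
        rw [show i + 1 + 1 = i + 2 by omega] at s2
        rw [show i + 2 + 1 = i + 3 by omega] at s3
        rcases h34 with h4 | h4
        · rw [show j - 1 = i + 2 by omega]
          omega
        · rw [show j - 1 = i + 3 by omega]
          omega
      obtain ⟨p1, p2⟩ := NJ.stair_pen_odd h C R (by omega) hod hl
      obtain ⟨z, hz⟩ := card_eq_one.1 p1
      have hzp : z ∈ pen (e j (j / 2)) := by rw [hz]; exact mem_singleton_self z
      have hlm := C.lev_e j (j / 2) le_rfl (by omega) (by omega)
      have hlt := C.le_t j (j / 2) le_rfl (by omega) (by omega)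
      have hzc := (mem_pen.1 hzp).1
      have hlz : lev z = j + 1 := by
        have := lev_cov h.g.H hzc
        omega
      have hzS : z ∈ SS i t := (h.mem (by omega) t (by omega)).2 (hzc.le.trans hlt)
      have hmS : e j (j / 2) ∈ SS i t := (h.mem (by omega) t (by omega)).2 hlt
      have hcm : ccoord lo hi e (e j (j / 2)) = (j / 2, j / 2 + 1) := by
        have k := scoord_spec C hlt (by omega)
        rw [hlm] at k
        have k4 := C.inj j _ (j / 2) le_rfl k.1 k.2.1 (by omega) (by omega) k.2.2
        unfold ccoord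
        rw [k4, hlm]
        exact Prod.ext rfl (by simp only; omega)
      set z0 : PQ (SS i t) := ⟨z, hzS⟩ with hz0
      set xm : PQ (SS i t) := ⟨e j (j / 2), hmS⟩ with hxm
      have hlz0 : lev z0 = j + 1 := by rw [lev_PQ E.part]; exact hlz
      have hlxm : lev xm = j := by rw [lev_PQ E.part]; exact hlm
      set co' : PQ (SS i t) → ℕ × ℕ :=
        Function.update (fun x : PQ (SS i t) => ccoord lo hi e (x : P)) z0
          (j / 2 + 1, j / 2 + 1) with hco
      have hagree : ∀ x : PQ (SS i t), lev x ≤ j → co' x = ccoord lo hi e (x : P) := by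
        intro x hx
        rw [hco, Function.update_of_ne]
        rintro rfl
        omega
      have O : Odd0 (topQ E) co' i j (i - lo i + 1) z0 xm := by
        refine ⟨tru_congr hTr hagree, hod, hq, hlxm, ?_, (cov_PQ E.part).2 hzc, ?_, ?_, ?_⟩
        · rw [hagree xm hlxm.le]
          exact hcm
        · intro x hx
          have h5 := (cov_PQ E.part).1 hx
          have h6 : (x : P) ∈ uc z := mem_uc.2 h5
          rw [pen_uc hzp, mem_singleton] at h6
          exact Subtype.ext h6
        · intro z' x hz' hzx hc hsc hne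
          have hlx : lev x = j := by
            have := hTr.graded.lev_covBy hzx
            omega
          rw [hagree x hlx.le] at hc hsc
          obtain ⟨k1, k2, k3⟩ := idx E C hlx
          refine other_cover E h.g.H hr hz' hzx ?_
          rw [← k3]
          generalize (ccoord lo hi e (x : P)).1 = a at *
          generalize (ccoord lo hi e (x : P)).2 = b at *
          rcases Nat.lt_or_ge a (j / 2) with h5 | h5
          · rw [p2 a (by omega) h5]
            exact notMem_empty _
          · have h6 : a = j / 2 := by omega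
            rw [h6, hz, mem_singleton]
            intro h7
            exact hne (Subtype.ext h7)
        · rw [hco, Function.update_self]
      exact O.less (two_PQ h.g.H E.part) (by omega) h34 hn

/-- CASE B, EARLY COMPONENTS at the windows `j - 3`, `j - 4`: order one less up to `2 (j - i) + 2` -/
theorem NJ.less34 (h : NJ P r j) (C : Cp.Comp j (t : P) lo hi e) (R : Early j lo hi)
    (h34 : j = i + 3 ∨ j = i + 4) (hn : n ≤ 2 * (j - i) + 2) :
    dd ^ ((st i (SS i t)).card - 1) ∣ ZC i (SS i t) n := by
  rcases R with R | R | R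
  · exact (pow_dvd_pow _ (Nat.sub_le _ _)).trans (NJ.rect_clean h C R (by omega) hn)
  · exact NJ.stair_less h C R h34 hn
  · exact NJ.stair_less h (comp_swap C) R h34 hn

end Pool.Agent.GaussPoset.Nl
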