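import Pool.Agent.W_448nl_h15.NlF
import Pool.Agent.W_448nl_h15.NlL

/-!
# MP_448cb3_co, case B: the identities `(4,1)(j - 3)` and `(5,1)(j - 4)`, up to the values of the late
components with three sites
-/

namespace Pool.Agent.GaussPoset.Nl

set_option linter.unusedSectionVars false

open Finset Win Cp Wd Win.I2

universe u

variable {P : Type u} [Fintype P] [PartialOrder P] [DecidableEq P] {r i j a n : ℕ}
variable {t : Tops P} {lo hi : ℕ → ℕ} {e : ℕ → ℕ → P}

section late

def B45 (a n : ℕ) : Prop := ∀ w ∈ lateW a, ∀ m, m < 12 → m + n = w.length + 1 →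
  Hw w (m + 3) ≤ Lw w (m + 3) + 1 ∨ (m = 4 ∧ Hw w (m + 3) = Lw w (m + 3) + 2 ∧ (n = 5 → a = 4))

instance (a n : ℕ) : Decidable (B45 a n) := by unfold B45; infer_instance

lemma B45_4 : B45 3 4 ∧ B45 4 4 ∧ B45 5 4 ∧ B45 6 4 ∧ B45 8 4 := by decide +kernel
lemma B45_5 : B45 3 5 ∧ B45 4 5 ∧ B45 5 5 ∧ B45 6 5 ∧ B45 8 5 := by decide +kernel

/-- late components at the windows `j - 3`, `j - 4`: at most two sites, or three sites at `a + 4` -/
lemma late_b45 (C : Cp.Comp j (t : P) lo hi e) (D : LateD j a lo hi) (hn : n = 4 ∨ n = 5)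
    (hin : i + n = j + 1) : hi i ≤ lo i + 1 ∨
      (i = a + 4 ∧ hi i = lo i + 2 ∧ (n = 5 → a = 4)) := by
  rcases Nat.lt_or_ge i a with h1 | h1
  · left
    have := D.h2 i h1
    omega
  obtain ⟨m, rfl⟩ : ∃ m, i = a + m := ⟨i - a, by omega⟩
  have h3 := D.h0
  obtain ⟨e1, e2⟩ := Lw_of_trunk C D.h0 D.h1 D.h2 D.h3 (m + 3) (by omega)
  rw [show a - 3 + (m + 3) = a + m by omega] at e1 e2
  rcases D.h4 with ⟨h4, h5⟩ | h4
  · left
    rcases Nat.eq_zero_or_pos m with rfl | h6
    · have := D.h3
      rw [Nat.add_zero]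
      omega
    · have := D.quad C h5 m h6 (by omega)
      omega
  · have key : B45 a n → hi (a + m) ≤ lo (a + m) + 1 ∨
      (a + m = a + 4 ∧ hi (a + m) = lo (a + m) + 2 ∧ (n = 5 → a = 4)) := by
      intro hB
      have hl : (word lo hi a (j - a)).length = j - a := by
        unfold word
        rw [List.length_map, List.length_range]
      have hlen := late_len_all h4
      rw [hl] at hlen
      rcases hB _ h4 m (by omega) (by rw [hl]; omega) with h6 | ⟨rfl, h7, h8⟩
      · left
        omega
      · right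
        exact ⟨rfl, by omega, h8⟩
    rcases Nat.lt_or_ge a 7 with h6 | h6
    · obtain rfl | rfl | rfl | rfl : a = 3 ∨ a = 4 ∨ a = 5 ∨ a = 6 := by omega
      · rcases hn with rfl | rfl
        · exact key B45_4.1
        · exact key B45_5.1
      · rcases hn with rfl | rfl
        · exact key B45_4.2.1
        · exact key B45_5.2.1
      · rcases hn with rfl | rfl
        · exact key B45_4.2.2.1
        · exact key B45_5.2.2.1
      · rcases hn with rfl | rfl
        · exact key B45_4.2.2.2.1
        · exact key B45_5.2.2.2.1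
    · have hB8 : B45 8 n := by
        rcases hn with rfl | rfl
        · exact B45_4.2.2.2.2
        · exact B45_5.2.2.2.2
      have hB : B45 a n := by
        intro w hw m hm hm2
        rw [lateW_large h6] at hw
        rcases hB8 w hw m hm hm2 with h7 | ⟨h7, h8, h9⟩
        · exact Or.inl h7
        · exact Or.inr ⟨h7, h8, fun h => absurd (h9 h) (by omega)⟩
      exact key hB

end late

/-- the values of the late components with three sites: `m = 7, 8` for `n = 4`, `7 ≤ m ≤ 10` for
`n = 5` -/
def L3V (P : Type u) [Fintype P] [PartialOrder P] [DecidableEq P] (j n : ℕ) : Prop :=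
  ∀ {a : ℕ} {t : Tops P} {lo hi : ℕ → ℕ} {e : ℕ → ℕ → P}, Cp.Comp j (t : P) lo hi e →
    LateD j a lo hi → a + 3 + n = j → hi (a + 4) = lo (a + 4) + 2 → (n = 5 → a = 4) →
    ∀ m, 7 ≤ m → m ≤ 2 * n → be m 3 (ZS (a + 4) (SS (a + 4) t)) = 0

/-- CASE B, THE IDENTITIES `E = 4, 5` of the last level -/
theorem NJ.cln45 (I : SO P r) (V : EV P r) (h : NJ P r j) (hn : n = 4 ∨ n = 5) (hi1 : 1 ≤ i)
    (hin : i + n = j + 1) (hV : L3V P j n) : Wd.Cln P i n := by
  have hr := h.hr
  have hlo : ∀ t : Tops P, ∀ m, m < n → dd ^ (st i (SS i t)).card ∣ ZC i (SS i t) m := by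
    intro t m hm
    rcases Nat.eq_zero_or_pos m with rfl | h0
    · rw [ZC_zero h.g.H (by omega)]
    · exact cln_all I V h.g hi1 h0 (by omega) (by omega) t
  have hP : ∀ t : Tops P, Part i (SS i t) := fun t => SS_part h.g (by omega) (by omega) t
  have small : ∀ t : Tops P, (st i (SS i t)).card ≤ 2 →
      Prof n (2 * n) (st i (SS i t)).card (ZS i (SS i t)) ∧
        be (2 * n) (st i (SS i t)).card (ZS i (SS i t)) = 0 :=
    fun t hb => ⟨prof_small h.g.H (hP t) hb (hlo t) _, be_zero_small h.g.H (hP t) hb _⟩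
  have early : ∀ (t : Tops P) lo hi e, Cp.Comp j (t : P) lo hi e → Early j lo hi →
      Prof n (2 * n) (st i (SS i t)).card (ZS i (SS i t)) ∧
        be (2 * n) (st i (SS i t)).card (ZS i (SS i t)) = 0 := by
    intro t lo hi e C R
    have hless := fun m (hm : m ≤ 2 * n) => NJ.less34 (n := m) h C R
      (show j = i + 3 ∨ j = i + 4 by omega) (by omega)
    refine ⟨⟨?_, ?_, ?_⟩, ?_⟩
    · intro k hk
      rw [coeff_ZS]
      exact hlo t k hk
    · intro k hk
      rw [coeff_ZS]
      refine (pow_dvd_pow dd (show (st i (SS i t)).card ≤ 1 + ((st i (SS i t)).card - 1)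
        by omega)).trans ?_
      rw [pow_add, pow_one]
      exact mul_dvd_mul_left _ (hless k hk.le)
    · rw [coeff_ZS]
      refine (pow_dvd_pow dd (show (st i (SS i t)).card ≤ 2 + ((st i (SS i t)).card - 1)
        by omega)).trans ?_
      rw [pow_add]
      exact mul_dvd_mul_left _ (hless _ le_rfl)
    · refine be_of_mid ?_
      rw [coeff_ZS]
      refine (pow_dvd_pow dd (show (st i (SS i t)).card ≤ 1 + ((st i (SS i t)).card - 1)
        by omega)).trans ?_
      rw [pow_add, pow_one]
      exact mul_dvd_mul_left _ (hless _ le_rfl)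
  have main : ∀ t : Tops P, Prof n (2 * n) (st i (SS i t)).card (ZS i (SS i t)) ∧
        be (2 * n) (st i (SS i t)).card (ZS i (SS i t)) = 0 := by
    intro t
    obtain ⟨lo, hi, e, C, hS⟩ := shape_all I V h.g t
    have hcard := h.card_SS (show i ≤ j by omega) C
    rcases hS with hl | ⟨-, hR⟩ | ⟨-, hR⟩ | ⟨h0, -, -⟩ | ⟨h0, hF⟩ | ⟨a, h0, h1, h2, h3, hN, h4⟩
    · have := hl i (by omega)
      exact small t (by omega)
    · exact early t lo hi e C (Or.inl hR)
    · exact early t lo hi e C (Or.inr (Or.inl hR))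
    · omega
    · obtain ⟨⟨f0, f1, f2, f3, f4, f5, f6⟩, ⟨g0, g1, g2, g3, g4, g5, g6⟩⟩ := hF
      obtain rfl | rfl : i = 2 ∨ i = 3 := by omega
      · exact small t (by omega)
      · exact small t (by omega)
    · rcases late_b45 C ⟨h0, h1, h2, h3, h4⟩ hn hin with h5 | ⟨rfl, h5, h6⟩
      · exact small t (by omega)
      · have hcl : (st (a + 4) (SS (a + 4) t)).card = 3 := by
          rw [hcard]
          omega
        have hbe : ∀ m, n ≤ m → m ≤ 2 * n → be m 3 (ZS (a + 4) (SS (a + 4) t)) = 0 := by
          intro m h7 h8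
          rcases Nat.lt_or_ge m 5 with hm5 | hm5
          · have k1 := prof35 h.g.H (by omega) (show a + 4 + 2 ≤ j by omega)
              (fun m _ hm => h.g.good m (by omega)) (split_gt h.g) (mem_tops t)
            rw [bb_eq h.g (by omega), VV_eq h.g (by omega)] at k1
            rw [← hcl]
            exact be_of_mid (k1.mid m (by omega))
          rcases Nat.lt_or_ge m 7 with hm7 | hm7
          · obtain rfl | rfl : m = 5 ∨ m = 6 := by omega
            · have := h.be5_all hi1 (by omega) t
              rwa [hcl] at this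
            · have k1 := (h.vals hi1 (by omega) C).2
              obtain ⟨-, k2, k3⟩ := h.law hi1 (by omega) C
              rw [hcl, k2, k3, card_empty] at k1
              rw [k1]
              norm_num
          · exact hV C ⟨h0, h1, h2, h3, h4⟩ (by omega) h5 h6 m hm7 h8
        refine ⟨prof_three h.g.H (hP t) hcl (hlo t) ?_, ?_⟩
        · intro m hm hm2
          rw [hcl]
          exact hbe m (by omega) (by omega)
        · rw [hcl]
          exact hbe _ (by omega) (by omega)
  exact NJ.stage h (by omega) hin (fun t => (main t).1) (fun t => (main t).2.le)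

end Pool.Agent.GaussPoset.Nl
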