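import Pool.Agent.W_448nl_h15.NlM
import Pool.Agent.W_448nl_h15.NlG

/-!
# MP_448cb3_co, case B: the first order value `(E,1)(a)` of the late components, `E = j + 1 - a`

`a` is the first level with two elements, `j` the last natural level, `E = j + 1 - a`. The elements
of level `j + 1` are seen by the window `a` at the energy `E` only through the elements whose cone is
a chain; such an element with both sites above it is a pendant of the end of the long chain.
-/

set_option autoImplicit false

namespace Pool.Agent.GaussPoset.Nl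

set_option linter.unusedSectionVars false

open Finset Win Cp Wd Win.I2 Win.Ev

universe u

variable {P : Type u} [Fintype P] [PartialOrder P] [DecidableEq P] {r i j a n E k : ℕ}
variable {S : Finset P}

lemma image_cone {z : P} : (cone i z).image lev = Finset.Ioc i (lev z) := by
  classical
  ext m
  rw [mem_image, Finset.mem_Ioc]
  constructor
  · rintro ⟨y, hy, rfl⟩
    rw [mem_cone] at hy
    refine ⟨hy.2, ?_⟩
    rcases eq_or_lt_of_le hy.1 with h8 | h8
    · rw [← h8]
    · have := lev_strictAnti h8
      omega
  · rintro ⟨h8, h9⟩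
    obtain ⟨y, hy, hym⟩ := exists_above' (x := z) (j := m) h9
    exact ⟨y, mem_cone.2 ⟨hy, by omega⟩, hym⟩

/-- one element above `z` on every level -/
lemma slim_uniq {z y y' : P} (h : z ∈ slim i k S) (h1 : z ≤ y) (h2 : z ≤ y') (h3 : i < lev y)
    (h4 : lev y = lev y') : y = y' := by
  classical
  rw [mem_slim] at h
  have hinj : Set.InjOn lev (cone i z : Set P) := by
    rw [← Finset.card_image_iff, image_cone, Nat.card_Ioc, h.2.2, h.2.1]
  exact hinj (mem_coe.2 (mem_cone.2 ⟨h1, h3⟩)) (mem_coe.2 (mem_cone.2 ⟨h2, by omega⟩)) h4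

lemma up_le_st (hC : Part a S) {z : P} (hz : z ∈ S) : up a z ≤ (st a S).card := by
  classical
  unfold up
  refine Finset.card_le_card fun v hv => ?_
  rw [mem_filter, mem_lv] at hv
  exact mem_st.2 ⟨Wd.up_closed hC hz hv.2.le, hv.1⟩

/-- the coefficient of `d` at the first energy which sees the level `a + E` -/
lemma c1_first (H : Gr P r) (har : a ≤ r) (hC : Part a S) (hE : 1 ≤ E) (h2 : (st a S).card = 2) :
    PowerSeries.coeff 1 (ZC a S E : A) = PowerSeries.coeff 1 (ZC a (cut (a + E) S) E : A) +
      (((slim a (a + E) S).filter (fun z => up a z = 2)).card : ℤ) := by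
  classical
  rw [ZC_first H har hC (show a < a + E by omega) (n := E) (by omega), if_pos (by omega), map_add]
  congr 1
  rw [map_sum, Finset.card_filter]
  push_cast
  refine Finset.sum_congr rfl fun z hz => ?_
  rw [h2]
  by_cases hu : up a z = 2
  · rw [if_pos hu, hu]
    rw [show (2 : ℕ) - 2 = 0 from rfl, Nat.add_zero, pow_one, pow_two, c1_mul, c1_mul, c0_mul,
      c0_xx, c1_xx, c0_dd, c1_dd]
    norm_num
  · rw [if_neg hu]
    have h3 : dd ^ 2 ∣ xx ^ up a z * dd ^ (1 + (2 - up a z)) := by
      have h4 := up_le_st hC (mem_slim.1 hz).1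
      rw [h2] at h4
      exact Dvd.dvd.mul_left (pow_dvd_pow dd (by omega)) _
    obtain ⟨w, hw⟩ := h3
    rw [hw, pow_two, c1_mul, c1_mul, c0_mul, c0_dd]
    simp

section comp

variable {t : Tops P} {lo hi : ℕ → ℕ} {e : ℕ → ℕ → P}

/-- the elements of level `j + 1` whose cone is a chain and covers both sites -/
theorem NJ.slim_pen (h : NJ P r j) (C : Cp.Comp j (t : P) lo hi e) (ha1 : 1 ≤ a) (haj : a + 1 ≤ j)
    (h0 : lo a = 0 ∧ hi a = 1) (h1 : lo (a + 1) = 0 ∧ hi (a + 1) = 1)
    (hO : ∀ k, a + 1 ≤ k → k < j → hi (k + 1) = hi k + 1)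
    (hlt : ∀ k, a + 1 ≤ k → k < j → lo k < hi k) :
    (slim a (j + 1) (SS a t)).filter (fun z => up a z = 2) = pen (e j (hi j)) := by
  classical
  have H := h.g.H
  have hg := h.g.good
  ext z
  rw [mem_filter, mem_pen]
  constructor
  · rintro ⟨hz, hu⟩
    obtain ⟨hz1, hz2, hz3⟩ := mem_slim.1 hz
    have hzt : z ≤ (t : P) := (h.mem (by omega) t (by omega)).1 hz1
    have upt : ∀ y, z ≤ y → y ≤ (t : P) := fun y hy => NJ.up_le h t.2 (by omega) hzt hy
    -- both sites are above
    have hs1 : z < e a 1 := by
      have hsub : (lv P a).filter (fun v => z < v) ⊆ {e a 0, e a 1} := by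
        intro v hv
        rw [mem_filter, mem_lv] at hv
        obtain ⟨s, s1, s2, s3⟩ := C.surj v (upt v hv.2.le) (by omega)
        rw [hv.1] at s1 s2 s3
        rw [mem_insert, mem_singleton, ← s3]
        obtain rfl | rfl : s = 0 ∨ s = 1 := by omega
        · exact Or.inl rfl
        · exact Or.inr rfl
      have hcard : ((lv P a).filter (fun v => z < v)).card = 2 := by
        rw [← hu]
        unfold up
        congr
      have heq := Finset.eq_of_subset_of_card_le hsub (by
        rw [hcard]
        exact Finset.card_le_two)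
      have h5 : e a 1 ∈ (lv P a).filter (fun v => z < v) := by
        rw [heq]
        simp
      exact (mem_filter.1 h5).2
    have key : ∀ d, a + 1 + d ≤ j → ∀ y, z ≤ y → lev y = a + 1 + d →
        y = e (a + 1 + d) (hi (a + 1 + d)) := by
      intro d
      induction d with
      | zero =>
        intro hd y hy hyl
        rw [Nat.add_zero] at hyl ⊢
        obtain ⟨w, hw1, hw2, hw3⟩ := exists_mid H hs1.le (k := a + 1)
          (by rw [C.lev_e a 1 (by omega) (by omega) (by omega)]; omega) (by omega)
        have h5 := slim_uniq hz hy hw1 (by omega) (by omega)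
        subst h5
        obtain ⟨s, s1, s2, s3⟩ := C.surj y (upt y hy) (by omega)
        rw [hyl] at s1 s2 s3
        rw [← s3] at hw2
        have h6 := (C.le_iff H hg t.2 (l := a) (s' := 1) (d := 1) (s := s) (by omega) (by omega)
          (by omega) s1 s2).1 hw2
        rw [← s3]
        congr 1
        omega
      | succ d ih =>
        intro hd y hy hyl
        obtain ⟨w, hw, hwl⟩ := exists_above' (x := y) (j := a + 1 + d) (by omega)
        have h5 := ih (by omega) w (hy.trans hw) hwl
        obtain ⟨s, s1, s2, s3⟩ := C.surj y (upt y hy) (by omega)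
        rw [hyl] at s1 s2 s3
        have h7 := C.lo_le (a + 1 + d) (by omega)
        have h8 := hlt (a + 1 + d) (by omega) (by omega)
        have h9 := C.hi_step (a + 1 + d) (by omega)
        rw [show a + 1 + (d + 1) = a + 1 + d + 1 by omega] at s1 s2 s3 ⊢
        rw [← s3, h5] at hw
        have h10 := (C.le_iff H hg t.2 (l := a + 1 + d) (s' := hi (a + 1 + d)) (d := 1) (s := s)
          (by omega) (by omega) (by omega) s1 s2).1 hw
        have h11 : s ≠ hi (a + 1 + d) := by
          rintro rfl
          have h12 := (C.le_iff H hg t.2 (l := a + 1 + d) (s' := hi (a + 1 + d) - 1) (d := 1)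
            (s := hi (a + 1 + d)) (by omega) (by omega) (by omega) s1 s2).2 (by omega)
          rw [s3] at h12
          have h13 := ih (by omega) _ (hy.trans h12)
            (C.lev_e _ _ (by omega) (by omega) (by omega))
          have := C.inj _ _ _ (by omega) (by omega) (by omega) (by omega) (by omega) h13
          omega
        rw [← s3]
        congr 1
        omega
    have hj : ∀ y, z ⋖ y → y = e j (hi j) := by
      intro y hy
      have h5 := lev_cov H hy
      have h6 := key (j - (a + 1)) (by omega) y hy.le (by omega)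
      rwa [show a + 1 + (j - (a + 1)) = j by omega] at h6
    obtain ⟨y, hy⟩ := uc_nonempty H (x := z) (by omega)
    have hy' := mem_uc.1 hy
    refine ⟨by rw [← hj y hy']; exact hy', ?_⟩
    rw [Finset.card_eq_one]
    refine ⟨e j (hi j), ?_⟩
    ext w
    rw [mem_uc, mem_singleton]
    exact ⟨hj w, fun hw => by rw [hw, ← hj y hy']; exact hy'⟩
  · rintro ⟨hz1, hz2⟩
    have hl := C.lo_le j le_rfl
    have hlj := C.lev_e j (hi j) le_rfl hl le_rfl
    have hzl : lev z = j + 1 := by
      have := lev_cov H hz1
      omega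
    have hzt : z ≤ (t : P) := hz1.le.trans (C.le_t j (hi j) le_rfl hl le_rfl)
    have key : ∀ d, a + 1 + d ≤ j → ∀ y, z ≤ y → lev y = j - d → y = e (j - d) (hi (j - d)) := by
      intro d
      induction d with
      | zero =>
        intro hd y hy hyl
        rw [Nat.sub_zero] at hyl ⊢
        have h5 : z ⋖ y := by
          rw [H.covBy_iff]
          refine ⟨lt_of_le_of_ne hy ?_, by omega⟩
          rintro rfl
          omega
        rw [Finset.card_eq_one] at hz2
        obtain ⟨w, hw⟩ := hz2
        have h6 := mem_uc.2 h5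
        have h7 := mem_uc.2 hz1
        rw [hw, mem_singleton] at h6 h7
        rw [h6, h7]
      | succ d ih =>
        intro hd y hy hyl
        obtain ⟨w, hw1, hw2, hw3⟩ := exists_mid H hy (k := j - d) (by omega) (by omega)
        have h5 := ih (by omega) w hw1 hw3
        set k := j - (d + 1) with hk
        have h6 : j - d = k + 1 := by omega
        rw [h6] at h5 hw3
        have h7 := hO k (by omega) (by omega)
        have h8 := C.lo_le (k + 1) (by omega)
        have h9 : w ⋖ y := by
          rw [H.covBy_iff]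
          refine ⟨lt_of_le_of_ne hw2 ?_, by omega⟩
          rintro rfl
          omega
        rw [h5] at h9
        obtain ⟨s', g1, g2, g3, g4⟩ := C.cov_up H hg t.2 (by omega) h8 le_rfl h9
        rw [g3]
        congr 1
        omega
    have keyk : ∀ k, a + 1 ≤ k → k ≤ j → ∀ y, z ≤ y → lev y = k → y = e k (hi k) := by
      intro k hk1 hk2 y hy hyl
      have := key (j - k) (by omega) y hy (by omega)
      rwa [show j - (j - k) = k by omega] at this
    have hinj : Set.InjOn lev (cone a z : Set P) := by
      intro y hy y' hy' hyy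
      rw [mem_coe, mem_cone] at hy hy'
      have hle : lev y ≤ j + 1 := by
        rcases eq_or_lt_of_le hy.1 with h8 | h8
        · rw [← h8, hzl]
        · have := lev_strictAnti h8
          omega
      rcases Nat.lt_or_ge j (lev y) with h5 | h5
      · have h6 : ∀ v, z ≤ v → lev v = j + 1 → v = z := by
          intro v hv hvl
          by_contra hne
          have := lev_strictAnti (lt_of_le_of_ne hv (Ne.symm hne))
          omega
        rw [h6 y hy.1 (by omega), h6 y' hy'.1 (by omega)]
      · rw [keyk (lev y) (by omega) h5 y hy.1 rfl, keyk (lev y) (by omega) h5 y' hy'.1 hyy.symm]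
    have hcard : (cone a z).card = j + 1 - a := by
      rw [← Finset.card_image_of_injOn hinj, image_cone, Nat.card_Ioc, hzl]
    refine ⟨mem_slim.2 ⟨(h.mem (by omega) t (by omega)).2 hzt, hzl, hcard⟩, ?_⟩
    -- the two sites
    have hw : z ≤ e (a + 1) 1 := by
      obtain ⟨w, hw, hwl⟩ := exists_above' (x := z) (j := a + 1) (by omega)
      have := keyk (a + 1) le_rfl (by omega) w hw hwl
      rw [h1.2] at this
      rw [← this]
      exact hw
    have hup : (lv P a).filter (fun v => z < v) = {e a 0, e a 1} := by
      ext v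
      rw [mem_filter, mem_lv, mem_insert, mem_singleton]
      constructor
      · rintro ⟨hv1, hv2⟩
        obtain ⟨w, hw1, hw2, hw3⟩ := exists_mid H hv2.le (k := a + 1) (by omega) (by omega)
        have h5 := keyk (a + 1) le_rfl (by omega) w hw1 hw3
        rw [h1.2] at h5
        have h9 : w ⋖ v := by
          rw [H.covBy_iff]
          refine ⟨lt_of_le_of_ne hw2 ?_, by omega⟩
          rintro rfl
          omega
        rw [h5] at h9
        obtain ⟨s', g1, g2, g3, g4⟩ := C.cov_up H hg t.2 (by omega) (by omega) (by omega) h9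
        rw [h0.1] at g1
        rw [h0.2] at g2
        obtain rfl | rfl : s' = 0 ∨ s' = 1 := by omega
        · exact Or.inl g3
        · exact Or.inr g3
      · intro hv
        have h5 : ∀ s, s ≤ 1 → lev (e a s) = a ∧ z < e a s := by
          intro s hs
          have h6 := C.lev_e a s (by omega) (by omega) (by omega)
          have h7 := (C.le_iff H hg t.2 (l := a) (s' := s) (d := 1) (s := 1) (by omega) (by omega)
            (by omega) (by omega) (by omega)).2 (by omega)
          refine ⟨h6, lt_of_le_of_ne (hw.trans h7) ?_⟩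
          rintro rfl
          omega
        rcases hv with rfl | rfl
        · exact h5 0 (by omega)
        · exact h5 1 le_rfl
    have hne : e a 0 ≠ e a 1 := by
      intro hh
      have := C.inj a 0 1 (by omega) (by omega) (by omega) (by omega) (by omega) hh
      omega
    have h10 : up a z = ((lv P a).filter (fun v => z < v)).card := by
      unfold up
      congr
    rw [h10, hup, Finset.card_pair hne]

/-- the first order value `(E,1)(a)`, `E = j + 1 - a`: the natural part and the pendants at the end
of the long chain -/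
theorem NJ.c1_late (h : NJ P r j) (C : Cp.Comp j (t : P) lo hi e) (ha1 : 1 ≤ a) (haj : a + 1 ≤ j)
    (hE : a + E = j + 1)
    (h0 : lo a = 0 ∧ hi a = 1) (h1 : lo (a + 1) = 0 ∧ hi (a + 1) = 1)
    (hO : ∀ k, a + 1 ≤ k → k < j → hi (k + 1) = hi k + 1)
    (hlt : ∀ k, a + 1 ≤ k → k < j → lo k < hi k) :
    PowerSeries.coeff 1 (ZC a (SS a t) E : A) =
      PowerSeries.coeff 1 (∑ e ∈ (DR (SS a t) j).piAntidiag E, tC a (SS a t) e : A) +
        ((pen (e j (hi j))).card : ℤ) := by
  classical
  have hr := h.hr
  have hc : (st a (SS a t)).card = 2 := by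
    rw [h.card_SS (by omega) C, h0.1, h0.2]
  rw [c1_first h.g.H (by omega) (SS_part h.g (by omega) (by omega) t) (by omega) hc, hE,
    NJ.slim_pen h C ha1 haj h0 h1 hO hlt]
  congr 2
  unfold ZC
  have h2 : cut (j + 1) (SS a t) = DR (SS a t) j := by
    ext z
    rw [mem_cut, mem_DR]
    constructor
    · exact fun h => ⟨h.1, by omega⟩
    · exact fun h => ⟨h.1, by omega⟩
  rw [← h2]
  refine Finset.sum_congr rfl fun e _ => ?_
  unfold tC
  rw [st_cut (by omega)]

/-- the rows of a late component around the window `a` -/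
lemma rows_late {los his : List ℕ} (hEa : E ≤ a) (h0 : ∀ k, k < a → lo k = 0 ∧ hi k = 0)
    (hz : ∀ k, k < E → los.getD k 0 = 0 ∧ his.getD k 0 = 0)
    (hv : ∀ m, m < E → lo (a + m) = los.getD (E + m) 0 ∧ hi (a + m) = his.getD (E + m) 0) :
    Rows lo hi (a - E) 0 (2 * E) los his := by
  constructor
  · intro k hk
    rw [Nat.zero_add]
    rcases Nat.lt_or_ge k E with h1 | h1
    · rw [(hz k h1).1, (h0 _ (by omega)).1]
    · obtain ⟨m, rfl⟩ : ∃ m, k = E + m := ⟨k - E, by omega⟩
      rw [← (hv m (by omega)).1]
      congr 1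
      omega
  · intro k hk
    rw [Nat.zero_add]
    rcases Nat.lt_or_ge k E with h1 | h1
    · rw [(hz k h1).2, (h0 _ (by omega)).2]
    · obtain ⟨m, rfl⟩ : ∃ m, k = E + m := ⟨k - E, by omega⟩
      rw [← (hv m (by omega)).2]
      congr 1
      omega

/-- THE VALUE, `E ≤ a`, from the evaluation of the natural part -/
theorem NJ.pen_late (h : NJ P r j) (C : Cp.Comp j (t : P) lo hi e) (haj : a + 1 ≤ j)
    (hE : a + E = j + 1) (hEa : E ≤ a) (h32 : E < 32)
    (hz0 : ∀ k, k < a → lo k = 0 ∧ hi k = 0)
    (h0 : lo a = 0 ∧ hi a = 1) (h1 : lo (a + 1) = 0 ∧ hi (a + 1) = 1)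
    (hO : ∀ k, a + 1 ≤ k → k < j → hi (k + 1) = hi k + 1)
    (hlt : ∀ k, a + 1 ≤ k → k < j → lo k < hi k) {los his : List ℕ}
    (hz : ∀ k, k < E → los.getD k 0 = 0 ∧ his.getD k 0 = 0)
    (hv : ∀ m, m < E → lo (a + m) = los.getD (E + m) 0 ∧ hi (a + m) = his.getD (E + m) 0)
    (hok : okP los his (2 * E) E (mk los his (2 * E) E) = true)
    (hlb : lb0 (mk los his (2 * E) E) = true)
    (hev : ev 1 (mk los his (2 * E) E) 0 E 0 0 0 = -1) (hcl : Wd.Cln P a E) :
    (pen (e j (hi j))).card = 1 := by
  classical
  have hr := h.hr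
  have L : LocN P r j (t : P) lo hi (fun k s => e k s) (SS a t) a (a - E) 0 (2 * E) E los his :=
    ⟨h.g.H, by omega, fun z y hz hzt hzy => NJ.up_le h t.2 (by omega) hzt hzy.le, C.toWin,
      SS_part h.g (by omega) (by omega) t, fun z hz => h.mem (by omega) t (by omega),
      rows_late hEa hz0 hz hv, by omega, by omega, by omega⟩
  have e1 := L.eval_cut hok hlb (m := 1) (n := E) (J := j) (by omega) h32 (Or.inr le_rfl)
    (by omega)
  have e2 := NJ.c1_late h C (by omega) haj hE h0 h1 hO hlt
  have hc : (st a (SS a t)).card = 2 := by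
    rw [h.card_SS (by omega) C, h0.1, h0.2]
  obtain ⟨w, hw⟩ := hcl t
  rw [hc] at hw
  have e3 : PowerSeries.coeff 1 (ZC a (SS a t) E : A) = 0 := by
    rw [hw, pow_two, c1_mul, c1_mul, c0_mul, c0_dd]
    simp
  rw [e3, e1, hev] at e2
  omega

end comp

end Pool.Agent.GaussPoset.Nl
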