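import Pool.Agent.W_448nl_h15.NlN

/-!
# MP_448cb3_co, case B: `E7` down to level 15: the sixteenth level is natural

The window 12 has two sites, the levels 13, 14, 15 have one element each: the value `(4,1)(12)` is
`#(level 16) - 1`.
-/

set_option autoImplicit false

namespace Pool.Agent.GaussPoset.Nl

set_option linter.unusedSectionVars false

open Finset Win Cp Wd Win.I2 Win.Ev

universe u

variable {P : Type u} [Fintype P] [PartialOrder P] [DecidableEq P] {r i j a n E k : ℕ}
variable {t : Tops P} {lo hi : ℕ → ℕ} {e : ℕ → ℕ → P}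

/-- two sites, one element on each of the levels `a + 1, …, j` -/
theorem NJ.slim_one (h : NJ P r j) (C : Cp.Comp j (t : P) lo hi e) (haj : a + 1 ≤ j)
    (h0 : hi a = lo a + 1) (hone : ∀ k, a + 1 ≤ k → k ≤ j → lo k = hi k) :
    (slim a (j + 1) (SS a t)).filter (fun z => up a z = 2) = pen (e j (hi j)) := by
  classical
  have H := h.g.H
  have hg := h.g.good
  have keyk : ∀ z, z ≤ (t : P) → lev z = j + 1 → ∀ k, a + 1 ≤ k → k ≤ j → ∀ y, z ≤ y →
      lev y = k → y = e k (hi k) := by
    intro z hzt hzl k hk1 hk2 y hy hyl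
    obtain ⟨s, s1, s2, s3⟩ := C.surj y (NJ.up_le h t.2 (by omega) hzt hy) (by omega)
    rw [hyl] at s1 s2 s3
    have := hone k hk1 hk2
    rw [← s3]
    congr 1
    omega
  have k1 := hone (a + 1) le_rfl (by omega)
  have q1 := C.lo_step a (by omega)
  have q2 := C.hi_step a (by omega)
  have hne : e a (lo a) ≠ e a (hi a) := by
    intro hh
    have := C.inj a (lo a) (hi a) (by omega) le_rfl (by omega) (by omega) le_rfl hh
    omega
  have hsite : ∀ s, lo a ≤ s → s ≤ hi a → lev (e a s) = a ∧ e (a + 1) (hi (a + 1)) ⋖ e a s := by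
    intro s s1 s2
    refine ⟨C.lev_e a s (by omega) s1 s2, ?_⟩
    rw [C.cov a (hi (a + 1)) s (by omega) (by omega) le_rfl s1 s2]
    omega
  ext z
  rw [mem_filter, mem_pen]
  constructor
  · rintro ⟨hz, hu⟩
    obtain ⟨hz1, hz2, hz3⟩ := mem_slim.1 hz
    have hzt : z ≤ (t : P) := (h.mem (by omega) t (by omega)).1 hz1
    have hj : ∀ y, z ⋖ y → y = e j (hi j) := by
      intro y hy
      have h5 := lev_cov H hy
      exact keyk z hzt hz2 j (by omega) le_rfl y hy.le (by omega)
    obtain ⟨y, hy⟩ := uc_nonempty H (x := z) (by omega)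
    have hy' := mem_uc.1 hy
    refine ⟨by rw [← hj y hy']; exact hy', ?_⟩
    rw [Finset.card_eq_one]
    refine ⟨e j (hi j), ?_⟩
    ext w
    rw [mem_uc, mem_singleton]
    exact ⟨hj w, fun hw => by rw [hw, ← hj y hy']; exact hy'⟩
  · rintro ⟨hz1, hz2⟩
    have hl := C.lo_le j le_rfl
    have hlj := C.lev_e j (hi j) le_rfl hl le_rfl
    have hr := h.hr
    have hzl : lev z = j + 1 := by
      have := lev_cov H hz1
      omega
    have hzt : z ≤ (t : P) := hz1.le.trans (C.le_t j (hi j) le_rfl hl le_rfl)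
    have key := keyk z hzt hzl
    have hinj : Set.InjOn lev (cone a z : Set P) := by
      intro y hy y' hy' hyy
      rw [mem_coe, mem_cone] at hy hy'
      have hle : lev y ≤ j + 1 := by
        rcases eq_or_lt_of_le hy.1 with h8 | h8
        · rw [← h8, hzl]
        · have := lev_strictAnti h8
          omega
      rcases Nat.lt_or_ge j (lev y) with h5 | h5
      · have h6 : ∀ v, z ≤ v → lev v = j + 1 → v = z := by
          intro v hv hvl
          by_contra hne
          have := lev_strictAnti (lt_of_le_of_ne hv (Ne.symm hne))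
          omega
        rw [h6 y hy.1 (by omega), h6 y' hy'.1 (by omega)]
      · rw [key (lev y) (by omega) h5 y hy.1 rfl, key (lev y) (by omega) h5 y' hy'.1 hyy.symm]
    have hcard : (cone a z).card = j + 1 - a := by
      rw [← Finset.card_image_of_injOn hinj, image_cone, Nat.card_Ioc, hzl]
    refine ⟨mem_slim.2 ⟨(h.mem (by omega) t (by omega)).2 hzt, hzl, hcard⟩, ?_⟩
    have hw : z ≤ e (a + 1) (hi (a + 1)) := by
      obtain ⟨w, hw, hwl⟩ := exists_above' (x := z) (j := a + 1) (by omega)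
      have := key (a + 1) le_rfl (by omega) w hw hwl
      rw [← this]
      exact hw
    have hup : (lv P a).filter (fun v => z < v) = {e a (lo a), e a (hi a)} := by
      ext v
      rw [mem_filter, mem_lv, mem_insert, mem_singleton]
      constructor
      · rintro ⟨hv1, hv2⟩
        obtain ⟨s, s1, s2, s3⟩ := C.surj v (NJ.up_le h t.2 (by omega) hzt hv2.le) (by omega)
        rw [hv1] at s1 s2 s3
        rw [← s3]
        obtain rfl | rfl : s = lo a ∨ s = hi a := by omega
        · exact Or.inl rfl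
        · exact Or.inr rfl
      · intro hv
        have h5 : ∀ s, lo a ≤ s → s ≤ hi a → lev (e a s) = a ∧ z < e a s := by
          intro s s1 s2
          obtain ⟨g1, g2⟩ := hsite s s1 s2
          exact ⟨g1, lt_of_le_of_lt hw g2.lt⟩
        rcases hv with rfl | rfl
        · exact h5 _ le_rfl (by omega)
        · exact h5 _ (by omega) le_rfl
    have h10 : up a z = ((lv P a).filter (fun v => z < v)).card := by
      unfold up
      congr
    rw [h10, hup, Finset.card_pair hne]

set_option maxRecDepth 100000 in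
lemma val12 : okP [2, 3, 3, 3, 4, 5, 5, 5] [4, 4, 4, 4, 5, 5, 5, 5] 8 4
      (mk [2, 3, 3, 3, 4, 5, 5, 5] [4, 4, 4, 4, 5, 5, 5, 5] 8 4) = true ∧
    lb0 (mk [2, 3, 3, 3, 4, 5, 5, 5] [4, 4, 4, 4, 5, 5, 5, 5] 8 4) = true ∧
    ev 1 (mk [2, 3, 3, 3, 4, 5, 5, 5] [4, 4, 4, 4, 5, 5, 5, 5] 8 4) 0 4 0 0 0 = -1 := by
  refine ⟨?_, ?_, ?_⟩ <;> decide +kernel

/-- `E7` down to level 15, case B: the sixteenth level is natural -/
lemma NJ.e7_16 (h : NJ P r 15) (C : Cp.Comp 15 (t : P) lo hi e) (hE : E7c 15 lo hi)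
    (hcl : Wd.Cln P 12 4) :
    ∃ e', Cp.Comp 16 (t : P) (Function.update lo 16 5) (Function.update hi 16 5) e' ∧
      Rows (Function.update lo 16 5) (Function.update hi 16 5) 0 0 17
        [0, 0, 0, 0, 0, 0, 1, 2, 2, 3, 3, 3, 4, 5, 5, 5, 5]
        [0, 0, 0, 0, 1, 1, 2, 3, 4, 4, 4, 4, 5, 5, 5, 5, 5] := by
  classical
  have hr := h.hr
  obtain ⟨g0, ⟨g1, g2⟩, -⟩ := id hE
  have hw := hE.take (d := 11) (by omega) (by omega) (by omega)
  have key : Rows lo hi 0 0 16 [0, 0, 0, 0, 0, 0, 1, 2, 2, 3, 3, 3, 4, 5, 5, 5]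
      [0, 0, 0, 0, 1, 1, 2, 3, 4, 4, 4, 4, 5, 5, 5, 5] :=
    rows_trunk (w := E7.take 11) (j := 15) (fun k hk => C.lo_step k hk) (fun k hk => C.hi_step k hk)
      (by show 4 + 11 ≤ 15; omega) hw g0 g1 g2 (by decide)
  have l12 := key.lo_eq 12 (by omega)
  have l13 := key.lo_eq 13 (by omega)
  have l14 := key.lo_eq 14 (by omega)
  have l15 := key.lo_eq 15 (by omega)
  have h12 := key.hi_eq 12 (by omega)
  have h13 := key.hi_eq 13 (by omega)
  have h14 := key.hi_eq 14 (by omega)
  have h15 := key.hi_eq 15 (by omega)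
  simp only [Nat.zero_add, List.getD_cons_succ, List.getD_cons_zero] at l12 l13 l14 l15 h12 h13 h14 h15
  have R : Rows lo hi 8 0 8 [2, 3, 3, 3, 4, 5, 5, 5] [4, 4, 4, 4, 5, 5, 5, 5] := by
    constructor
    · intro k hk
      have := key.lo_eq (8 + k) (by omega)
      rw [Nat.zero_add] at this
      rw [this]
      interval_cases k <;> rfl
    · intro k hk
      have := key.hi_eq (8 + k) (by omega)
      rw [Nat.zero_add] at this
      rw [this]
      interval_cases k <;> rfl
  have L : LocN P r 15 (t : P) lo hi (fun k s => e k s) (SS 12 t) 12 8 0 8 4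
      [2, 3, 3, 3, 4, 5, 5, 5] [4, 4, 4, 4, 5, 5, 5, 5] :=
    ⟨h.g.H, by omega, fun z y hz hzt hzy => NJ.up_le h t.2 (by omega) hzt hzy.le, C.toWin,
      SS_part h.g (by omega) (by omega) t, fun z hz => h.mem (by omega) t (by omega), R, rfl,
      by omega, by omega⟩
  have e1 := L.eval_cut val12.1 val12.2.1 (m := 1) (n := 4) (J := 15) (by omega) (by omega)
    (Or.inr le_rfl) (by omega)
  rw [val12.2.2] at e1
  have hc : (st 12 (SS 12 t)).card = 2 := by
    rw [h.card_SS (by omega) C, l12, h12]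
  have e2 := c1_first h.g.H (by omega) (SS_part h.g (by omega) (by omega) t) (E := 4) (by omega) hc
  rw [show 12 + 4 = 15 + 1 from rfl, NJ.slim_one h C (by omega) (by omega) (by
    intro k hk1 hk2
    interval_cases k <;> omega)] at e2
  have e3 : PowerSeries.coeff 1 (ZC 12 (cut (15 + 1) (SS 12 t)) 4 : A) =
      PowerSeries.coeff 1 (∑ e ∈ (DR (SS 12 t) 15).piAntidiag 4, tC 12 (SS 12 t) e : A) := by
    congr 1
    unfold ZC
    have h2 : cut (15 + 1) (SS 12 t) = DR (SS 12 t) 15 := by
      ext z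
      rw [mem_cut, mem_DR]
      constructor
      · exact fun h => ⟨h.1, by omega⟩
      · exact fun h => ⟨h.1, by omega⟩
    rw [← h2]
    refine Finset.sum_congr rfl fun e _ => ?_
    unfold tC
    rw [st_cut (by omega)]
  obtain ⟨w, hwd⟩ := hcl t
  rw [hc] at hwd
  have e4 : PowerSeries.coeff 1 (ZC 12 (SS 12 t) 4 : A) = 0 := by
    rw [hwd, pow_two, c1_mul, c1_mul, c0_mul, c0_dd]
    simp
  rw [e4, e3, e1] at e2
  have hp : (pen (e 15 (lo 15))).card = 1 := by
    rw [l15, ← h15]
    omega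
  obtain ⟨e', C'⟩ := NJ.ext1 h C (by omega) hp
  rw [l15] at C'
  refine ⟨e', C', ⟨?_, ?_⟩⟩
  · intro k hk
    rcases Nat.lt_or_ge k 16 with h5 | h5
    · have := key.lo_eq k h5
      rw [Function.update_of_ne (by omega), this]
      interval_cases k <;> rfl
    · obtain rfl : k = 16 := by omega
      rfl
  · intro k hk
    rcases Nat.lt_or_ge k 16 with h5 | h5
    · have := key.hi_eq k h5
      rw [Function.update_of_ne (by omega), this]
      interval_cases k <;> rfl
    · obtain rfl : k = 16 := by omega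
      rfl

end Pool.Agent.GaussPoset.Nl
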