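import Pool.Agent.W_448nl_h61.NlB
import Pool.Agent.W_448nl_h15.NlN

/-!
# MP_448cb3_co: the junk lemma up to the energy `2 ρ + 2` for the coefficient of `d`, three sites

A far label two costs `2 ρ + 1` on the elements above it; with three sites such a configuration has
two factors `d`.
-/

set_option autoImplicit false

namespace Pool.Agent.GaussPoset.Jk

set_option linter.unusedSectionVars false

open Finset Win

universe u

variable {P : Type u} [Fintype P] [PartialOrder P] [DecidableEq P] {r i ρ : ℕ} {e f : P → ℕ}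

/-- THE JUNK LEMMA, the configurations with a far label two do not contribute to the coefficient -/
theorem junk_low3 (H : Gr P r) {C D : Finset P} (hC : Part i C) {n m : ℕ} (hρ : 1 ≤ ρ)
    (htwo : ∀ e ∈ C.piAntidiag n, (∃ x, i + ρ < lev x ∧ 2 ≤ e x) →
      PowerSeries.coeff m (tC i C e : A) = 0) (hDC : D ⊆ C) (hDJ : ∀ z ∈ D, lev z ≤ i + ρ)
    (hDc : ∀ e : P → ℕ, tC i C e ≠ 0 → ∑ x, e x ≤ n → ∀ z ∈ C, lev z ≤ i + ρ → e z ≠ 0 → z ∈ D)
    (hX : ∀ X : Finset P, X ⊆ C → (∀ x ∈ X, lev x = i + ρ) → X.Nonempty → ∀ n', n' < n →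
      PowerSeries.coeff m (∑ f ∈ D.piAntidiag n',
        (if (∀ x ∈ X, 1 ≤ f x) then tC i C f else 0) : A) = 0) :
    PowerSeries.coeff m (ZC i C n : A) = PowerSeries.coeff m (∑ f ∈ D.piAntidiag n, tC i C f) := by
  classical
  have S := sid_low H (P := P) i
  have hDf : ∀ {n' : ℕ} {f : P → ℕ}, f ∈ D.piAntidiag n' → ∀ x : P, i + ρ < lev x → f x = 0 := by
    intro n' f hf x hx
    exact (mem_pa'.1 hf).2 x fun h => by have := hDJ x h; omega
  set B : Finset (P → ℕ) := (C.piAntidiag n).filter (fun e => ∀ x, i + ρ < lev x → e x ≤ 1)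
    with hB
  have hZ : PowerSeries.coeff m (ZC i C n : A) = PowerSeries.coeff m (∑ e ∈ B, tC i C e : A) := by
    unfold ZC
    rw [map_sum, map_sum, hB]
    symm
    refine Finset.sum_subset (Finset.filter_subset _ _) ?_
    intro e he hne
    apply htwo e he
    by_contra h
    push Not at h
    exact hne (mem_filter.2 ⟨he, fun x hx => by have := h x hx; omega⟩)
  rw [hZ]
  -- group by the set of far elements
  have hmaps : ∀ e ∈ B, jun i ρ e ∈ (C.filter (fun x => i + ρ < lev x)).powerset := by
    intro e he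
    rw [hB, mem_filter] at he
    rw [mem_powerset]
    intro x hx
    rw [mem_jun] at hx
    rw [mem_filter]
    refine ⟨?_, hx.1⟩
    by_contra h
    exact hx.2 ((mem_pa'.1 he.1).2 x h)
  rw [← Finset.sum_fiberwise_of_maps_to hmaps]
  -- the fibre of `Y`
  have fib : ∀ Y ∈ (C.filter (fun x => i + ρ < lev x)).powerset,
      ∑ e ∈ B.filter (fun e => jun i ρ e = Y), tC i C e =
      if Y.card ≤ n then ∑ f ∈ D.piAntidiag (n - Y.card), tC i C (f + ind Y) else 0 := by
    intro Y hY
    rw [mem_powerset] at hY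
    have hY' : ∀ x ∈ Y, x ∈ C ∧ i + ρ < lev x := fun x hx => mem_filter.1 (hY hx)
    split_ifs with hcard
    · have hinj : Function.Injective (fun f : P → ℕ => f + ind Y) := fun f g hfg =>
        add_right_cancel hfg
      rw [← Finset.sum_image (s := D.piAntidiag (n - Y.card)) (g := fun f : P → ℕ => f + ind Y)
        (f := fun e => tC i C e) (fun _ _ _ _ h => hinj h)]
      symm
      refine Finset.sum_subset ?_ ?_
      · intro e he
        rw [mem_image] at he
        obtain ⟨f, hf, rfl⟩ := he
        have hf2 := mem_pa'.1 hf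
        rw [mem_filter, hB, mem_filter, mem_pa']
        refine ⟨⟨⟨?_, fun x hx => ?_⟩, ?_⟩, ?_⟩
        · simp only [Pi.add_apply, Finset.sum_add_distrib]
          rw [hf2.1, sum_ind]
          omega
        · rw [Pi.add_apply, hf2.2 x fun h => hx (hDC h)]
          unfold ind
          rw [if_neg fun h => hx (hY' x h).1]
        · intro x hx
          rw [Pi.add_apply, hDf hf x hx, zero_add]
          unfold ind
          split_ifs <;> omega
        · ext x
          rw [mem_jun, Pi.add_apply]
          constructor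
          · rintro ⟨h1, h2⟩
            rw [hDf hf x h1, zero_add] at h2
            unfold ind at h2
            by_contra h
            rw [if_neg h] at h2
            exact h2 rfl
          · intro h
            refine ⟨(hY' x h).2, ?_⟩
            unfold ind
            rw [if_pos h]
            omega
      · intro e he hne
        by_contra hc
        rw [mem_filter, hB, mem_filter] at he
        obtain ⟨⟨he1, he0⟩, he2⟩ := he
        have he3 := mem_pa'.1 he1
        have hsp := split_one (ρ := ρ) he0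
        rw [he2] at hsp
        refine hne (mem_image.2 ⟨nr i ρ e, ?_, hsp⟩)
        rw [mem_pa']
        constructor
        · have h1 : ∑ x, (nr i ρ e + ind Y) x = n := by rw [hsp]; exact he3.1
          simp only [Pi.add_apply, Finset.sum_add_distrib] at h1
          rw [sum_ind] at h1
          omega
        · intro x hx
          unfold nr
          split_ifs with h
          · by_contra h1
            have hxC : x ∈ C := by
              by_contra h2
              exact h1 (he3.2 x h2)
            exact hx (hDc e hc he3.1.le x hxC h h1)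
          · rfl
    · refine Finset.sum_eq_zero fun e he => ?_
      rw [mem_filter, hB, mem_filter] at he
      exfalso
      have h1 : Y.card ≤ ∑ x, e x := by
        rw [← sum_ind]
        refine Finset.sum_le_sum fun x _ => ?_
        unfold ind
        split_ifs with h
        · rw [← he.2, mem_jun] at h
          omega
        · exact Nat.zero_le _
      rw [(mem_pa'.1 he.1.1).1] at h1
      exact hcard h1
  rw [Finset.sum_congr rfl fib, map_sum,
    Finset.sum_eq_single_of_mem ∅ (mem_powerset.2 (Finset.empty_subset _))]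
  · rw [if_pos (by simp), card_empty, Nat.sub_zero]
    congr 1
  · intro Y hY hYne
    rw [mem_powerset] at hY
    have hY' : ∀ x ∈ Y, x ∈ C ∧ i + ρ < lev x := fun x hx => mem_filter.1 (hY hx)
    have hYn : Y.Nonempty := Finset.nonempty_iff_ne_empty.2 hYne
    split_ifs with hcard
    swap
    · exact map_zero _
    have hYc : 1 ≤ Y.card := card_pos.2 hYn
    set X : Finset P := univ.filter (fun w => lev w = i + ρ ∧ ∃ x ∈ Y, w ∈ uc x) with hXdef
    have memX : ∀ w, w ∈ X ↔ lev w = i + ρ ∧ ∃ x ∈ Y, w ∈ uc x := fun w => by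
      rw [hXdef]
      simp
    by_cases hcl : ∀ x ∈ Y, ∀ w ∈ uc x, i + ρ < lev w → w ∈ Y
    · have hval : ∀ f ∈ D.piAntidiag (n - Y.card), tC i C (f + ind Y) =
          if (∀ x ∈ X, 1 ≤ f x) then tC i C f else 0 := by
        intro f hf
        split_ifs with hc
        · exact tC_ind H C (hDf hf) (fun x hx => (hY' x hx).2) hcl
            (fun x hx w hw hl => hc w ((memX w).2 ⟨hl, x, hx, hw⟩)) hρ
        · refine tC_zero C fun hL => ?_
          push Not at hc
          obtain ⟨w, hw, h0⟩ := hc
          obtain ⟨hl, x, hx, hwx⟩ := (memX w).1 hw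
          have hxl := (hY' x hx).2
          refine ind_bad S (z := x) (by omega) (by omega) ?_ ⟨w, hwx, ?_⟩ (adm_low.1 hL)
          · rw [Pi.add_apply]
            unfold ind
            rw [if_pos hx]
            omega
          · rw [Pi.add_apply]
            unfold ind
            rw [if_neg]
            · omega
            · intro h
              have := (hY' w h).2
              omega
      rw [Finset.sum_congr rfl hval]
      refine hX X ?_ ?_ ?_ _ (by omega)
      · intro w hw
        obtain ⟨hl, x, hx, hwx⟩ := (memX w).1 hw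
        exact hC.up (hY' x hx).1 (mem_uc.1 hwx)
      · intro w hw
        exact ((memX w).1 hw).1
      · obtain ⟨z, hz, hzmin⟩ := Finset.exists_min_image Y (fun x => lev x) hYn
        have hzl := (hY' z hz).2
        obtain ⟨w, hw⟩ := uc_nonempty H (x := z) (by omega)
        have hwl := lev_uc H hw
        refine ⟨w, (memX w).2 ⟨?_, z, hz, hw⟩⟩
        by_contra h
        have h1 := hcl z hz w hw (by omega)
        have h2 := hzmin w h1
        omega
    · push Not at hcl
      obtain ⟨x, hx, w, hw, hwl, hwY⟩ := hcl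
      rw [Finset.sum_eq_zero, map_zero]
      intro f hf
      refine tC_zero C fun hL => ?_
      have hxl := (hY' x hx).2
      refine ind_bad S (z := x) (by omega) (by omega) ?_ ⟨w, hw, ?_⟩ (adm_low.1 hL)
      · rw [Pi.add_apply]
        unfold ind
        rw [if_pos hx]
        omega
      · rw [Pi.add_apply, hDf hf w hwl]
        unfold ind
        rw [if_neg hwY]

/-- two factors `d` -/
lemma c1_two {C : Finset P} (g : P → A) {x y : P} (hx : x ∈ C) (hy : y ∈ C) (hxy : x ≠ y)
    (h1 : dd ∣ g x) (h2 : dd ∣ g y) : PowerSeries.coeff 1 (∏ z ∈ C, g z : A) = 0 := by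
  classical
  rw [← Finset.mul_prod_erase C g hx, ← Finset.mul_prod_erase (C.erase x) g
    (mem_erase.2 ⟨Ne.symm hxy, hy⟩)]
  obtain ⟨a, ha⟩ := h1
  obtain ⟨b, hb⟩ := h2
  rw [ha, hb, show dd * a * (dd * b * ∏ z ∈ (C.erase x).erase y, g z) =
    dd * (dd * (a * (b * ∏ z ∈ (C.erase x).erase y, g z))) by ring,
    Wd.c1_mul, Wd.c0_mul, Wd.c0_dd]
  simp

/-- a free lower element -/
lemma dd_low {z : P} (hz : i < lev z) (h1 : ¬ FD e z) (h2 : ¬ GU e z) : dd ∣ Ev.wP i e z := by
  rw [Wd.wP_low hz, if_neg h1, if_neg h2]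

/-- an uncovered site -/
lemma dd_site {z : P} (hz : lev z = i) (h1 : ¬ FD e z) (h2 : ¬ FU e z) : dd ∣ Ev.wP i e z := by
  rw [Wd.wP_site hz, if_neg h1, if_neg h2]

/-- a free upper element -/
lemma dd_upp {z : P} (hz : lev z < i) (h1 : ¬ FU e z) (h2 : ¬ GD e z) : dd ∣ Ev.wP i e z := by
  rw [Wd.wP_upp hz, if_neg h1, if_neg h2]
  exact dvd_mul_left _ _

/-- THREE SITES: a configuration with a far label two has two factors `d`. -/
theorem two_zero (H : Gr P r) (hir : i + 3 ≤ r) {C : Finset P} (hC : Part i C)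
    (hb : (st i C).card = 3) (hρ : 2 ≤ ρ)
    (hno : ∀ w ∈ C, lev w = i + 3 → up (i + 2) w = 1 → up (i + 1) w = 1) {n : ℕ}
    (hn : n ≤ 2 * ρ + 2) (he : e ∈ C.piAntidiag n) {z : P} (hz : i + ρ < lev z) (hz2 : 2 ≤ e z) :
    PowerSeries.coeff 1 (tC i C e : A) = 0 := by
  classical
  by_contra hT0
  have hT : tC i C e ≠ 0 := fun h => hT0 (by rw [h, map_zero])
  have hA := (Ev.adm_of_tC hT).1
  obtain ⟨hsum, hsup⟩ := mem_pa'.1 he
  have inC : ∀ x, e x ≠ 0 → x ∈ C := fun x hx => by
    by_contra h
    exact hx (hsup x h)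
  have hspt : Spt C e := fun x hx => hsup x hx
  have hzC := inC z (by omega)
  have hK2 : ∀ y, z ≤ y → i + 2 ≤ lev y → 2 ≤ e y := fun y h1 h2 => two_above H hA h2 z h1 hz2
  have hK1 : ∀ y, z ≤ y → i < lev y → 1 ≤ e y := fun y h1 h2 => pos_above H hA h2 z h1 (by omega)
  -- the two parts of the cone
  set K2 := cone (i + 1) z with hK2d
  set K1 := (lv P (i + 1)).filter (fun y => z ≤ y) with hK1d
  have m2 : ∀ y, y ∈ K2 ↔ z ≤ y ∧ i + 1 < lev y := fun y => mem_cone
  have m1 : ∀ y, y ∈ K1 ↔ lev y = i + 1 ∧ z ≤ y := fun y => by rw [hK1d, mem_filter, mem_lv]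
  have hdis : Disjoint K2 K1 := by
    rw [Finset.disjoint_left]
    intro y h1 h2
    rw [m2] at h1
    rw [m1] at h2
    omega
  have s2 : 2 * K2.card ≤ ∑ y ∈ K2, e y := by
    rw [mul_comm, ← smul_eq_mul, ← Finset.sum_const]
    exact Finset.sum_le_sum fun y hy => hK2 y ((m2 y).1 hy).1 (by have := ((m2 y).1 hy).2; omega)
  have s1 : K1.card ≤ ∑ y ∈ K1, e y := by
    rw [Finset.card_eq_sum_ones]
    exact Finset.sum_le_sum fun y hy => hK1 y ((m1 y).1 hy).2 (by have := ((m1 y).1 hy).1; omega)
  have s3 : ∑ y ∈ K2 ∪ K1, e y + ∑ y ∈ (K2 ∪ K1)ᶜ, e y = n := by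
    rw [Finset.sum_add_sum_compl, hsum]
  rw [Finset.sum_union hdis] at s3
  have c2 : lev z - (i + 1) ≤ K2.card := card_cone_ge
  obtain ⟨z1, hz1, hz1l⟩ := exists_above' (x := z) (j := i + 1) (by omega)
  have c1 : 1 ≤ K1.card := card_pos.2 ⟨z1, (m1 z1).2 ⟨hz1l, hz1⟩⟩
  have hzl : lev z = i + ρ + 1 := by omega
  have hslim : z ∈ slim (i + 1) (i + ρ + 1) C := mem_slim.2 ⟨hzC, hzl, by rw [← hK2d]; omega⟩
  have uniq : ∀ y y', z ≤ y → z ≤ y' → i + 1 < lev y → lev y = lev y' → y = y' :=
    fun y y' h1 h2 h3 h4 => Nl.slim_uniq hslim h1 h2 h3 h4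
  -- one element of level `i + 1`
  have c1' : K1.card = 1 := by
    by_contra hne
    obtain ⟨w, hw, hwl⟩ := exists_above' (x := z) (j := i + 3) (by omega)
    have hwC := Wd.up_closed hC hzC hw
    have u2 : up (i + 2) w = 1 := by
      unfold up
      rw [Finset.card_eq_one]
      obtain ⟨y, hy⟩ := uc_nonempty H (x := w) (by omega)
      have hy' := mem_uc.1 hy
      have hyl := lev_cov H hy'
      refine ⟨y, ?_⟩
      ext v
      rw [mem_filter, mem_lv, mem_singleton]
      constructor
      · rintro ⟨h1, h2⟩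
        exact uniq v y (hw.trans h2.le) (hw.trans hy'.le) (by omega) (by omega)
      · rintro rfl
        exact ⟨by omega, hy'.lt⟩
    have u1 := hno w hwC hwl u2
    have hsub : K1 ⊆ (lv P (i + 1)).filter (fun v => w < v) := by
      intro y hy
      rw [m1] at hy
      rw [mem_filter, mem_lv]
      refine ⟨hy.1, ?_⟩
      obtain ⟨v, hv1, hv2, hv3⟩ := exists_mid H hy.2 (k := i + 3) (by omega) (by omega)
      have := uniq v w hv1 hw (by omega) (by omega)
      subst this
      refine lt_of_le_of_ne hv2 ?_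
      rintro rfl
      omega
    have h1 := Finset.card_le_card hsub
    have h2 : up (i + 1) w = ((lv P (i + 1)).filter (fun v => w < v)).card := by
      unfold up
      congr
    rw [← h2, u1] at h1
    omega
  have hz1u : ∀ y, z ≤ y → lev y = i + 1 → y = z1 := by
    intro y h1 h2
    rw [Finset.card_eq_one] at c1'
    obtain ⟨q, hq⟩ := c1'
    have g1 := (m1 y).2 ⟨h2, h1⟩
    have g2 := (m1 z1).2 ⟨hz1l, hz1⟩
    rw [hq, mem_singleton] at g1 g2
    rw [g1, g2]
  -- outside the cone
  have hout : ∑ y ∈ (K2 ∪ K1)ᶜ, e y ≤ 1 := by omega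
  have memK : ∀ y, y ∉ (K2 ∪ K1)ᶜ ↔ z ≤ y ∧ i < lev y := by
    intro y
    rw [mem_compl, not_not, mem_union, m2, m1]
    constructor
    · rintro (h | h)
      · exact ⟨h.1, by omega⟩
      · exact ⟨h.2, by omega⟩
    · rintro ⟨h1, h2⟩
      rcases Nat.lt_or_ge (i + 1) (lev y) with h3 | h3
      · exact Or.inl ⟨h1, h3⟩
      · exact Or.inr ⟨by omega, h1⟩
  have o1 : ∀ y, ¬ (z ≤ y ∧ i < lev y) → e y ≤ 1 := by
    intro y hy
    rw [← memK, not_not] at hy
    exact (Finset.single_le_sum (f := e) (fun _ _ => Nat.zero_le _) hy).trans hout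
  have o2 : ∀ y y', ¬ (z ≤ y ∧ i < lev y) → ¬ (z ≤ y' ∧ i < lev y') → y ≠ y' → 1 ≤ e y →
      e y' = 0 := by
    intro y y' hy hy' hne h1
    rw [← memK, not_not] at hy hy'
    have h2 : ∑ v ∈ ({y, y'} : Finset P), e v ≤ ∑ y ∈ (K2 ∪ K1)ᶜ, e y := by
      refine Finset.sum_le_sum_of_subset ?_
      intro v hv
      rw [mem_insert, mem_singleton] at hv
      rcases hv with rfl | rfl
      · exact hy
      · exact hy'
    rw [Finset.sum_pair hne] at h2
    omega
  -- the maximal label of the cone
  obtain ⟨f0, hf0, hmax⟩ := Finset.exists_max_image (K2 ∪ K1) e ⟨z1, mem_union_right _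
    ((m1 z1).2 ⟨hz1l, hz1⟩)⟩
  obtain ⟨f, hf, hmin⟩ := Finset.exists_min_image ((K2 ∪ K1).filter (fun y => e y = e f0))
    (fun y => lev y) ⟨f0, mem_filter.2 ⟨hf0, rfl⟩⟩
  rw [mem_filter] at hf
  obtain ⟨hfK, hfe⟩ := hf
  have hfz : z ≤ f ∧ i < lev f := by
    rw [← memK, mem_compl, not_not]
    exact hfK
  have hzK : z ∈ K2 ∪ K1 := by
    have := (memK z).2 ⟨le_rfl, by omega⟩
    rwa [mem_compl, not_not] at this
  have hf2 : 2 ≤ e f := by
    rw [hfe]
    exact hz2.trans (hmax z hzK)
  have hfC := Wd.up_closed hC hzC hfz.1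
  have hdf : dd ∣ Ev.wP i e f := by
    refine dd_low hfz.2 ?_ ?_
    · rintro ⟨y, hy, hlt⟩
      by_cases hyz : z ≤ y ∧ i < lev y
      · rw [← memK, mem_compl, not_not] at hyz
        have := hmax y hyz
        omega
      · have := o1 y hyz
        omega
    · rintro ⟨y, hy, hle⟩
      have hyl := lev_cov H hy
      by_cases hyz : z ≤ y ∧ i < lev y
      · rw [← memK, mem_compl, not_not] at hyz
        have h1 := hmax y hyz
        have h2 := hmin y (mem_filter.2 ⟨hyz, by omega⟩)
        omega
      · have := o1 y hyz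
        omega
  apply hT0
  rw [Ev.tC_prod H (by omega) hC hspt]
  by_cases hx0 : ∃ x0, lev x0 = i + 1 ∧ x0 ≠ z1 ∧ 1 ≤ e x0
  · obtain ⟨x0, hx0l, hx0n, hx0e⟩ := hx0
    have hx0K : ¬ (z ≤ x0 ∧ i < lev x0) := fun h => hx0n (hz1u x0 h.1 hx0l)
    have h1 := o1 x0 hx0K
    refine c1_two (fun z => Ev.wP i e z) hfC (inC x0 (by omega)) ?_ hdf ?_
    · rintro rfl
      omega
    · refine dd_low (by omega) ?_ ?_
      · rintro ⟨y, hy, hlt⟩
        by_cases hyz : z ≤ y ∧ i < lev y
        · exact hx0K ⟨hyz.1.trans hy.le, by omega⟩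
        · have := o1 y hyz
          omega
      · rintro ⟨y, hy, hle⟩
        have hyl := lev_cov H hy
        have hyz : ¬ (z ≤ y ∧ i < lev y) := fun h => by omega
        have := o2 x0 y hx0K hyz (by rintro rfl; omega) hx0e
        omega
  · push Not at hx0
    -- a third site
    obtain ⟨s, hs, hsz⟩ : ∃ s ∈ st i C, ¬ z1 ⋖ s := by
      by_contra hcon
      push Not at hcon
      have hsub : st i C ⊆ uc z1 := fun s hs => mem_uc.2 (hcon s hs)
      have h1 := Finset.card_le_card hsub
      rw [hb] at h1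
      rcases uc_card_cases H (x := z1) (by omega) with h2 | h2
      · omega
      · omega
    rw [mem_st] at hs
    have hsK : ¬ (z ≤ s ∧ i < lev s) := fun h => by omega
    have hFD : ¬ FD e s := by
      rintro ⟨y, hy, hlt⟩
      have hyl := lev_cov H hy
      have h1 := hx0 y (by omega)
      by_cases hyz : y = z1
      · rw [hyz] at hy
        exact hsz hy
      · have := h1 hyz
        omega
    by_cases hFU : FU e s
    · obtain ⟨u, hu, hlt⟩ := hFU
      have hul := lev_cov H hu
      have huK : ¬ (z ≤ u ∧ i < lev u) := fun h => by omega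
      have hu1 := o1 u huK
      refine c1_two (fun z => Ev.wP i e z) hfC (inC u (by omega)) ?_ hdf ?_
      · rintro rfl
        omega
      · refine dd_upp (by omega) ?_ ?_
        · rintro ⟨v, hv, hlt2⟩
          have hvl := lev_cov H hv
          have := o1 v (fun h => by omega)
          omega
        · rintro ⟨v, hv, hle⟩
          have hvl := lev_cov H hv
          have := o2 u v huK (fun h => by omega) (by rintro rfl; omega) (by omega)
          omega
    · refine c1_two (fun z => Ev.wP i e z) hfC hs.1 ?_ hdf ?_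
      · rintro rfl
        omega
      · exact dd_site hs.2 hFD hFU

end Pool.Agent.GaussPoset.Jk
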