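import Pool.Agent.W_448nl_h15.NlQ
import Pool.Agent.W_448nl_h15.NlM

/-!
# MP_448cb3_co, case B: the late components with three sites at the window `j - 3`

`l3v4 : L3V P j 4`: the coefficients `(7, 2)`, `(8, 2)` of the four words of length 7 vanish.
-/

set_option autoImplicit false

namespace Pool.Agent.GaussPoset.Win.Ev

set_option linter.unusedSectionVars false

open Finset

universe u

variable {P : Type u} [Fintype P] [PartialOrder P] [DecidableEq P] {r i j : ℕ}
variable {C : Finset P} {t : P} {lo hi : ℕ → ℕ} {x : ℕ → ℕ → P} {base c0 R s : ℕ} {los his : List ℕ}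

/-- EVALUATION OF THE COEFFICIENT OF `d` of a component with three sites, `n ≤ 2 ρ + 2` -/
theorem Loc.eval_three (Lc : Loc P r j t lo hi x C i base c0 R s los his) {p : Prog}
    (hok : okP los his R s p = true) (h0 : lb0 p = true) {n : ℕ} (hn : n < 32)
    (hsR : s + 4 ≤ R) (hN : n ≤ 2 * (R - 1 - s) + 2) (htop : base = 0 ∨ n ≤ s)
    (hb : (st i C).card = 3)
    (hno : ∀ w ∈ C, lev w = i + 3 → up (i + 2) w = 1 → up (i + 1) w = 1)
    (hX : okXs los his R s 1 n = true) :
    PowerSeries.coeff 1 (ZC i C n : A) = ev 1 p 0 n 0 0 0 := by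
  classical
  have hi' := Lc.hi'
  have hj := Lc.hj
  have hr := Lc.h.hr
  have hJ : base + R = i + (R - 1 - s) + 1 := by omega
  rw [← Lc.eval_cut hok h0 (by omega) hn htop hJ]
  refine Jk.junk_low3 Lc.h.H Lc.part (by omega) ?_ (fun z hz => (mem_DR.1 hz).1)
    (fun z hz => (mem_DR.1 hz).2) (fun e _ _ z hz hl _ => mem_DR.2 ⟨hz, hl⟩) ?_
  · rintro e he ⟨z, hz, hz2⟩
    exact Jk.two_zero Lc.h.H (by omega) Lc.part hb (by omega) hno hN he hz hz2
  intro X hXC hXl hXn n' hn'
  have h1 := Lc.zeroX (X := X) (m := 1) (by omega) (by omega) (by omega) hJ (by omega) hX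
    (fun z hz => ⟨hXC hz, hXl z hz⟩) hXn hn'
  rw [← h1]

end Pool.Agent.GaussPoset.Win.Ev

namespace Pool.Agent.GaussPoset.Nl

set_option linter.unusedSectionVars false

open Finset Win Cp Wd Win.I2 Win.Ev

universe u

variable {P : Type u} [Fintype P] [PartialOrder P] [DecidableEq P] {r i j a n E k : ℕ}
variable {lo hi : ℕ → ℕ}

/-- the rows of the list are the rows of the word, `b` is the index of the level `a` -/
def WordL (w : List Ltr) (los his : List ℕ) (b : ℕ) : Prop :=
  (∀ k, k < b → los.getD k 0 = 0 ∧ his.getD k 0 = 0) ∧ los.getD b 0 = 0 ∧ his.getD b 0 = 1 ∧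
    ∀ m, m < w.length → ((w.getD m OO).1 = true → los.getD (b + m + 1) 0 = los.getD (b + m) 0 + 1) ∧
      ((w.getD m OO).1 = false → los.getD (b + m + 1) 0 = los.getD (b + m) 0) ∧
      ((w.getD m OO).2 = true → his.getD (b + m + 1) 0 = his.getD (b + m) 0 + 1) ∧
      ((w.getD m OO).2 = false → his.getD (b + m + 1) 0 = his.getD (b + m) 0)

instance (w : List Ltr) (los his : List ℕ) (b : ℕ) : Decidable (WordL w los his b) := by
  unfold WordL; infer_instance

section comp

variable {t : Tops P} {e : ℕ → ℕ → P}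

/-- the rows of a word -/
lemma word_rows (C : Cp.Comp j (t : P) lo hi e) {w : List Ltr} {los his : List ℕ} {b : ℕ}
    (hw : word lo hi a (j - a) = w) (haj : a ≤ j) (hba : b ≤ a)
    (hz : ∀ k, k < a → lo k = 0 ∧ hi k = 0) (h0 : lo a = 0 ∧ hi a = 1)
    (T : WordL w los his b) : Rows lo hi (a - b) 0 (b + w.length + 1) los his := by
  obtain ⟨t1, t2, t3, t4⟩ := T
  obtain ⟨w1, w2⟩ := Wd.word_spec hw
  have key : ∀ m, m ≤ w.length → lo (a + m) = los.getD (b + m) 0 ∧
      hi (a + m) = his.getD (b + m) 0 := by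
    intro m
    induction m with
    | zero =>
      intro _
      rw [Nat.add_zero, Nat.add_zero, t2, t3]
      exact h0
    | succ m ih =>
      intro hm
      obtain ⟨i1, i2⟩ := ih (by omega)
      obtain ⟨q1, q2⟩ := w2 m (by omega)
      have hmw : m < w.length := by omega
      obtain ⟨g1, g2, g3, g4⟩ := t4 m hmw
      have hget : w.getD m OO = w[m] := by
        rw [List.getD_eq_getElem?_getD, List.getElem?_eq_getElem hmw, Option.getD_some]
      rw [hget] at g1 g2 g3 g4
      rw [List.getElem?_eq_getElem hmw] at q1 q2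
      simp only [Option.map_some, Option.some.injEq] at q1 q2
      have s1 := C.lo_step (a + m) (by omega)
      have s2 := C.hi_step (a + m) (by omega)
      rw [← Nat.add_assoc, ← Nat.add_assoc]
      constructor
      · by_cases hb : w[m].1 = true
        · rw [g1 hb, ← i1]
          rw [hb] at q1
          have := of_decide_eq_true q1.symm
          omega
        · rw [Bool.not_eq_true] at hb
          rw [g2 hb, ← i1]
          rw [hb] at q1
          have := of_decide_eq_false q1.symm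
          omega
      · by_cases hb : w[m].2 = true
        · rw [g3 hb, ← i2]
          rw [hb] at q2
          have := of_decide_eq_true q2.symm
          omega
        · rw [Bool.not_eq_true] at hb
          rw [g4 hb, ← i2]
          rw [hb] at q2
          have := of_decide_eq_false q2.symm
          omega
  constructor
  · intro k hk
    rw [Nat.zero_add]
    rcases Nat.lt_or_ge k b with h1 | h1
    · rw [(t1 k h1).1, (hz _ (by omega)).1]
    · obtain ⟨m, rfl⟩ : ∃ m, k = b + m := ⟨k - b, by omega⟩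
      rw [← (key m (by omega)).1]
      congr 1
      omega
  · intro k hk
    rw [Nat.zero_add]
    rcases Nat.lt_or_ge k b with h1 | h1
    · rw [(t1 k h1).2, (hz _ (by omega)).2]
    · obtain ⟨m, rfl⟩ : ∃ m, k = b + m := ⟨k - b, by omega⟩
      rw [← (key m (by omega)).2]
      congr 1
      omega

/-- the number of elements of level `l` above a row element -/
lemma up_row (h : NJ P r j) (C : Cp.Comp j (t : P) lo hi e) {l d s : ℕ} (hd : 1 ≤ d)
    (hl : l + d ≤ j) (h1 : lo (l + d) ≤ s) (h2 : s ≤ hi (l + d)) :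
    up l (e (l + d) s) =
      ((Finset.Icc (lo l) (hi l)).filter (fun s' => s' ≤ s ∧ s ≤ s' + d)).card := by
  classical
  have hr := h.hr
  have hls := C.lev_e (l + d) s hl h1 h2
  have hset : (lv P l).filter (fun v => e (l + d) s < v) =
      ((Finset.Icc (lo l) (hi l)).filter (fun s' => s' ≤ s ∧ s ≤ s' + d)).image (e l) := by
    ext v
    rw [mem_filter, mem_lv, mem_image]
    constructor
    · rintro ⟨g1, g2⟩
      obtain ⟨s', k1, k2, k3⟩ := C.surj v (NJ.up_le h t.2 (by omega)
        (C.le_t (l + d) s hl h1 h2) g2.le) (by omega)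
      rw [g1] at k1 k2 k3
      refine ⟨s', ?_, k3⟩
      rw [mem_filter, Finset.mem_Icc]
      refine ⟨⟨k1, k2⟩, ?_⟩
      exact (C.le_iff h.g.H h.g.good t.2 k1 k2 hl h1 h2).1 (by rw [k3]; exact g2.le)
    · rintro ⟨s', g1, rfl⟩
      rw [mem_filter, Finset.mem_Icc] at g1
      have k1 := C.lev_e l s' (by omega) g1.1.1 g1.1.2
      refine ⟨k1, lt_of_le_of_ne
        ((C.le_iff h.g.H h.g.good t.2 g1.1.1 g1.1.2 hl h1 h2).2 g1.2) ?_⟩
      intro hh
      rw [hh] at hls
      omega
  have h10 : up l (e (l + d) s) = ((lv P l).filter (fun v => e (l + d) s < v)).card := by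
    unfold up
    congr
  rw [h10, hset, Finset.card_image_of_injOn]
  intro a ha b hb hab
  rw [mem_coe, mem_filter, Finset.mem_Icc] at ha hb
  exact C.inj l a b (by omega) ha.1.1 ha.1.2 hb.1.1 hb.1.2 hab

/-- a single child of an element with two covers does not exist, in lists: rows `p`, `q`, `s` (the
ends of three consecutive levels) -/
def NoS (l1 h1 l2 h2 l3 h3 : ℕ) : Prop :=
  ∀ s, l3 ≤ s → s ≤ h3 → ((Finset.Icc l2 h2).filter (fun s' => s' ≤ s ∧ s ≤ s' + 1)).card = 1 →
    ((Finset.Icc l1 h1).filter (fun s' => s' ≤ s ∧ s ≤ s' + 2)).card = 1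

lemma noS_of {l1 h1 l2 h2 l3 h3 : ℕ} (h : ∀ s, s < 32 → l3 ≤ s → s ≤ h3 →
    ((Finset.Icc l2 h2).filter (fun s' => s' ≤ s ∧ s ≤ s' + 1)).card = 1 →
    ((Finset.Icc l1 h1).filter (fun s' => s' ≤ s ∧ s ≤ s' + 2)).card = 1) (hb : h3 < 32) :
    NoS l1 h1 l2 h2 l3 h3 := fun s k1 k2 => h s (by omega) k1 k2

/-- everything the evaluator has to check for a word of length 7 -/
def Chk3 (w : List Ltr) (los his : List ℕ) : Prop :=
  w.length = 7 ∧ WordL w los his 4 ∧ okP los his 12 8 (mk los his 12 8) = true ∧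
    lb0 (mk los his 12 8) = true ∧ ev 1 (mk los his 12 8) 0 7 0 0 0 = 0 ∧
    ev 1 (mk los his 12 8) 0 8 0 0 0 = 0 ∧ okXs los his 12 8 1 8 = true ∧
    (his.getD 8 0 = los.getD 8 0 + 2) ∧ los.getD 8 0 ≤ his.getD 8 0 ∧
    NoS (los.getD 9 0) (his.getD 9 0) (los.getD 10 0) (his.getD 10 0) (los.getD 11 0)
      (his.getD 11 0)

/-- the values `(7, 2)`, `(8, 2)` at the window `a + 4` -/
theorem val_three (h : NJ P r j) (C : Cp.Comp j (t : P) lo hi e) (ha : 4 ≤ a) (haj : a + 7 = j)
    (hz : ∀ k, k < a → lo k = 0 ∧ hi k = 0) (h0 : lo a = 0 ∧ hi a = 1) {w : List Ltr}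
    {los his : List ℕ} (hw : word lo hi a (j - a) = w) (K : Chk3 w los his) {m : ℕ} (h7 : 7 ≤ m)
    (h8 : m ≤ 8) : be m 3 (ZS (a + 4) (SS (a + 4) t)) = 0 := by
  obtain ⟨k0, kw, k1, k2, k3, k4, k5, k6, k6', k7⟩ := K
  have hr := h.hr
  have hR := word_rows C hw (by omega) ha hz h0 kw
  rw [k0] at hR
  have L : Loc P r j (t : P) lo hi (fun k s => e k s) (SS (a + 4) t) (a + 4) (a - 4) 0 12 8 los his :=
    ⟨h.g, t.2, C.toWin, SS_part h.g (by omega) (by omega) t,
      fun z hz => h.mem (by omega) t (by omega), hR, by omega, by omega, by omega⟩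
  have v : ∀ q, q < 12 → lo (a - 4 + q) = los.getD q 0 ∧ hi (a - 4 + q) = his.getD q 0 := by
    intro q hq
    have e1 := hR.lo_eq q hq
    have e2 := hR.hi_eq q hq
    rw [Nat.zero_add] at e1 e2
    exact ⟨e1, e2⟩
  have v8 := v 8 (by omega)
  have v9 := v 9 (by omega)
  have v10 := v 10 (by omega)
  have v11 := v 11 (by omega)
  rw [show a - 4 + 8 = a + 4 by omega] at v8
  rw [show a - 4 + 9 = a + 4 + 1 by omega] at v9
  rw [show a - 4 + 10 = a + 4 + 2 by omega] at v10
  rw [show a - 4 + 11 = a + 4 + 3 by omega] at v11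
  have hb : (st (a + 4) (SS (a + 4) t)).card = 3 := by
    rw [h.card_SS (by omega) C]
    omega
  have hno : ∀ w ∈ SS (a + 4) t, lev w = a + 4 + 3 → up (a + 4 + 2) w = 1 →
      up (a + 4 + 1) w = 1 := by
    intro y hy hyl hu
    have hyt := (h.mem (by omega) t (by omega)).1 hy
    obtain ⟨s, s1, s2, s3⟩ := C.surj y hyt (by omega)
    rw [hyl] at s1 s2 s3
    rw [← s3] at hu ⊢
    rw [show a + 4 + 3 = a + 4 + 2 + 1 from rfl,
      up_row h C (l := a + 4 + 2) (d := 1) (s := s) le_rfl (by omega) s1 s2, v10.1, v10.2] at hu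
    rw [show a + 4 + 3 = a + 4 + 1 + 2 from rfl,
      up_row h C (l := a + 4 + 1) (d := 2) (s := s) (by omega) (by omega) s1 s2, v9.1, v9.2]
    exact k7 s (by omega) (by omega) hu
  have hX : ∀ q, q ≤ 8 → okXs los his 12 8 1 q = true := fun q hq => Ev.okXs_mono k5 hq
  rw [be_eq (by omega)]
  have e1 := L.eval_three k1 k2 (n := m) (by omega) (by omega) (by omega) (Or.inr (by omega)) hb hno
    (hX m h8)
  rw [show 3 - 2 = 1 from rfl, e1]
  obtain rfl | rfl : m = 7 ∨ m = 8 := by omega
  · exact k3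
  · exact k4

end comp

set_option maxRecDepth 100000 in
lemma chk_a4 : Chk3 [OC, CO, CO, OO, CC, OC, OC] [0, 0, 0, 0, 0, 0, 1, 2, 2, 3, 3, 3]
    [0, 0, 0, 0, 1, 1, 2, 3, 4, 4, 4, 4] := by
  refine ⟨by decide, by decide, ?_, ?_, ?_, ?_, ?_, by decide, by decide, noS_of ?_ (by decide)⟩
  · decide +kernel
  · decide +kernel
  · decide +kernel
  · decide +kernel
  · decide +kernel
  · decide +kernel

set_option maxRecDepth 100000 in
lemma chk_a5 : Chk3 [OC, CO, CO, OO, CO, OC, OC] [0, 0, 0, 0, 0, 0, 1, 2, 2, 3, 3, 3]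
    [0, 0, 0, 0, 1, 1, 2, 3, 4, 5, 5, 5] := by
  refine ⟨by decide, by decide, ?_, ?_, ?_, ?_, ?_, by decide, by decide, noS_of ?_ (by decide)⟩
  · decide +kernel
  · decide +kernel
  · decide +kernel
  · decide +kernel
  · decide +kernel
  · decide +kernel

set_option maxRecDepth 100000 in
lemma chk_a6 : Chk3 [OC, CO, CO, OO, CO, OO, OC] [0, 0, 0, 0, 0, 0, 1, 2, 2, 3, 3, 3]
    [0, 0, 0, 0, 1, 1, 2, 3, 4, 5, 6, 6] := by
  refine ⟨by decide, by decide, ?_, ?_, ?_, ?_, ?_, by decide, by decide, noS_of ?_ (by decide)⟩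
  · decide +kernel
  · decide +kernel
  · decide +kernel
  · decide +kernel
  · decide +kernel
  · decide +kernel

set_option maxRecDepth 100000 in
lemma chk_a7 : Chk3 [OC, CO, CO, OO, CO, OO, OO] [0, 0, 0, 0, 0, 0, 1, 2, 2, 3, 3, 3]
    [0, 0, 0, 0, 1, 1, 2, 3, 4, 5, 6, 7] := by
  refine ⟨by decide, by decide, ?_, ?_, ?_, ?_, ?_, by decide, by decide, noS_of ?_ (by decide)⟩
  · decide +kernel
  · decide +kernel
  · decide +kernel
  · decide +kernel
  · decide +kernel
  · decide +kernel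

lemma late3_seven : ∀ w ∈ lateW 3, w.length = 7 → w = [OC, CO, CO, OC, CC, OC, OC] := by
  decide +kernel
lemma late4_seven : ∀ w ∈ lateW 4, w.length = 7 → w = [OC, CO, CO, OO, CC, OC, OC] := by
  decide +kernel
lemma late5_seven : ∀ w ∈ lateW 5, w.length = 7 → w = [OC, CO, CO, OO, CO, OC, OC] := by
  decide +kernel
lemma late6_seven : ∀ w ∈ lateW 6, w.length = 7 → w = [OC, CO, CO, OO, CO, OO, OC] := by
  decide +kernel
lemma late8_seven : ∀ w ∈ lateW 8, w.length = 7 → w = [OC, CO, CO, OO, CO, OO, OO] := by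
  decide +kernel

/-- THE VALUES OF THE LATE COMPONENTS WITH THREE SITES, `n = 4` -/
theorem NJ.l3v4 (h : NJ P r j) : L3V P j 4 := by
  intro a t lo hi e C D haj hb _ m h7 h8
  have h3 := D.h0
  have h1 := D.h1
  have hl : (word lo hi a (j - a)).length = j - a := by
    unfold word
    rw [List.length_map, List.length_range]
  rcases D.h4 with ⟨-, h4⟩ | h4
  · exfalso
    have := D.quad C h4 4 (by omega) (by omega)
    omega
  · have h8' : m ≤ 8 := by omega
    rcases Nat.lt_or_ge a 7 with h6 | h6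
    · obtain rfl | rfl | rfl | rfl : a = 3 ∨ a = 4 ∨ a = 5 ∨ a = 6 := by omega
      · exfalso
        have hw := late3_seven _ h4 (by omega)
        obtain ⟨e1, e2⟩ := Lw_of_trunk C D.h0 D.h1 D.h2 D.h3 7 (by omega)
        rw [hw] at e1 e2
        have u1 : Lw [OC, CO, CO, OC, CC, OC, OC] 7 = 2 := by decide
        have u2 : Hw [OC, CO, CO, OC, CC, OC, OC] 7 = 3 := by decide
        rw [u1] at e1
        rw [u2] at e2
        simp only [Nat.reduceSub, Nat.reduceAdd] at e1 e2 hb
        omega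
      · exact val_three h C (by omega) (by omega) D.h2 D.h3 (late4_seven _ h4 (by omega)) chk_a4 h7 h8'
      · exact val_three h C (by omega) (by omega) D.h2 D.h3 (late5_seven _ h4 (by omega)) chk_a5 h7 h8'
      · exact val_three h C (by omega) (by omega) D.h2 D.h3 (late6_seven _ h4 (by omega)) chk_a6 h7 h8'
    · rw [lateW_large h6] at h4
      exact val_three h C (by omega) (by omega) D.h2 D.h3 (late8_seven _ h4 (by omega)) chk_a7 h7 h8'

end Pool.Agent.GaussPoset.Nl
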