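import Pool.Agent.W_448nl_h15.Nv15b1
import Pool.Agent.W_448nl_h15.Nv15b2

/-! Values of the word E7 at the window 8, level 16 natural (kernel evaluation, in pieces). -/

namespace Pool.Agent.GaussPoset.Win.Ev

set_option maxRecDepth 100000

theorem E7q15_1 : pcs 1 (tl (mk [0, 0, 0, 0, 0, 0, 1, 2, 2, 3, 3, 3, 4, 5, 5, 5, 5] [0, 0, 0, 0, 1, 1, 2, 3, 4, 4, 4, 4, 5, 5, 5, 5, 5] 17 8)) 258 15 1 [0] = true := by
  have h := pcv_app E7q15_1a (by decide) E7q15_1b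
  exact pcs_of (pcv_one E7_8_hd2 (c := [1, -1, -10, 5, 4, 1, 0, 0, 0, 0, 0, 0, 0, 0, 0]) (by decide) h (by decide))

end Pool.Agent.GaussPoset.Win.Ev
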