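import Pool.Agent.W_448nl_h15.NvB

/-! Values of the word E7 at the window 8, level 16 natural (kernel evaluation, in pieces). -/

namespace Pool.Agent.GaussPoset.Win.Ev

set_option maxRecDepth 100000

/-- 70203 nodes -/
theorem E7q15_2b_0_0 : pcv 1 (tl (tl (mk [0, 0, 0, 0, 0, 0, 1, 2, 2, 3, 3, 3, 4, 5, 5, 5, 5] [0, 0, 0, 0, 1, 1, 2, 3, 4, 4, 4, 4, 5, 5, 5, 5, 5] 17 8))) (0 + 3 * 32 ^ 258) 291 (15 - 3) 0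
    [-9, 7] = true := by
  decide +kernel

/-- 62199 nodes -/
theorem E7q15_2b_0_1 : pcv 1 (tl (tl (mk [0, 0, 0, 0, 0, 0, 1, 2, 2, 3, 3, 3, 4, 5, 5, 5, 5] [0, 0, 0, 0, 1, 1, 2, 3, 4, 4, 4, 4, 5, 5, 5, 5, 5] 17 8))) (0 + 3 * 32 ^ 258) 291 (15 - 3) 2
    [-1, -1, 0, 0, 0, 0, 0, 0, 0, 0, 0] = true := by
  decide +kernel

theorem E7q15_2b_0 : pcv 1 (tl (mk [0, 0, 0, 0, 0, 0, 1, 2, 2, 3, 3, 3, 4, 5, 5, 5, 5] [0, 0, 0, 0, 1, 1, 2, 3, 4, 4, 4, 4, 5, 5, 5, 5, 5] 17 8)) (0) 258 (15) 3 [-4] = true := by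
  have h := pcv_app E7q15_2b_0_0 (by decide) E7q15_2b_0_1
  exact pcv_one E7_8_hd2 (c := [-9, 7, -1, -1, 0, 0, 0, 0, 0, 0, 0, 0, 0]) (by decide) h (by decide)

/-- 71043 nodes -/
theorem E7q15_2b_1 : pcv 1 (tl (mk [0, 0, 0, 0, 0, 0, 1, 2, 2, 3, 3, 3, 4, 5, 5, 5, 5] [0, 0, 0, 0, 1, 1, 2, 3, 4, 4, 4, 4, 5, 5, 5, 5, 5] 17 8)) (0) 258 (15) 4
    [-2] = true := by
  decide +kernel

/-- 85542 nodes -/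
theorem E7q15_2b_2 : pcv 1 (tl (mk [0, 0, 0, 0, 0, 0, 1, 2, 2, 3, 3, 3, 4, 5, 5, 5, 5] [0, 0, 0, 0, 1, 1, 2, 3, 4, 4, 4, 4, 5, 5, 5, 5, 5] 17 8)) (0) 258 (15) 5
    [0, 0, 0, 0, 0, 0, 0, 0, 0, 0, 0] = true := by
  decide +kernel

theorem E7q15_2b : pcv 1 (tl (mk [0, 0, 0, 0, 0, 0, 1, 2, 2, 3, 3, 3, 4, 5, 5, 5, 5] [0, 0, 0, 0, 1, 1, 2, 3, 4, 4, 4, 4, 5, 5, 5, 5, 5] 17 8)) 0 258 15 3 [-4, -2, 0, 0, 0, 0, 0, 0, 0, 0, 0, 0, 0] = true := by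
  have h := pcv_app (pcv_app E7q15_2b_0 (by decide) E7q15_2b_1) (by decide) E7q15_2b_2
  exact h

end Pool.Agent.GaussPoset.Win.Ev
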