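import Pool.Agent.W_448nl_h15.NvB

/-! Values of the word E7 at the window 8, level 16 natural (kernel evaluation, in pieces). -/

namespace Pool.Agent.GaussPoset.Win.Ev

set_option maxRecDepth 100000

/-- 155464 nodes -/
theorem E7q16_02_0 : pcv 1 (tl (tl (mk [0, 0, 0, 0, 0, 0, 1, 2, 2, 3, 3, 3, 4, 5, 5, 5, 5] [0, 0, 0, 0, 1, 1, 2, 3, 4, 4, 4, 4, 5, 5, 5, 5, 5] 17 8))) (0) 291 (16) 2
    [-80] = true := by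
  decide +kernel

/-- 97713 nodes -/
theorem E7q16_02_1 : pcv 1 (tl (tl (mk [0, 0, 0, 0, 0, 0, 1, 2, 2, 3, 3, 3, 4, 5, 5, 5, 5] [0, 0, 0, 0, 1, 1, 2, 3, 4, 4, 4, 4, 5, 5, 5, 5, 5] 17 8))) (0) 291 (16) 3
    [-75] = true := by
  decide +kernel

/-- 94182 nodes -/
theorem E7q16_02_2 : pcv 1 (tl (tl (mk [0, 0, 0, 0, 0, 0, 1, 2, 2, 3, 3, 3, 4, 5, 5, 5, 5] [0, 0, 0, 0, 1, 1, 2, 3, 4, 4, 4, 4, 5, 5, 5, 5, 5] 17 8))) (0) 291 (16) 4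
    [56, 56] = true := by
  decide +kernel

/-- 52034 nodes -/
theorem E7q16_02_3 : pcv 1 (tl (tl (mk [0, 0, 0, 0, 0, 0, 1, 2, 2, 3, 3, 3, 4, 5, 5, 5, 5] [0, 0, 0, 0, 1, 1, 2, 3, 4, 4, 4, 4, 5, 5, 5, 5, 5] 17 8))) (0) 291 (16) 6
    [28, 12, 4, 1, 0, 0, 0, 0, 0, 0, 0] = true := by
  decide +kernel

theorem E7q16_02 : pcv 1 (tl (tl (mk [0, 0, 0, 0, 0, 0, 1, 2, 2, 3, 3, 3, 4, 5, 5, 5, 5] [0, 0, 0, 0, 1, 1, 2, 3, 4, 4, 4, 4, 5, 5, 5, 5, 5] 17 8))) 0 291 16 2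
    [-80, -75, 56, 56, 28, 12, 4, 1, 0, 0, 0, 0, 0, 0, 0] = true := by
  have h := pcv_app (pcv_app (pcv_app E7q16_02_0 (by decide) E7q16_02_1) (by decide) E7q16_02_2) (by decide) E7q16_02_3
  exact h

end Pool.Agent.GaussPoset.Win.Ev
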