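import Pool.Agent.W_448nl_h15.NvB

/-! Values of the word E7 at the window 8, level 16 natural (kernel evaluation, in pieces). -/

namespace Pool.Agent.GaussPoset.Win.Ev

set_option maxRecDepth 100000

/-- 32065 nodes -/
theorem E7q16_11_0 : pcv 1 (tl (tl (tl (mk [0, 0, 0, 0, 0, 0, 1, 2, 2, 3, 3, 3, 4, 5, 5, 5, 5] [0, 0, 0, 0, 1, 1, 2, 3, 4, 4, 4, 4, 5, 5, 5, 5, 5] 17 8)))) (1 * 32 ^ 258 + 1 * 32 ^ 291) 226 (15 - 1) 0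
    [0, 0] = true := by
  decide +kernel

/-- 117669 nodes -/
theorem E7q16_11_1 : pcv 1 (tl (tl (tl (mk [0, 0, 0, 0, 0, 0, 1, 2, 2, 3, 3, 3, 4, 5, 5, 5, 5] [0, 0, 0, 0, 1, 1, 2, 3, 4, 4, 4, 4, 5, 5, 5, 5, 5] 17 8)))) (1 * 32 ^ 258 + 1 * 32 ^ 291) 226 (15 - 1) 2
    [41] = true := by
  decide +kernel

/-- 69665 nodes -/
theorem E7q16_11_2 : pcv 1 (tl (tl (tl (mk [0, 0, 0, 0, 0, 0, 1, 2, 2, 3, 3, 3, 4, 5, 5, 5, 5] [0, 0, 0, 0, 1, 1, 2, 3, 4, 4, 4, 4, 5, 5, 5, 5, 5] 17 8)))) (1 * 32 ^ 258 + 1 * 32 ^ 291) 226 (15 - 1) 3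
    [26] = true := by
  decide +kernel

/-- 99977 nodes -/
theorem E7q16_11_3 : pcv 1 (tl (tl (tl (mk [0, 0, 0, 0, 0, 0, 1, 2, 2, 3, 3, 3, 4, 5, 5, 5, 5] [0, 0, 0, 0, 1, 1, 2, 3, 4, 4, 4, 4, 5, 5, 5, 5, 5] 17 8)))) (1 * 32 ^ 258 + 1 * 32 ^ 291) 226 (15 - 1) 4
    [-29, -24, -11, -4, -1, 0, 0, 0, 0, 0, 0] = true := by
  decide +kernel

theorem E7q16_11 : pcv 1 (tl (tl (mk [0, 0, 0, 0, 0, 0, 1, 2, 2, 3, 3, 3, 4, 5, 5, 5, 5] [0, 0, 0, 0, 1, 1, 2, 3, 4, 4, 4, 4, 5, 5, 5, 5, 5] 17 8))) (1 * 32 ^ 258) 291 (15) 1 [-2] = true := by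
  have h := pcv_app (pcv_app (pcv_app E7q16_11_0 (by decide) E7q16_11_1) (by decide) E7q16_11_2) (by decide) E7q16_11_3
  exact pcv_one E7_8_hd3 (c := [0, 0, 41, 26, -29, -24, -11, -4, -1, 0, 0, 0, 0, 0, 0]) (by decide) h (by decide)

end Pool.Agent.GaussPoset.Win.Ev
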