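import Pool.Agent.W_448nl_h15.NvB

/-! Values of the word E7 at the window 8, level 16 natural (kernel evaluation, in pieces). -/

namespace Pool.Agent.GaussPoset.Win.Ev

set_option maxRecDepth 100000

/-- 102940 nodes -/
theorem E7q16_12_0_0 : pcv 1 (tl (tl (tl (mk [0, 0, 0, 0, 0, 0, 1, 2, 2, 3, 3, 3, 4, 5, 5, 5, 5] [0, 0, 0, 0, 1, 1, 2, 3, 4, 4, 4, 4, 5, 5, 5, 5, 5] 17 8)))) (1 * 32 ^ 258 + 2 * 32 ^ 291) 226 (15 - 2) 0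
    [-61] = true := by
  decide +kernel

/-- 114033 nodes -/
theorem E7q16_12_0_1 : pcv 1 (tl (tl (tl (mk [0, 0, 0, 0, 0, 0, 1, 2, 2, 3, 3, 3, 4, 5, 5, 5, 5] [0, 0, 0, 0, 1, 1, 2, 3, 4, 4, 4, 4, 5, 5, 5, 5, 5] 17 8)))) (1 * 32 ^ 258 + 2 * 32 ^ 291) 226 (15 - 2) 1
    [41, 0, 0, 0, 0, 0, 0, 0, 0, 0, 0, 0, 0] = true := by
  decide +kernel

theorem E7q16_12_0 : pcv 1 (tl (tl (mk [0, 0, 0, 0, 0, 0, 1, 2, 2, 3, 3, 3, 4, 5, 5, 5, 5] [0, 0, 0, 0, 1, 1, 2, 3, 4, 4, 4, 4, 5, 5, 5, 5, 5] 17 8))) (1 * 32 ^ 258) 291 (15) 2 [-20] = true := by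
  have h := pcv_app E7q16_12_0_0 (by decide) E7q16_12_0_1
  exact pcv_one E7_8_hd3 (c := [-61, 41, 0, 0, 0, 0, 0, 0, 0, 0, 0, 0, 0, 0]) (by decide) h (by decide)

/-- 123266 nodes -/
theorem E7q16_12_1 : pcv 1 (tl (tl (mk [0, 0, 0, 0, 0, 0, 1, 2, 2, 3, 3, 3, 4, 5, 5, 5, 5] [0, 0, 0, 0, 1, 1, 2, 3, 4, 4, 4, 4, 5, 5, 5, 5, 5] 17 8))) (1 * 32 ^ 258) 291 (15) 3
    [3] = true := by
  decide +kernel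

/-- 113409 nodes -/
theorem E7q16_12_2 : pcv 1 (tl (tl (mk [0, 0, 0, 0, 0, 0, 1, 2, 2, 3, 3, 3, 4, 5, 5, 5, 5] [0, 0, 0, 0, 1, 1, 2, 3, 4, 4, 4, 4, 5, 5, 5, 5, 5] 17 8))) (1 * 32 ^ 258) 291 (15) 4
    [13, 4] = true := by
  decide +kernel

/-- 52743 nodes -/
theorem E7q16_12_3 : pcv 1 (tl (tl (mk [0, 0, 0, 0, 0, 0, 1, 2, 2, 3, 3, 3, 4, 5, 5, 5, 5] [0, 0, 0, 0, 1, 1, 2, 3, 4, 4, 4, 4, 5, 5, 5, 5, 5] 17 8))) (1 * 32 ^ 258) 291 (15) 6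
    [1, 0, 0, 0, 0, 0, 0, 0, 0, 0] = true := by
  decide +kernel

theorem E7q16_12 : pcv 1 (tl (tl (mk [0, 0, 0, 0, 0, 0, 1, 2, 2, 3, 3, 3, 4, 5, 5, 5, 5] [0, 0, 0, 0, 1, 1, 2, 3, 4, 4, 4, 4, 5, 5, 5, 5, 5] 17 8))) (1 * 32 ^ 258) 291 15 2
    [-20, 3, 13, 4, 1, 0, 0, 0, 0, 0, 0, 0, 0, 0] = true := by
  have h := pcv_app (pcv_app (pcv_app E7q16_12_0 (by decide) E7q16_12_1) (by decide) E7q16_12_2) (by decide) E7q16_12_3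
  exact h

end Pool.Agent.GaussPoset.Win.Ev
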