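import Pool.Agent.W_448nl_h15.NvB

/-! Values of the word E7 at the window 8, level 16 natural (kernel evaluation, in pieces). -/

namespace Pool.Agent.GaussPoset.Win.Ev

set_option maxRecDepth 100000

/-- 131332 nodes -/
theorem E7q16_21_0 : pcv 1 (tl (tl (mk [0, 0, 0, 0, 0, 0, 1, 2, 2, 3, 3, 3, 4, 5, 5, 5, 5] [0, 0, 0, 0, 1, 1, 2, 3, 4, 4, 4, 4, 5, 5, 5, 5, 5] 17 8))) (2 * 32 ^ 258) 291 (14) 1
    [-29] = true := by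
  decide +kernel

/-- 65381 nodes -/
theorem E7q16_21_1 : pcv 1 (tl (tl (mk [0, 0, 0, 0, 0, 0, 1, 2, 2, 3, 3, 3, 4, 5, 5, 5, 5] [0, 0, 0, 0, 1, 1, 2, 3, 4, 4, 4, 4, 5, 5, 5, 5, 5] 17 8))) (2 * 32 ^ 258) 291 (14) 2
    [-4] = true := by
  decide +kernel

/-- 92728 nodes -/
theorem E7q16_21_2 : pcv 1 (tl (tl (mk [0, 0, 0, 0, 0, 0, 1, 2, 2, 3, 3, 3, 4, 5, 5, 5, 5] [0, 0, 0, 0, 1, 1, 2, 3, 4, 4, 4, 4, 5, 5, 5, 5, 5] 17 8))) (2 * 32 ^ 258) 291 (14) 3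
    [4] = true := by
  decide +kernel

/-- 112115 nodes -/
theorem E7q16_21_3 : pcv 1 (tl (tl (mk [0, 0, 0, 0, 0, 0, 1, 2, 2, 3, 3, 3, 4, 5, 5, 5, 5] [0, 0, 0, 0, 1, 1, 2, 3, 4, 4, 4, 4, 5, 5, 5, 5, 5] 17 8))) (2 * 32 ^ 258) 291 (14) 4
    [3, 1, 0, 0, 0, 0, 0, 0, 0, 0, 0] = true := by
  decide +kernel

theorem E7q16_21 : pcv 1 (tl (tl (mk [0, 0, 0, 0, 0, 0, 1, 2, 2, 3, 3, 3, 4, 5, 5, 5, 5] [0, 0, 0, 0, 1, 1, 2, 3, 4, 4, 4, 4, 5, 5, 5, 5, 5] 17 8))) (2 * 32 ^ 258) 291 14 1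
    [-29, -4, 4, 3, 1, 0, 0, 0, 0, 0, 0, 0, 0, 0] = true := by
  have h := pcv_app (pcv_app (pcv_app E7q16_21_0 (by decide) E7q16_21_1) (by decide) E7q16_21_2) (by decide) E7q16_21_3
  exact h

end Pool.Agent.GaussPoset.Win.Ev
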