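import Pool.Agent.W_448nl_h15.NvB

/-! Values of the word E7 at the window 8, level 16 natural (kernel evaluation, in pieces). -/

namespace Pool.Agent.GaussPoset.Win.Ev

set_option maxRecDepth 100000

/-- 68707 nodes -/
theorem E7q16_5_0 : pcv 1 (tl (mk [0, 0, 0, 0, 0, 0, 1, 2, 2, 3, 3, 3, 4, 5, 5, 5, 5] [0, 0, 0, 0, 1, 1, 2, 3, 4, 4, 4, 4, 5, 5, 5, 5, 5] 17 8)) (0) 258 (16) 5
    [-2] = true := by
  decide +kernel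

/-- 84882 nodes -/
theorem E7q16_5_1 : pcv 1 (tl (mk [0, 0, 0, 0, 0, 0, 1, 2, 2, 3, 3, 3, 4, 5, 5, 5, 5] [0, 0, 0, 0, 1, 1, 2, 3, 4, 4, 4, 4, 5, 5, 5, 5, 5] 17 8)) (0) 258 (16) 6
    [0, 0, 0, 0, 0, 0, 0, 0, 0, 0, 0] = true := by
  decide +kernel

theorem E7q16_5 : pcs 1 (tl (mk [0, 0, 0, 0, 0, 0, 1, 2, 2, 3, 3, 3, 4, 5, 5, 5, 5] [0, 0, 0, 0, 1, 1, 2, 3, 4, 4, 4, 4, 5, 5, 5, 5, 5] 17 8)) 258 16 5
    [-2, 0, 0, 0, 0, 0, 0, 0, 0, 0, 0, 0] = true := by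
  have h := pcv_app E7q16_5_0 (by decide) E7q16_5_1
  exact pcs_of h

end Pool.Agent.GaussPoset.Win.Ev
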