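import Pool.Agent.W_448nl_h15.NlP
import Pool.Agent.W_448nl_h15.NlR
import Pool.Agent.W_448nl_h15.Nv15a
import Pool.Agent.W_448nl_h15.Nv15b
import Pool.Agent.W_448nl_h15.Nv15c
import Pool.Agent.W_448nl_h15.Nv16a
import Pool.Agent.W_448nl_h15.Nv16b
import Pool.Agent.W_448nl_h15.Nv16c
import Pool.Agent.W_448nl_h15.Nv16d
import Pool.Agent.W_448nl_h15.Nv16e
import Pool.Agent.W_448nl_h15.Nv16f
import Pool.Agent.W_448nl_h15.Nv16g
import Pool.Agent.W_448nl_h15.Nv16h
import Pool.Agent.W_448nl_h15.Nv16i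
import Pool.Agent.W_448nl_h15.Nv16j
import Pool.Agent.W_448nl_h15.NvX

/-!
# MP_448cb3_co, case B: the values of `E7` at `(j, n) = (15, 8)`
-/

set_option autoImplicit false

namespace Pool.Agent.GaussPoset.Win.Ev

set_option linter.unusedSectionVars false

open Finset

lemma sum_getD (c : List ℤ) : ∑ k ∈ Finset.range c.length, c.getD k 0 = c.sum := by
  induction c with
  | nil => simp
  | cons a c ih =>
    rw [List.length_cons, Finset.sum_range_succ', List.sum_cons]
    simp only [List.getD_cons_succ, List.getD_cons_zero]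
    rw [ih, add_comm]

/-- one splitting step -/
lemma split_sum {m x : ℕ} {p : Prog} {v b : ℕ} (h : hd0 x p = true) (c : List ℤ)
    (hc : c.length = b + 1)
    (hk : ∀ k, k < b + 1 → ev m (tl p) (v + k * 32 ^ x) (b - k) 0 0 0 = c.getD k 0) :
    ev m p v b 0 0 0 = c.sum := by
  rw [ev_split h, ← sum_getD, hc]
  exact Finset.sum_congr rfl fun k hk' => hk k (Finset.mem_range.1 hk')

theorem E7q15 : ev 1 (mk [0, 0, 0, 0, 0, 0, 1, 2, 2, 3, 3, 3, 4, 5, 5, 5, 5]
    [0, 0, 0, 0, 1, 1, 2, 3, 4, 4, 4, 4, 5, 5, 5, 5, 5] 17 8) 0 15 0 0 0 = 0 := by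
  rw [split_sum (b := 15) E7_8_hd [2, 0, 4, -4, -2, 0, 0, 0, 0, 0, 0, 0, 0, 0, 0, 0] rfl]
  · decide
  · intro k hk
    rw [Nat.zero_add]
    rcases Nat.lt_or_ge k 2 with h | h
    · obtain rfl | rfl : k = 0 ∨ k = 1 := by omega
      · have := pcs_get E7q15_0 (k := 0) (by decide)
        rw [Nat.zero_add] at this
        exact this.trans (by decide)
      · have := pcs_get E7q15_1 (k := 0) (by decide)
        rw [Nat.add_zero] at this
        exact this.trans (by decide)
    · obtain ⟨k', rfl⟩ : ∃ k', k = 2 + k' := ⟨k - 2, by omega⟩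
      refine (pcs_get E7q15_2 (k := k')
        (by simp only [List.length_cons, List.length_nil]; omega)).trans ?_
      rw [show 2 + k' = k' + 1 + 1 by omega, List.getD_cons_succ, List.getD_cons_succ]

theorem E7q16_k0 : ev 1 (tl (mk [0, 0, 0, 0, 0, 0, 1, 2, 2, 3, 3, 3, 4, 5, 5, 5, 5]
    [0, 0, 0, 0, 1, 1, 2, 3, 4, 4, 4, 4, 5, 5, 5, 5, 5] 17 8)) (0 * 32 ^ 258) 16 0 0 0 = 0 := by
  rw [Nat.zero_mul, split_sum (b := 16) E7_8_hd2 [0, -2, -80, -75, 56, 56, 28, 12, 4, 1, 0, 0, 0, 0, 0, 0, 0] rfl]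
  · decide
  · intro k hk
    rcases Nat.lt_or_ge k 2 with h | h
    · obtain rfl | rfl : k = 0 ∨ k = 1 := by omega
      · have := pcv_get E7q16_00 (k := 0) (by decide)
        rw [Nat.add_zero 0] at this
        exact this.trans (by decide)
      · have := pcv_get E7q16_01 (k := 0) (by decide)
        rw [Nat.add_zero 1] at this
        exact this.trans (by decide)
    · obtain ⟨k', rfl⟩ : ∃ k', k = 2 + k' := ⟨k - 2, by omega⟩
      refine (pcv_get E7q16_02 (k := k')
        (by simp only [List.length_cons, List.length_nil]; omega)).trans ?_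
      rw [show 2 + k' = k' + 1 + 1 by omega, List.getD_cons_succ, List.getD_cons_succ]

theorem E7q16_k1 : ev 1 (tl (mk [0, 0, 0, 0, 0, 0, 1, 2, 2, 3, 3, 3, 4, 5, 5, 5, 5]
    [0, 0, 0, 0, 1, 1, 2, 3, 4, 4, 4, 4, 5, 5, 5, 5, 5] 17 8)) (1 * 32 ^ 258) 15 0 0 0 = 2 := by
  rw [split_sum (b := 15) E7_8_hd2 [3, -2, -20, 3, 13, 4, 1, 0, 0, 0, 0, 0, 0, 0, 0, 0] rfl]
  · decide
  · intro k hk
    rcases Nat.lt_or_ge k 2 with h | h
    · obtain rfl | rfl : k = 0 ∨ k = 1 := by omega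
      · have := pcv_get E7q16_10 (k := 0) (by decide)
        rw [Nat.add_zero 0] at this
        exact this.trans (by decide)
      · have := pcv_get E7q16_11 (k := 0) (by decide)
        rw [Nat.add_zero 1] at this
        exact this.trans (by decide)
    · obtain ⟨k', rfl⟩ : ∃ k', k = 2 + k' := ⟨k - 2, by omega⟩
      refine (pcv_get E7q16_12 (k := k')
        (by simp only [List.length_cons, List.length_nil]; omega)).trans ?_
      rw [show 2 + k' = k' + 1 + 1 by omega, List.getD_cons_succ, List.getD_cons_succ]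

theorem E7q16_k2 : ev 1 (tl (mk [0, 0, 0, 0, 0, 0, 1, 2, 2, 3, 3, 3, 4, 5, 5, 5, 5]
    [0, 0, 0, 0, 1, 1, 2, 3, 4, 4, 4, 4, 5, 5, 5, 5, 5] 17 8)) (2 * 32 ^ 258) 14 0 0 0 = 12 := by
  rw [split_sum (b := 14) E7_8_hd2 [37, -29, -4, 4, 3, 1, 0, 0, 0, 0, 0, 0, 0, 0, 0] rfl]
  · decide
  · intro k hk
    rcases Nat.lt_or_ge k 1 with h | h
    · obtain rfl : k = 0 := by omega
      have := pcv_get E7q16_20 (k := 0) (by decide)
      rw [Nat.add_zero 0] at this
      exact this.trans (by decide)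
    · obtain ⟨k', rfl⟩ : ∃ k', k = 1 + k' := ⟨k - 1, by omega⟩
      refine (pcv_get E7q16_21 (k := k')
        (by simp only [List.length_cons, List.length_nil]; omega)).trans ?_
      rw [show 1 + k' = k' + 1 by omega, List.getD_cons_succ]

theorem E7q16 : ev 1 (mk [0, 0, 0, 0, 0, 0, 1, 2, 2, 3, 3, 3, 4, 5, 5, 5, 5]
    [0, 0, 0, 0, 1, 1, 2, 3, 4, 4, 4, 4, 5, 5, 5, 5, 5] 17 8) 0 16 0 0 0 = 0 := by
  rw [split_sum (b := 16) E7_8_hd [0, 2, 12, -8, -4, -2, 0, 0, 0, 0, 0, 0, 0, 0, 0, 0, 0] rfl]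
  · decide
  · intro k hk
    rw [Nat.zero_add]
    rcases Nat.lt_or_ge k 3 with h | h
    · obtain rfl | rfl | rfl : k = 0 ∨ k = 1 ∨ k = 2 := by omega
      · exact E7q16_k0.trans (by decide)
      · exact E7q16_k1.trans (by decide)
      · exact E7q16_k2.trans (by decide)
    rcases Nat.lt_or_ge k 5 with h' | h'
    · obtain ⟨k', rfl⟩ : ∃ k', k = 3 + k' := ⟨k - 3, by omega⟩
      refine (pcs_get E7q16_3 (k := k')
        (by simp only [List.length_cons, List.length_nil]; omega)).trans ?_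
      obtain rfl | rfl : k' = 0 ∨ k' = 1 := by omega
      · decide
      · decide
    · obtain ⟨k', rfl⟩ : ∃ k', k = 5 + k' := ⟨k - 5, by omega⟩
      refine (pcs_get E7q16_5 (k := k')
        (by simp only [List.length_cons, List.length_nil]; omega)).trans ?_
      rw [show 5 + k' = k' + 1 + 1 + 1 + 1 + 1 by omega, List.getD_cons_succ, List.getD_cons_succ,
        List.getD_cons_succ, List.getD_cons_succ, List.getD_cons_succ]

end Pool.Agent.GaussPoset.Win.Ev

namespace Pool.Agent.GaussPoset.Nl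

set_option linter.unusedSectionVars false

open Finset Win Cp Wd Win.I2 Win.Ev

universe u

variable {P : Type u} [Fintype P] [PartialOrder P] [DecidableEq P] {r i j a n E k : ℕ}

/-- the values of `E7` at `(j, n) = (15, 8)` -/
theorem NJ.e7v8 (h : NJ P r 15) : E7V P 15 8 := by
  intro t lo hi e C hE m h5 hm
  rcases Nat.lt_or_ge m 15 with h6 | h6
  · exact EV_holds.be_E7 h.g C (by omega) (by omega) hE m h5 (by omega) (by omega)
  have hcl : Wd.Cln P 12 4 :=
    NJ.cln45 (SO_holds P r) EV_holds h (Or.inl rfl) (by omega) rfl (NJ.l3v4 h)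
  obtain ⟨e', C', hR⟩ := NJ.e7_16 h C hE hcl
  have hr := h.hr
  have L : LocN P r 16 (t : P) (Function.update lo 16 5) (Function.update hi 16 5)
      (fun k s => e' k s) (SS 8 t) 8 0 0 17 8
      [0, 0, 0, 0, 0, 0, 1, 2, 2, 3, 3, 3, 4, 5, 5, 5, 5]
      [0, 0, 0, 0, 1, 1, 2, 3, 4, 4, 4, 4, 5, 5, 5, 5, 5] :=
    ⟨h.g.H, by omega, fun z y hz hzt hzy => NJ.up_le h t.2 (by omega) hzt hzy.le, C'.toWin,
      SS_part h.g (by omega) (by omega) t, fun z hz => h.mem (by omega) t (by omega), hR, rfl,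
      by omega, by omega⟩
  have X15 := Ev.okXs_mono (N' := 15) E7_8_X (by omega)
  obtain rfl | rfl : m = 15 ∨ m = 16 := by omega
  · exact (L.be_all (b := 3) (n := 15) E7_8_okb.1 E7_8_okb.2 (by omega) (by omega) (by omega)
      (by omega) (by omega) (Or.inl rfl) X15).trans E7q15
  · exact (L.be_all (b := 3) (n := 16) E7_8_okb.1 E7_8_okb.2 (by omega) (by omega) (by omega)
      (by omega) (by omega) (Or.inl rfl) E7_8_X).trans E7q16

end Pool.Agent.GaussPoset.Nl
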