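import Pool.Agent.W_448nl_h15.NlS

/-!
# MP_448cb3_co, case B: the values of `E7` at `(j, n) = (12, 5)`
-/

set_option autoImplicit false

namespace Pool.Agent.GaussPoset.Win.Ev

set_option maxRecDepth 100000

theorem E7w12_ok : okP [0, 0, 0, 0, 0, 0, 1, 2, 2, 3, 3, 3, 4] [0, 0, 0, 0, 1, 1, 2, 3, 4, 4, 4, 4, 5] 13 8
    (mk [0, 0, 0, 0, 0, 0, 1, 2, 2, 3, 3, 3, 4] [0, 0, 0, 0, 1, 1, 2, 3, 4, 4, 4, 4, 5] 13 8) = true := by
  decide +kernel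

theorem E7w12_lb : lb0 (mk [0, 0, 0, 0, 0, 0, 1, 2, 2, 3, 3, 3, 4]
    [0, 0, 0, 0, 1, 1, 2, 3, 4, 4, 4, 4, 5] 13 8) = true := by
  decide +kernel

theorem E7w12_7 : ev 1 (mk [0, 0, 0, 0, 0, 0, 1, 2, 2, 3, 3, 3, 4]
    [0, 0, 0, 0, 1, 1, 2, 3, 4, 4, 4, 4, 5] 13 8) 0 7 0 0 0 = 0 := by
  decide +kernel

theorem E7w12_8 : ev 1 (mk [0, 0, 0, 0, 0, 0, 1, 2, 2, 3, 3, 3, 4]
    [0, 0, 0, 0, 1, 1, 2, 3, 4, 4, 4, 4, 5] 13 8) 0 8 0 0 0 = 0 := by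
  decide +kernel

theorem E7w12_9 : ev 1 (mk [0, 0, 0, 0, 0, 0, 1, 2, 2, 3, 3, 3, 4]
    [0, 0, 0, 0, 1, 1, 2, 3, 4, 4, 4, 4, 5] 13 8) 0 9 0 0 0 = 0 := by
  decide +kernel

theorem E7w12_10 : ev 1 (mk [0, 0, 0, 0, 0, 0, 1, 2, 2, 3, 3, 3, 4]
    [0, 0, 0, 0, 1, 1, 2, 3, 4, 4, 4, 4, 5] 13 8) 0 10 0 0 0 = 0 := by
  decide +kernel

theorem E7w12_X : okXs [0, 0, 0, 0, 0, 0, 1, 2, 2, 3, 3, 3, 4]
    [0, 0, 0, 0, 1, 1, 2, 3, 4, 4, 4, 4, 5] 13 8 1 10 = true := by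
  decide +kernel

end Pool.Agent.GaussPoset.Win.Ev

namespace Pool.Agent.GaussPoset.Nl

set_option linter.unusedSectionVars false

open Finset Win Cp Wd Win.I2 Win.Ev

universe u

variable {P : Type u} [Fintype P] [PartialOrder P] [DecidableEq P] {r i j a n E k : ℕ}

lemma late4_eight : ∀ w ∈ lateW 4, w.length = 8 → w = [OC, CO, CO, OO, CC, OC, OC, CO] := by
  decide +kernel

lemma late3_eight : ∀ w ∈ lateW 3, w.length ≠ 8 := by
  decide +kernel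

/-- THE VALUES OF THE LATE COMPONENTS WITH THREE SITES, `j = 12`, `n = 5` -/
theorem NJ.l3v5 (h : NJ P r 12) : L3V P 12 5 := by
  intro a t lo hi e C D haj hb ha4 m h7 h8
  obtain rfl := ha4 rfl
  have hr := h.hr
  have hl : (word lo hi 4 (12 - 4)).length = 8 := by
    unfold word
    rw [List.length_map, List.length_range]
  have hw : word lo hi 4 (12 - 4) = [OC, CO, CO, OO, CC, OC, OC, CO] := by
    rcases D.h4 with ⟨-, h4⟩ | h4
    · exfalso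
      have := D.quad C h4 4 (by omega) (by omega)
      omega
    · exact late4_eight _ h4 hl
  have T : WordL [OC, CO, CO, OO, CC, OC, OC, CO] [0, 0, 0, 0, 0, 0, 1, 2, 2, 3, 3, 3, 4]
      [0, 0, 0, 0, 1, 1, 2, 3, 4, 4, 4, 4, 5] 4 := by decide
  have hR := word_rows C hw (by omega) le_rfl D.h2 D.h3 T
  have L : Loc P r 12 (t : P) lo hi (fun k s => e k s) (SS 8 t) 8 0 0 13 8
      [0, 0, 0, 0, 0, 0, 1, 2, 2, 3, 3, 3, 4] [0, 0, 0, 0, 1, 1, 2, 3, 4, 4, 4, 4, 5] :=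
    ⟨h.g, t.2, C.toWin, SS_part h.g (by omega) (by omega) t,
      fun z hz => h.mem (by omega) t (by omega), hR, by omega, by omega, by omega⟩
  have v : ∀ q, q < 13 → lo q = [0, 0, 0, 0, 0, 0, 1, 2, 2, 3, 3, 3, 4].getD q 0 ∧
      hi q = [0, 0, 0, 0, 1, 1, 2, 3, 4, 4, 4, 4, 5].getD q 0 := by
    intro q hq
    have e1 := hR.lo_eq q hq
    have e2 := hR.hi_eq q hq
    rw [Nat.sub_self, Nat.zero_add, Nat.zero_add] at e1 e2
    exact ⟨e1, e2⟩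
  have v8 := v 8 (by omega)
  have v9 := v 9 (by omega)
  have v10 := v 10 (by omega)
  have v11 := v 11 (by omega)
  have hb' : (st 8 (SS 8 t)).card = 3 := by
    rw [h.card_SS (by omega) C]
    rw [v8.1, v8.2]
    decide
  have hno : ∀ w ∈ SS 8 t, lev w = 8 + 3 → up (8 + 2) w = 1 → up (8 + 1) w = 1 := by
    intro y hy hyl hu
    have hyt := (h.mem (by omega) t (by omega)).1 hy
    obtain ⟨s, s1, s2, s3⟩ := C.surj y hyt (by omega)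
    rw [hyl] at s1 s2 s3
    rw [← s3] at hu ⊢
    rw [show 8 + 3 = 8 + 2 + 1 from rfl,
      up_row h C (l := 8 + 2) (d := 1) (s := s) le_rfl (by omega) s1 s2, v10.1, v10.2] at hu
    rw [show 8 + 3 = 8 + 1 + 2 from rfl,
      up_row h C (l := 8 + 1) (d := 2) (s := s) (by omega) (by omega) s1 s2, v9.1, v9.2]
    have k7 : NoS 3 4 3 4 3 4 := noS_of (by decide +kernel) (by decide)
    rw [show 8 + 3 = 11 from rfl, v11.1] at s1
    rw [show 8 + 3 = 11 from rfl, v11.2] at s2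
    exact k7 s s1 s2 hu
  have hX : ∀ q, q ≤ 10 → okXs [0, 0, 0, 0, 0, 0, 1, 2, 2, 3, 3, 3, 4]
      [0, 0, 0, 0, 1, 1, 2, 3, 4, 4, 4, 4, 5] 13 8 1 q = true := fun q hq => Ev.okXs_mono E7w12_X hq
  show be m 3 (ZS 8 (SS 8 t)) = 0
  rw [be_eq (by omega)]
  have e1 := L.eval_three E7w12_ok E7w12_lb (n := m) (by omega) (by omega) (by omega)
    (Or.inl rfl) hb' hno (hX m (by omega))
  rw [show 3 - 2 = 1 from rfl, e1]
  obtain rfl | rfl | rfl | rfl : m = 7 ∨ m = 8 ∨ m = 9 ∨ m = 10 := by omega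
  · exact E7w12_7
  · exact E7w12_8
  · exact E7w12_9
  · exact E7w12_10


end Pool.Agent.GaussPoset.Nl
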