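import Pool.Agent.W_448nl_h15.NlO
import Pool.Agent.W_448nl_h15.NlU
import Pool.Agent.W_448fin_h16.FnN

/-!
# MP_448cb3_co, case B: the input `HTail` of the final assembly
-/

set_option autoImplicit false

namespace Pool.Agent.GaussPoset.EK

set_option linter.unusedSectionVars false

open Finset Win Cp Wd

universe u

/-- THE INPUT (near laws of the last level) -/
theorem HTail_holds (P : Type u) [Fintype P] [PartialOrder P] [DecidableEq P] : HTail P := by
  intro r j h hj lo hi e C S t a L hne
  have hw : word (lo t) (hi t) a (j - a) = [OC, OO, OO] ∨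
      word (lo t) (hi t) a (j - a) = [OC, OO, CO, OO] ∨
      word (lo t) (hi t) a (j - a) = [OC, CO, CO, OO, CO, OO] ∨
      word (lo t) (hi t) a (j - a) = [OC, CO, CO, OO, CO, OO, OO] := by
    rcases L.wd with w | w | w | w | w
    · exact Or.inl w
    · exact Or.inr (Or.inl w)
    · exact Or.inr (Or.inr (Or.inl w))
    · exact absurd w hne
    · exact Or.inr (Or.inr (Or.inr w))
  obtain ⟨h1, h2⟩ := Nl.NJ.htail h (C t) (S t) L.ha L.haj L.one L.two hw (Nl.NJ.l3v4 h)
    (by rintro rfl; exact Nl.NJ.l3v5 h) (by rintro rfl; exact Nl.NJ.e7v8 h)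
  refine ⟨h1, fun h3 => ?_⟩
  have h4 := h2 h3
  rw [← card_pos]
  omega

end Pool.Agent.GaussPoset.EK
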