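import Pool.Agent.W_448nl_h15.NlO
import Pool.Agent.W_448nl_h15.NlU
import Pool.Agent.W_448kf_h15.KfJ
import Pool.Agent.W_448rr_h67.RrE
import Pool.Agent.W_448so_h39.FC

/-!
# MP_448cb3_co, case B: the rotated rows with three sites have a pendant
-/

set_option autoImplicit false

namespace Pool.Agent.GaussPoset.Nl

set_option linter.unusedSectionVars false

open Finset Win Cp Wd Win.I2 Win.Ev EK

universe u

variable {P : Type u} [Fintype P] [PartialOrder P] [DecidableEq P] {r i j a n E k : ℕ}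
variable {lo hi : ℕ → ℕ}

/-- (3,1) at the windows `i ≤ j - 2` -/
lemma NJ.al3_zero (h : NJ P r j) (hi1 : 1 ≤ i) (h3 : i + 2 ≤ j) (t : Tops P) :
    al 3 (st i (SS i t)).card (ZS i (SS i t)) = 0 := by
  obtain ⟨lo, hi, e, C⟩ := Cp.comp_exists h.g.H t.2 h.g.hr h.g.good
  obtain ⟨-, h2⟩ := Wd.NJ.vals h hi1 h3 C
  have h4 := Wd.NJ.al3_sq h hi1 h3 t
  have h5 : (0 : ℤ) ≤ (SO.N1f i (SS i t)).card := by positivity
  have h6 : (0 : ℤ) ≤ (SO.N5f i (SS i t)).card := by positivity
  have h7 := sq_nonneg (al 3 (st i (SS i t)).card (ZS i (SS i t)))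
  have h8 : (al 3 (st i (SS i t)).card (ZS i (SS i t))) ^ 2 = 0 := by
    rw [h4] at h7 ⊢
    linarith
  exact pow_eq_zero_iff (two_ne_zero) |>.1 h8

/-- all components are clean at energy 3 at the windows `i ≤ j - 2` -/
theorem NJ.cln3 (h : NJ P r j) (hi1 : 1 ≤ i) (h3 : i + 2 ≤ j) : Wd.Cln P i 3 := by
  intro t
  have hr := h.hr
  have h1 := prof35 h.g.H (by omega) (show i + 2 ≤ j + 1 by omega)
    (fun m _ hm => h.g.good m (by omega)) (Wd.NJ.split h) (mem_tops t)
  rw [Wd.NJ.bb_eq h (by omega), Wd.NJ.VV_eq h (by omega)] at h1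
  have h2 := al_zero (h1.mid 3 (by omega)) (NJ.al3_zero h hi1 h3 t)
  rwa [coeff_ZS] at h2

set_option maxRecDepth 100000 in
lemma tailV3 : TailV [OC, OO] [0, 0, 0, 0, 0, 0] [0, 0, 0, 1, 1, 2] 3 := by
  refine ⟨by decide, ?_, ?_, ?_⟩ <;> decide +kernel

set_option maxRecDepth 100000 in
lemma tailV5b : TailV [OC, CO, CO, OO] [0, 0, 0, 0, 0, 0, 0, 1, 2, 2]
    [0, 0, 0, 0, 0, 1, 1, 2, 3, 4] 5 := by
  refine ⟨by decide, ?_, ?_, ?_⟩ <;> decide +kernel

lemma lateW_two (a : ℕ) : ∀ w ∈ lateW a, wdt w = 2 → w.getLast? = some OO →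
    w = [OO] ∨ w = [OC, OO] ∨ w = [OC, CO, CO, OO] := by
  unfold lateW
  split_ifs <;> first | omega | decide

/-- the late words with three elements on the last level, last letter OO (helper5's proof) -/
lemma late_two {d : ℕ} (h3 : lo a = 0 ∧ hi a = 1)
    (hl : ∀ k, k < a + d → lo k ≤ lo (k + 1) ∧ lo (k + 1) ≤ lo k + 1)
    (hh : ∀ k, k < a + d → hi k ≤ hi (k + 1) ∧ hi (k + 1) ≤ hi k + 1)
    (h4 : ((1 ≤ d ∧ d ≤ a) ∧ word lo hi a d = Qw d) ∨ word lo hi a d ∈ lateW a)
    (hd : 1 ≤ d) (hw : hi (a + d) = lo (a + d) + 2) (e1 : lo (a + d) = lo (a + (d - 1)))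
    (e2 : hi (a + d) = hi (a + (d - 1)) + 1) :
    word lo hi a d = [OO] ∨ word lo hi a d = [OC, OO] ∨ word lo hi a d = [OC, CO, CO, OO] := by
  have gen : ∀ n, n ≤ d → (hi (a + n) : ℤ) - lo (a + n) =
      1 + ((word lo hi a n).map (fun l => (if l.2 then (1 : ℤ) else 0) -
        if l.1 then 1 else 0)).sum := by
    intro n
    induction n with
    | zero =>
      intro _
      simp [word, h3.1, h3.2]
    | succ n ih =>
      intro hn
      have e1 := ih (by omega)
      have e2 := hl (a + n) (by omega)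
      have e3 := hh (a + n) (by omega)
      have e4 : word lo hi a (n + 1) = word lo hi a n ++
          [(decide (lo (a + n + 1) ≠ lo (a + n)), decide (hi (a + n + 1) ≠ hi (a + n)))] := by
        unfold word
        rw [List.range_succ, List.map_append]
        rfl
      rw [e4, List.map_append, List.sum_append]
      simp only [List.map_cons, List.map_nil, List.sum_cons, List.sum_nil, add_zero,
        decide_eq_true_eq]
      rw [show a + (n + 1) = a + n + 1 by omega]
      split_ifs <;> omega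
  have key : wdt (word lo hi a d) = 2 := by
    unfold wdt
    rw [← gen d le_rfl]
    omega
  have last : (word lo hi a d).getLast? = some OO := by
    obtain ⟨n, rfl⟩ : ∃ n, d = n + 1 := ⟨d - 1, by omega⟩
    unfold word
    rw [List.range_succ, List.map_append, List.map_cons, List.map_nil, List.getLast?_concat]
    rw [show a + (n + 1) = a + n + 1 by omega, show a + (n + 1 - 1) = a + n by omega] at e1 e2
    have d1 : decide (lo (a + n + 1) ≠ lo (a + n)) = false := decide_eq_false (by simp [e1])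
    have d2 : decide (hi (a + n + 1) ≠ hi (a + n)) = true := decide_eq_true (by omega)
    rw [d1, d2]
    rfl
  rcases h4 with ⟨⟨h5, h6⟩, h7⟩ | h4
  · exfalso
    rw [h7] at key
    have g2 : ∀ n, 1 ≤ n → wdt (Qw n) = 0 := by
      intro n hn
      unfold wdt Qw
      rw [List.map_cons, List.map_replicate, List.sum_cons, List.sum_replicate]
      simp [Wd.CC, Wd.OC]
    rw [g2 d hd] at key
    norm_num at key
  · exact lateW_two a _ h4 key last

section comp

variable {t : Tops P} {e : ℕ → ℕ → P}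

/-- THE LATE COMPONENTS WITH THREE SITES, both ends open, have a pendant below the middle or below
the end of the long chain -/
theorem NJ.late_three (h : NJ P r j) (C : Cp.Comp j (t : P) lo hi e) (h8 : j ≠ 8)
    (h3 : 3 ≤ a) (haj : a ≤ j) (hz0 : ∀ k, k < a → lo k = 0 ∧ hi k = 0) (h0 : lo a = 0 ∧ hi a = 1)
    (hN : word lo hi a (j - a) ∈ lateW a)
    (hw : word lo hi a (j - a) = [OO] ∨ word lo hi a (j - a) = [OC, OO] ∨
      word lo hi a (j - a) = [OC, CO, CO, OO]) :
    (pen (e j (hi j))).card = 1 ∨ (pen (e j (lo j + 1))).card = 1 := by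
  have hr := h.hr
  have hl : (word lo hi a (j - a)).length = j - a := by
    unfold word
    rw [List.length_map, List.length_range]
  rcases hw with hw | hw | hw
  · right
    rw [hw] at hl
    simp only [List.length_cons, List.length_nil] at hl
    obtain ⟨w1, w2⟩ := Wd.word_spec hw
    obtain ⟨q1, q2⟩ := w2 0 (by omega)
    simp only [List.getElem?_cons_zero, Option.map_some, Option.some.injEq, Nat.add_zero] at q1 q2
    have q1' := of_decide_eq_false q1.symm
    have q2' := of_decide_eq_true q2.symm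
    have s1 := C.lo_step a (by omega)
    have s2 := C.hi_step a (by omega)
    have ej : j = a + 1 := by omega
    subst ej
    have z1 := hz0 (a - 1) (by omega)
    have z2 := hz0 (a - 2) (by omega)
    have lj : lo (a + 1) = 0 := by omega
    have hj : hi (a + 1) = 2 := by omega
    have hR : RCO lo hi (a + 1 - 1) := by
      rw [Nat.add_sub_cancel]
      refine ⟨by omega, by omega, by omega, by omega⟩
    have hL : ¬ LCO lo hi (a + 1 - 1) := by
      rw [Nat.add_sub_cancel]
      rintro ⟨-, g, -⟩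
      omega
    rcases NJ.s5c h (by omega) C with ⟨-, g, -⟩ | ⟨g, -⟩ | ⟨-, -, b, hb, hb2⟩
    · exact absurd hR g
    · exact absurd g hL
    · rw [Nat.add_sub_cancel] at hb hb2
      have hb1 : b = 1 := by omega
      have := hb2 1 (by omega) (by omega)
      rw [hb1, if_pos rfl] at this
      rw [lj]
      exact this
  · left
    rw [hw] at hl
    simp only [List.length_cons, List.length_nil] at hl
    refine NJ.pen_tail h C (by omega) hz0 h0 hw tailV3 (by omega) (by omega) ?_
    exact NJ.cln3 h (by omega) (by omega)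
  · left
    have ha5 : 5 ≤ a := by
      rw [hw] at hl hN
      simp only [List.length_cons, List.length_nil] at hl
      by_contra hc
      obtain rfl | rfl : a = 3 ∨ a = 4 := by omega
      · exact absurd hN (by decide)
      · omega
    rw [hw] at hl
    simp only [List.length_cons, List.length_nil] at hl
    refine NJ.pen_tail h C (by omega) hz0 h0 hw tailV5b (by omega) (by omega) ?_
    refine NJ.cln45 (SO_holds P r) EV_holds h (Or.inr rfl) (by omega) (by omega) ?_
    intro a' t' lo' hi' e' C' D' h1 h2 h4 m h5 h6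
    have h7 := h4 rfl
    obtain rfl : j = 12 := by omega
    exact NJ.l3v5 h C' D' h1 h2 h4 m h5 h6

end comp

end Pool.Agent.GaussPoset.Nl

namespace Pool.Agent.GaussPoset.EK

set_option linter.unusedSectionVars false

open Finset Win Cp Wd Win.W4

universe u

variable {P : Type u} [Fintype P] [PartialOrder P] [DecidableEq P] {r i j m : ℕ}
variable {x : ℕ → P} {c : ℕ → ℤ} {β : ℤ} {t : Tops P}

/-- strips at level 1 -/
lemma r3_level_one {lo hi : Tops P → ℕ → ℕ} {e : Tops P → ℕ → ℕ → P} (hj : 1 ≤ j)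
    (C : ∀ t : Tops P, Cp.Comp j (t : P) (lo t) (hi t) (e t))
    (hS : ∀ t, Wd.Shape j (lo t) (hi t)) (t : Tops P) :
    lo t 1 = hi t 1 ∨ RectShape j (lo t) (hi t) := by
  rcases hS t with h1 | ⟨h1, S'⟩ | ⟨h1, h2⟩ | ⟨h1, h2, h3⟩ | ⟨h1, h2⟩ | ⟨a, h0, h1, h2, h3, hN, h4⟩
  · left
    have e1 := h1 1 (by omega)
    omega
  · exact Or.inr S'
  · left
    have e1 := h2.hi 1 (by omega)
    have e2 := (C t).lo_le 1 (by omega)
    omega
  · omega
  · left
    obtain ⟨⟨-, l1, -⟩, -, k1, -⟩ := h2
    omega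
  · left
    have e1 := h2 1 (by omega)
    omega

/-- THE ROTATED ROWS WITH THREE SITES HAVE A PENDANT -/
theorem NJ.r3_pen (h : NJ P r j) (h5 : 5 ≤ j) (h8 : j ≠ 8) {lo hi : Tops P → ℕ → ℕ}
    {e : Tops P → ℕ → ℕ → P} (C : ∀ t : Tops P, Cp.Comp j (t : P) (lo t) (hi t) (e t))
    (hS : ∀ t : Tops P, Wd.Shape j (lo t) (hi t)) (B : RowB P j t 2 x c β) (hb : β ≠ 0) :
    pen (x 0) ≠ ∅ ∨ pen (x 1) ≠ ∅ ∨ pen (x 2) ≠ ∅ := by
  classical
  have H := h.g.H
  have hj : 2 ≤ j := by omega
  obtain ⟨hlen, hor⟩ := B.orient h hj (C t)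
  obtain ⟨f1, f2⟩ := B.ends hb
  have Ct := C t
  have sing : ∀ s, lo t j ≤ s → s ≤ hi t j → ((uc (e t j s)).card = 1 ↔
      s = lo t (j - 1) ∨ s = hi t (j - 1) + 1) := by
    intro s s1 s2
    have h1 := Ct.single_up H h.g.good t.2 (k := j - 1) (s := s) (by omega)
      (by rw [show j - 1 + 1 = j by omega]; exact s1) (by rw [show j - 1 + 1 = j by omega]; exact s2)
    rwa [show j - 1 + 1 = j by omega] at h1
  have hends : (uc (e t j (lo t j))).card = 1 ∧ (uc (e t j (hi t j))).card = 1 := by
    rcases hor with hor | hor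
    · rw [hor 0 (by omega), Nat.add_zero] at f1
      rw [hor 2 le_rfl, ← hlen] at f2
      exact ⟨f1, f2⟩
    · rw [hor 0 (by omega), Nat.sub_zero] at f1
      rw [hor 2 le_rfl, show hi t j - 2 = lo t j by omega] at f2
      exact ⟨f2, f1⟩
  have g1 := (sing _ le_rfl (by omega)).1 hends.1
  have g2 := (sing _ (by omega) le_rfl).1 hends.2
  obtain ⟨jj, ej⟩ : ∃ jj, j = jj + 1 := ⟨j - 1, by omega⟩
  have st1 := Ct.lo_step jj (by omega)
  have st2 := Ct.hi_step jj (by omega)
  have st3 := Ct.lo_le jj (by omega)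
  have e1 : lo t j = lo t (j - 1) := by
    rw [ej] at g1 hlen ⊢
    rw [Nat.add_sub_cancel] at g1 ⊢
    omega
  have e2 : hi t j = hi t (j - 1) + 1 := by
    rw [ej] at g2 hlen ⊢
    rw [Nat.add_sub_cancel] at g2 ⊢
    omega
  -- the conclusion from a pendant of the row
  have fin : ∀ s, lo t j ≤ s → s ≤ hi t j → (pen (e t j s)).card = 1 →
      pen (x 0) ≠ ∅ ∨ pen (x 1) ≠ ∅ ∨ pen (x 2) ≠ ∅ := by
    intro s s1 s2 s3
    have hne : pen (e t j s) ≠ ∅ := by
      intro h0
      rw [h0, card_empty] at s3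
      omega
    have hex : ∃ k, k ≤ 2 ∧ x k = e t j s := by
      rcases hor with hor | hor
      · exact ⟨s - lo t j, by omega, by rw [hor _ (by omega)]; congr 1; omega⟩
      · exact ⟨hi t j - s, by omega, by rw [hor _ (by omega)]; congr 1; omega⟩
    obtain ⟨k, hk, hk2⟩ := hex
    rw [← hk2] at hne
    obtain rfl | rfl | rfl : k = 0 ∨ k = 1 ∨ k = 2 := by omega
    · exact Or.inl hne
    · exact Or.inr (Or.inl hne)
    · exact Or.inr (Or.inr hne)
  rcases hS t with g | ⟨g, S'⟩ | ⟨g, S⟩ | ⟨g, g', g''⟩ | ⟨g, g'⟩ |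
    ⟨a, a0, a1, a2, a3, hN, a4⟩
  · exfalso
    have := g j le_rfl
    omega
  · -- rectangle
    exfalso
    have hne : x 0 ≠ x 2 := fun q => by
      have := B.row.inj 0 2 (by omega) le_rfl q
      omega
    have hd : dcv (x 0) (x 2) ≠ 0 := by
      intro hd
      have e3 := B.row.df 0 2 (by omega) le_rfl
      rw [Df_pair H (B.row.lev_x 0 (by omega)) hne, B.ucv_x 0 2 (by omega) le_rfl,
        if_neg (by omega), if_neg (by omega), if_pos ⟨rfl, rfl⟩, hd] at e3
      apply hb
      rw [← e3]
      norm_num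
    unfold dcv at hd
    have hd' : #{z : P | z ⋖ x 0 ∧ z ⋖ x 2} ≠ 0 := fun h0 => hd (by rw [h0])
    obtain ⟨y, hy⟩ := card_pos.1 (Nat.pos_of_ne_zero hd')
    rw [mem_filter] at hy
    have hl := lev_cov H hy.2.1
    have hx := B.row.lev_x 0 (by omega)
    have hxt : x 0 ≤ (t : P) := by
      rw [← B.row.kap 0 (by omega)]
      exact le_topOf (x 0)
    have h3 := rect_no_rotation h.g hj h.no C (r3_level_one (by omega) C hS) (t := t)
      (z := y) (x := x 0) (x' := x 2) (by omega) (by omega) (hy.2.1.le.trans hxt) hy.2.1 hy.2.2 hne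
    rw [B.ucv_x 0 2 (by omega) le_rfl, if_neg (by omega)] at h3
    omega
  · -- stair
    exfalso
    have s1 := S.hi j le_rfl
    have s2 := S.hi (j - 1) (by omega)
    have s3 := S.lo (j - 1) (by omega)
    rw [show j - 1 + 1 = j by omega] at s3
    omega
  · exfalso
    omega
  · exfalso
    subst g
    obtain ⟨⟨-, -, -, -, -, -, l6⟩, -, -, -, -, -, -, k6⟩ := g'
    omega
  · -- late
    have hstep : ∀ k, k < a + (j - a) → lo t k ≤ lo t (k + 1) ∧ lo t (k + 1) ≤ lo t k + 1 := by
      intro k hk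
      have := Ct.lo_step k (by omega)
      omega
    have hstep' : ∀ k, k < a + (j - a) → hi t k ≤ hi t (k + 1) ∧ hi t (k + 1) ≤ hi t k + 1 := by
      intro k hk
      have := Ct.hi_step k (by omega)
      omega
    have haj : a < j := by
      rcases Nat.lt_or_ge a j with h1 | h1
      · exact h1
      · have : a = j := by omega
        rw [this] at a3
        omega
    have key := Nl.late_two a3 hstep hstep' a4 (by omega)
      (by rw [show a + (j - a) = j by omega]; exact hlen)
      (by rw [show a + (j - a) = j by omega, show a + (j - a - 1) = j - 1 by omega]; exact e1)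
      (by rw [show a + (j - a) = j by omega, show a + (j - a - 1) = j - 1 by omega]; exact e2)
    have hmem : word (lo t) (hi t) a (j - a) ∈ lateW a := by
      rcases a4 with ⟨-, h4⟩ | h4
      · exfalso
        rw [h4] at key
        unfold Qw at key
        rcases key with hw | hw | hw <;>
          (rw [List.cons.injEq] at hw; exact absurd hw.1 (by decide))
      · exact h4
    rcases Nl.NJ.late_three h Ct h8 a0 (by omega) a2 a3 hmem key with h1 | h1
    · exact fin _ (by omega) le_rfl h1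
    · exact fin _ (by omega) (by omega) h1

end Pool.Agent.GaussPoset.EK
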