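import Pool.Agent.W_448nl_h15.NvB

/-! Values of the word E7 at the window 8, level 16 natural (kernel evaluation, in pieces). -/

namespace Pool.Agent.GaussPoset.Win.Ev

set_option maxRecDepth 100000

/-- 69352 nodes -/
theorem E7q15_1a_0_0 : pcv 1 (tl (tl (tl (mk [0, 0, 0, 0, 0, 0, 1, 2, 2, 3, 3, 3, 4, 5, 5, 5, 5] [0, 0, 0, 0, 1, 1, 2, 3, 4, 4, 4, 4, 5, 5, 5, 5, 5] 17 8)))) (0 + 1 * 32 ^ 258 + 0 * 32 ^ 291) 226 (15 - 1 - 0) 0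
    [0, 0, -41] = true := by
  decide +kernel

/-- 83389 nodes -/
theorem E7q15_1a_0_1 : pcv 1 (tl (tl (tl (mk [0, 0, 0, 0, 0, 0, 1, 2, 2, 3, 3, 3, 4, 5, 5, 5, 5] [0, 0, 0, 0, 1, 1, 2, 3, 4, 4, 4, 4, 5, 5, 5, 5, 5] 17 8)))) (0 + 1 * 32 ^ 258 + 0 * 32 ^ 291) 226 (15 - 1 - 0) 3
    [1, 24, 12, 4, 1, 0, 0, 0, 0, 0, 0, 0] = true := by
  decide +kernel

theorem E7q15_1a_0 : pcv 1 (tl (tl (mk [0, 0, 0, 0, 0, 0, 1, 2, 2, 3, 3, 3, 4, 5, 5, 5, 5] [0, 0, 0, 0, 1, 1, 2, 3, 4, 4, 4, 4, 5, 5, 5, 5, 5] 17 8))) (0 + 1 * 32 ^ 258) 291 (15 - 1) 0 [1] = true := by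
  have h := pcv_app E7q15_1a_0_0 (by decide) E7q15_1a_0_1
  exact pcv_one E7_8_hd3 (c := [0, 0, -41, 1, 24, 12, 4, 1, 0, 0, 0, 0, 0, 0, 0]) (by decide) h (by decide)

/-- 94896 nodes -/
theorem E7q15_1a_1_0 : pcv 1 (tl (tl (tl (mk [0, 0, 0, 0, 0, 0, 1, 2, 2, 3, 3, 3, 4, 5, 5, 5, 5] [0, 0, 0, 0, 1, 1, 2, 3, 4, 4, 4, 4, 5, 5, 5, 5, 5] 17 8)))) (0 + 1 * 32 ^ 258 + 1 * 32 ^ 291) 226 (15 - 1 - 1) 0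
    [0, 0, 31] = true := by
  decide +kernel

/-- 98370 nodes -/
theorem E7q15_1a_1_1 : pcv 1 (tl (tl (tl (mk [0, 0, 0, 0, 0, 0, 1, 2, 2, 3, 3, 3, 4, 5, 5, 5, 5] [0, 0, 0, 0, 1, 1, 2, 3, 4, 4, 4, 4, 5, 5, 5, 5, 5] 17 8)))) (0 + 1 * 32 ^ 258 + 1 * 32 ^ 291) 226 (15 - 1 - 1) 3
    [4, -20, -11, -4, -1, 0, 0, 0, 0, 0, 0] = true := by
  decide +kernel

theorem E7q15_1a_1 : pcv 1 (tl (tl (mk [0, 0, 0, 0, 0, 0, 1, 2, 2, 3, 3, 3, 4, 5, 5, 5, 5] [0, 0, 0, 0, 1, 1, 2, 3, 4, 4, 4, 4, 5, 5, 5, 5, 5] 17 8))) (0 + 1 * 32 ^ 258) 291 (15 - 1) 1 [-1] = true := by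
  have h := pcv_app E7q15_1a_1_0 (by decide) E7q15_1a_1_1
  exact pcv_one E7_8_hd3 (c := [0, 0, 31, 4, -20, -11, -4, -1, 0, 0, 0, 0, 0, 0]) (by decide) h (by decide)

theorem E7q15_1a : pcv 1 (tl (tl (mk [0, 0, 0, 0, 0, 0, 1, 2, 2, 3, 3, 3, 4, 5, 5, 5, 5] [0, 0, 0, 0, 1, 1, 2, 3, 4, 4, 4, 4, 5, 5, 5, 5, 5] 17 8))) (0 + 1 * 32 ^ 258) 291 (15 - 1) 0 [1, -1] = true := by
  have h := pcv_app E7q15_1a_0 (by decide) E7q15_1a_1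
  exact h

end Pool.Agent.GaussPoset.Win.Ev
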