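import Pool.Agent.W_448nl_h15.NvB

/-! Values of the word E7 at the window 8, level 16 natural (kernel evaluation, in pieces). -/

namespace Pool.Agent.GaussPoset.Win.Ev

set_option maxRecDepth 100000

/-- 113412 nodes -/
theorem E7q16_3_0_0 : pcv 1 (tl (tl (mk [0, 0, 0, 0, 0, 0, 1, 2, 2, 3, 3, 3, 4, 5, 5, 5, 5] [0, 0, 0, 0, 1, 1, 2, 3, 4, 4, 4, 4, 5, 5, 5, 5, 5] 17 8))) (0 + 3 * 32 ^ 258) 291 (16 - 3) 0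
    [-7, 2] = true := by
  decide +kernel

/-- 113358 nodes -/
theorem E7q16_3_0_1 : pcv 1 (tl (tl (mk [0, 0, 0, 0, 0, 0, 1, 2, 2, 3, 3, 3, 4, 5, 5, 5, 5] [0, 0, 0, 0, 1, 1, 2, 3, 4, 4, 4, 4, 5, 5, 5, 5, 5] 17 8))) (0 + 3 * 32 ^ 258) 291 (16 - 3) 2
    [-1, -3, 1, 0, 0, 0, 0, 0, 0, 0, 0, 0] = true := by
  decide +kernel

theorem E7q16_3_0 : pcv 1 (tl (mk [0, 0, 0, 0, 0, 0, 1, 2, 2, 3, 3, 3, 4, 5, 5, 5, 5] [0, 0, 0, 0, 1, 1, 2, 3, 4, 4, 4, 4, 5, 5, 5, 5, 5] 17 8)) (0) 258 (16) 3 [-8] = true := by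
  have h := pcv_app E7q16_3_0_0 (by decide) E7q16_3_0_1
  exact pcv_one E7_8_hd2 (c := [-7, 2, -1, -3, 1, 0, 0, 0, 0, 0, 0, 0, 0, 0]) (by decide) h (by decide)

/-- 121577 nodes -/
theorem E7q16_3_1 : pcv 1 (tl (mk [0, 0, 0, 0, 0, 0, 1, 2, 2, 3, 3, 3, 4, 5, 5, 5, 5] [0, 0, 0, 0, 1, 1, 2, 3, 4, 4, 4, 4, 5, 5, 5, 5, 5] 17 8)) (0) 258 (16) 4
    [-4] = true := by
  decide +kernel

theorem E7q16_3 : pcs 1 (tl (mk [0, 0, 0, 0, 0, 0, 1, 2, 2, 3, 3, 3, 4, 5, 5, 5, 5] [0, 0, 0, 0, 1, 1, 2, 3, 4, 4, 4, 4, 5, 5, 5, 5, 5] 17 8)) 258 16 3 [-8, -4] = true := by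
  have h := pcv_app E7q16_3_0 (by decide) E7q16_3_1
  exact pcs_of h

end Pool.Agent.GaussPoset.Win.Ev
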