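import Pool.Agent.W_448ev_h61.EvN

/-!
# MP_448cb3_co: splitting a long evaluation along the first two labels
-/

namespace Pool.Agent.GaussPoset.Win.Ev

set_option maxRecDepth 100000

/-- the values of the pieces `k ∈ [u, w)` of a split evaluation, with labels given before -/
noncomputable def pcv (m : ℕ) (q : Prog) (v x b u : ℕ) (c : List ℤ) : Bool :=
  (List.range c.length).all fun k =>
    decide (ev m q (v + (u + k) * 32 ^ x) (b - (u + k)) 0 0 0 = c.getD k 0)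

lemma pcv_get {m : ℕ} {q : Prog} {v x b u : ℕ} {c : List ℤ} (h : pcv m q v x b u c = true) {k : ℕ}
    (hk : k < c.length) :
    ev m q (v + (u + k) * 32 ^ x) (b - (u + k)) 0 0 0 = c.getD k 0 := by
  unfold pcv at h
  rw [List.all_eq_true] at h
  exact of_decide_eq_true (h k (List.mem_range.2 hk))

theorem E7_8_okb : okP [0, 0, 0, 0, 0, 0, 1, 2, 2, 3, 3, 3, 4, 5, 5, 5, 5] [0, 0, 0, 0, 1, 1, 2, 3, 4, 4, 4, 4, 5, 5, 5, 5, 5] 17 8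
    (mk [0, 0, 0, 0, 0, 0, 1, 2, 2, 3, 3, 3, 4, 5, 5, 5, 5]
    [0, 0, 0, 0, 1, 1, 2, 3, 4, 4, 4, 4, 5, 5, 5, 5, 5] 17 8) = true ∧ lb0 (mk [0, 0, 0, 0, 0, 0, 1, 2, 2, 3, 3, 3, 4, 5, 5, 5, 5]
    [0, 0, 0, 0, 1, 1, 2, 3, 4, 4, 4, 4, 5, 5, 5, 5, 5] 17 8) = true := by
  constructor <;> decide +kernel

theorem E7_8_hd : hd0 258 (mk [0, 0, 0, 0, 0, 0, 1, 2, 2, 3, 3, 3, 4, 5, 5, 5, 5]
    [0, 0, 0, 0, 1, 1, 2, 3, 4, 4, 4, 4, 5, 5, 5, 5, 5] 17 8) = true := by decide +kernel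

theorem E7_8_hd2 : hd0 291 (tl (mk [0, 0, 0, 0, 0, 0, 1, 2, 2, 3, 3, 3, 4, 5, 5, 5, 5]
    [0, 0, 0, 0, 1, 1, 2, 3, 4, 4, 4, 4, 5, 5, 5, 5, 5] 17 8)) = true := by decide +kernel

end Pool.Agent.GaussPoset.Win.Ev
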