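import Pool.Agent.W_448nl_h15.NvA

/-!
# MP_448cb3_co: pieces of long evaluations from smaller pieces
-/

namespace Pool.Agent.GaussPoset.Win.Ev

set_option linter.unusedSectionVars false

lemma sum_getD_B (c : List ℤ) : ∑ k ∈ Finset.range c.length, c.getD k 0 = c.sum := by
  induction c with
  | nil => simp
  | cons a c ih =>
    rw [List.length_cons, Finset.sum_range_succ', List.sum_cons]
    simp only [List.getD_cons_succ, List.getD_cons_zero]
    rw [ih, add_comm]

/-- concatenation of the lists of values -/
lemma pcv_app {m v x b u w : ℕ} {q : Prog} {c c' : List ℤ} (h : pcv m q v x b u c = true)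
    (hw : w = u + c.length) (h' : pcv m q v x b w c' = true) :
    pcv m q v x b u (c ++ c') = true := by
  subst hw
  unfold pcv
  rw [List.all_eq_true]
  intro k hk
  rw [List.mem_range, List.length_append] at hk
  rw [decide_eq_true_eq]
  rcases Nat.lt_or_ge k c.length with h1 | h1
  · rw [pcv_get h h1, List.getD_append _ _ _ _ h1]
  · have h2 := pcv_get h' (k := k - c.length) (by omega)
    rw [show u + c.length + (k - c.length) = u + k by omega] at h2
    rw [h2, List.getD_append_right _ _ _ _ h1]

/-- the same without given labels -/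
lemma pcs_of {m x b u : ℕ} {q : Prog} {c : List ℤ} (h : pcv m q 0 x b u c = true) :
    pcs m q x b u c = true := by
  unfold pcs
  rw [List.all_eq_true]
  intro k hk
  rw [List.mem_range] at hk
  rw [decide_eq_true_eq]
  have h1 := pcv_get h hk
  rwa [Nat.zero_add] at h1

/-- one value from the values of the next label -/
lemma pcv_one {m v x y b u : ℕ} {p : Prog} (h : hd0 y p = true) {c : List ℤ}
    (hc : c.length = b - u + 1) (hp : pcv m (tl p) (v + u * 32 ^ x) y (b - u) 0 c = true) {s : ℤ}
    (hs : c.sum = s) : pcv m p v x b u [s] = true := by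
  unfold pcv
  rw [List.all_eq_true]
  intro k hk
  rw [List.mem_range, List.length_singleton] at hk
  obtain rfl : k = 0 := by omega
  rw [decide_eq_true_eq, Nat.add_zero, ev_split h, ← hc, List.getD_cons_zero, ← hs, ← sum_getD_B]
  refine Finset.sum_congr rfl fun k hk => ?_
  rw [Finset.mem_range] at hk
  have h1 := pcv_get hp hk
  rwa [Nat.zero_add] at h1

set_option maxRecDepth 100000 in
theorem E7_8_hd3 : hd0 226 (tl (tl (mk [0, 0, 0, 0, 0, 0, 1, 2, 2, 3, 3, 3, 4, 5, 5, 5, 5]
    [0, 0, 0, 0, 1, 1, 2, 3, 4, 4, 4, 4, 5, 5, 5, 5, 5] 17 8))) = true := by decide +kernel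

end Pool.Agent.GaussPoset.Win.Ev
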