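import Pool.Agent.W_448nl_h15.NvB

/-!
# MP_448cb3_co: the check of the last row from smaller pieces
-/

namespace Pool.Agent.GaussPoset.Win.Ev

set_option linter.unusedSectionVars false

/-- one element in the last row: more energies -/
lemma okXs_split {lo hi : List ℕ} {R s m N N' c : ℕ}
    (hX : (rowN lo hi (R - 1)).map (cd (R - 1)) = [c]) (h : okXs lo hi R s m N' = true)
    (h' : ∀ n, N' ≤ n → n < N → ev m (mkX lo hi R s [c]) 0 n 0 0 0 = 0) :
    okXs lo hi R s m N = true := by
  unfold okXs at h ⊢
  rw [hX] at h ⊢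
  rw [List.all_eq_true] at h ⊢
  intro X hXs
  have h1 := h X hXs
  rw [Bool.or_eq_true] at h1 ⊢
  rcases h1 with h1 | h1
  · exact Or.inl h1
  · rw [List.mem_sublists, List.sublist_singleton] at hXs
    rcases hXs with rfl | rfl
    · exact Or.inl rfl
    · right
      unfold okX at h1 ⊢
      rw [Bool.and_eq_true] at h1 ⊢
      refine ⟨h1.1, ?_⟩
      have h2 := h1.2
      rw [List.all_eq_true] at h2 ⊢
      intro n hn
      rw [List.mem_range] at hn
      rcases Nat.lt_or_ge n N' with h3 | h3
      · exact h2 n (List.mem_range.mpr h3)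
      · rw [decide_eq_true_eq]
        exact h' n h3 hn

/-- the check for the second order from its parts -/
lemma goodB_of {los his : List ℕ} {R s N : ℕ} (h1 : okP los his R s (mk los his R s) = true)
    (h2 : lb0 (mk los his R s) = true) (h3 : ev 1 (mk los his R s) 0 (N - 1) 0 0 0 = 0)
    (h4 : ev 1 (mk los his R s) 0 N 0 0 0 = 0) (h5 : okXs los his R s 1 N = true) :
    goodB los his R s N = true := by
  unfold goodB
  rw [h1, h2, h5, decide_eq_true h3, decide_eq_true h4]
  rfl

/-- a value from the values of the first label -/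
lemma ev_one {m y b : ℕ} {p : Prog} (h : hd0 y p = true) {c : List ℤ} (hc : c.length = b + 1)
    (hp : pcv m (tl p) 0 y b 0 c = true) {s : ℤ} (hs : c.sum = s) : ev m p 0 b 0 0 0 = s := by
  rw [ev_split h, ← hc, ← hs, ← sum_getD_B]
  refine Finset.sum_congr rfl fun k hk => ?_
  rw [Finset.mem_range] at hk
  have h1 := pcv_get hp hk
  simp only [Nat.zero_add] at h1 ⊢
  exact h1

end Pool.Agent.GaussPoset.Win.Ev
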