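import Pool.Agent.W_448nl_h15.NvC

/-!
# MP_448cb3_co: the first labels of the programs of the word E7 with 15 and 16 rows
-/

namespace Pool.Agent.GaussPoset.Win.Ev

set_option maxRecDepth 100000

theorem E7_7_hd2 : hd0 291 (tl (mk [0, 0, 0, 0, 0, 0, 1, 2, 2, 3, 3, 3, 4, 5, 5, 5]
    [0, 0, 0, 0, 1, 1, 2, 3, 4, 4, 4, 4, 5, 5, 5, 5] 16 8)) = true := by decide +kernel

theorem E7_7_hd3 : hd0 226 (tl (tl (mk [0, 0, 0, 0, 0, 0, 1, 2, 2, 3, 3, 3, 4, 5, 5, 5]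
    [0, 0, 0, 0, 1, 1, 2, 3, 4, 4, 4, 4, 5, 5, 5, 5] 16 8))) = true := by decide +kernel

theorem E7_6_hd : hd0 258 (mk [0, 0, 0, 0, 0, 0, 1, 2, 2, 3, 3, 3, 4, 5, 5]
    [0, 0, 0, 0, 1, 1, 2, 3, 4, 4, 4, 4, 5, 5, 5] 15 8) = true := by decide +kernel

theorem E7_6_hd2 : hd0 291 (tl (mk [0, 0, 0, 0, 0, 0, 1, 2, 2, 3, 3, 3, 4, 5, 5]
    [0, 0, 0, 0, 1, 1, 2, 3, 4, 4, 4, 4, 5, 5, 5] 15 8)) = true := by decide +kernel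

theorem E7_8_Xr : (rowN [0, 0, 0, 0, 0, 0, 1, 2, 2, 3, 3, 3, 4, 5, 5, 5, 5]
    [0, 0, 0, 0, 1, 1, 2, 3, 4, 4, 4, 4, 5, 5, 5, 5, 5] (17 - 1)).map (cd (17 - 1)) = [517] := by
  decide +kernel

end Pool.Agent.GaussPoset.Win.Ev
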